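import Pool.Agent.OT.Mov

/-!
# The associator `(x_i, x_j, P)`  (module Bas)

`b4_rp`: `b4_oc`, `Rp_com`, `Rp_ass`. `b4_pr`: `pr R` and `Pv v R` differ only for the empty list, where `pr = 0`, `Pv = 1` and both values are 0
(`com_pr`, `ass_pr`, `ass_pr'`). `bas_rp2`: induction on `g` (all `l`): with `s = x_k`, `r = Pv v (g.map of)`, and the cyclic symmetry of `associator`
(`as12`, `as23`): `(x_i, x_j, s r) = (s r, x_i, x_j) = s (x_i, x_j, r) + (x_i, x_j, s) r + b4`; then `mv_rp` moves
`(x_i, x_j, x_k)` to the front. `bas_rp1`: induction on `vs` (all `ws`): for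
`s = cv F w` the term `(x_i, x_j, s) r` is represented by `associator (adK K (cv F w)) x_i x_j :: ..` (`Rp_ass`, `Rp.inpr`).
-/

set_option autoImplicit false
set_option linter.unusedSectionVars false

namespace Pool.Agent.OT

open FreeNonUnitalNonAssocAlgebra Pool.Agent.H.MP_41922c_al Pool.Agent.Smt Pool.Agent.OB Pool.Agent.OBX

variable {F : Type*} [Field F] [CharP F 2]

theorem Bas_tc (f g : FA F) (v : ℕ → Oc F) : tt (vl v (com f g)) = 0 := by
  rw [vl_com]
  exact tt_com _ _

theorem Bas_ta (f g h : FA F) (v : ℕ → Oc F) : tt (vl v (associator f g h)) = 0 := by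
  rw [vl_ass]
  exact tt_associator _ _ _

theorem Bas_Cx0 (v : ℕ → Oc F) (l : List (FA F)) : Cx v l 0 = 0 := by
  have h := Cx_smul v l 0 0
  rw [zero_smul, zero_smul] at h
  exact h

theorem Bas_a1 (a b : Oc F) : associator a b 1 = 0 := by
  unfold associator
  rw [mul_one, mul_one, sub_self]

theorem Bas_1a (a b : Oc F) : associator 1 a b = 0 := by
  unfold associator
  rw [one_mul, one_mul, sub_self]

theorem Bas_0a (a b : Oc F) : associator 0 a b = 0 := by
  unfold associator
  rw [zero_mul, zero_mul, zero_mul, sub_self]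

theorem b4_rp (a b s R : FA F) : Rp (b4 a b s R) (fun v => associator (vl v s * vl v R) (vl v a) (vl v b)
    - vl v s * associator (vl v R) (vl v a) (vl v b) - associator (vl v s) (vl v a) (vl v b) * vl v R) := by
  have h := (((Rp_ass a b (Bas_tc s R)).add (Rp_ass s R (Bas_tc a b))).add
    (Rp_com s (Bas_ta R a b))).add (Rp_com R (Bas_ta s a b))
  have h2 := h.congr (l' := fun v => associator (vl v s * vl v R) (vl v a) (vl v b)
    - vl v s * associator (vl v R) (vl v a) (vl v b) - associator (vl v s) (vl v a) (vl v b) * vl v R)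
    (fun v => by
      rw [vl_com, vl_com, vl_ass, vl_ass, b4_oc (vl v a) (vl v b) (vl v s) (vl v R)]
      abel)
  exact h2

/-- `b4` does not see the difference between `pr R` and `Pv v R` -/
theorem b4_pr (a b s : FA F) (R : List (FA F)) : Rp (b4 a b s (pr R)) (fun v =>
    associator (vl v s * Pv v R) (vl v a) (vl v b)
    - vl v s * associator (Pv v R) (vl v a) (vl v b) - associator (vl v s) (vl v a) (vl v b) * Pv v R) := by
  refine (b4_rp a b s (pr R)).congr (fun v => ?_)
  cases R with
  | nil =>
    have h0 : vl v (pr ([] : List (FA F))) = 0 := map_zero _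
    rw [h0, Pv_nil, mul_zero, mul_one, mul_zero, mul_one, Bas_0a, Bas_1a, mul_zero]
    abel
  | cons c l => rw [vl_pr]

theorem bas_rp2 (i j : ℕ) (vs : List Cen) (l g : List ℕ) :
    Rp (basR i j (fac F vs l) [] g) (fun v =>
      Cx v (fac F vs l) (associator (v i) (v j) (Pv v (g.map (of F)))) -
        ((basS i j vs l g).map fun s => Pv v (fac F s.1 s.2)).sum) := by
  induction g generalizing l with
  | nil =>
    rw [basR]
    refine Rp_zero.congr (fun v => ?_)
    rw [List.map_nil, Pv_nil, Bas_a1, Bas_Cx0, basS, List.map_nil, List.sum_nil, sub_zero]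
  | cons k g ih =>
    have hf : ∀ v : ℕ → Oc F, tt (vl v (cv F (.d i j k))) = 0 := fun v => vl_cv v _
    have h1 := Rp.inpr (fac F vs l) (b4_pr (of F i) (of F j) (of F k) (g.map (of F))) []
    have h2 := mv_rp (fac F vs l) hf (g.map (of F))
    have h3 := ih (l ++ [k])
    have e1 : fac F vs (l ++ [k]) = fac F vs l ++ [of F k] := by
      simp only [fac, List.map_append, List.map_cons, List.map_nil, List.append_assoc]
    rw [e1] at h3
    have e2 : fac F (.d i j k :: vs) (l ++ g) =
        cv F (.d i j k) :: (fac F vs l ++ g.map (of F)) := by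
      simp only [fac, List.map_append, List.map_cons, List.cons_append, List.append_assoc]
    have h := ((h1.add h2).add h3)
    rw [basR]
    refine Rp.congr h (fun v => ?_)
    rw [basS, List.map_cons, List.map_cons, List.sum_cons, e2, Cx_append, Pv_append, Pv_cons v (of F k),
      Pv_cons v (cv F (.d i j k)) (g.map (of F)), Pv_nil, mul_one, vl_of, vl_of, vl_of]
    have e3 : ∀ z, Cx v [of F k] z = v k * z := fun z => by
      show vl v (of F k) * z = _
      rw [vl_of]
    have e4 : vl v (cv F (.d i j k)) = associator (v i) (v j) (v k) := by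
      rw [cv, vl_ass, vl_of, vl_of, vl_of]
    have e5 : ∀ x, associator x (v i) (v j) = associator (v i) (v j) x := fun x => by
      rw [as12, as23]
    rw [e3, e4, e5, e5, e5]
    generalize Pv v (g.map (of F)) = P
    have e6 : associator (v i) (v j) (v k * P) = (associator (v i) (v j) (v k * P)
        - v k * associator (v i) (v j) P - associator (v i) (v j) (v k) * P)
        + associator (v i) (v j) (v k) * P + v k * associator (v i) (v j) P := by abel
    conv_rhs => rw [e6, Cx_add, Cx_add]
    abel

theorem bas_rp1 (i j : ℕ) (ws vs : List Cen) (g : List ℕ) :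
    Rp (basR i j (fac F ws []) vs g) (fun v =>
      Cx v (fac F ws []) (associator (v i) (v j) (Pv v (fac F vs g))) -
        ((basS i j (ws ++ vs) [] g).map fun s => Pv v (fac F s.1 s.2)).sum) := by
  induction vs generalizing ws with
  | nil =>
    rw [List.append_nil]
    exact bas_rp2 i j ws [] g
  | cons w vs ih =>
    have h1 := Rp.inpr (fac F ws []) (b4_pr (of F i) (of F j) (cv F w) (fac F vs g)) []
    have h2 := Rp.inpr (fac F ws []) (Rp_ass (of F i) (of F j)
      (f := cv F w) (fun v => vl_cv v w)) (fac F vs g)
    have h3 := ih (ws ++ [w])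
    have e1 : fac F (ws ++ [w]) [] = fac F ws [] ++ [cv F w] := by
      simp only [fac, List.map_append, List.map_cons, List.map_nil, List.append_nil]
    rw [e1, List.append_assoc, List.singleton_append] at h3
    have h := ((h1.add h2).add h3)
    rw [basR]
    refine Rp.congr h (fun v => ?_)
    have e2 : fac F (w :: vs) g = cv F w :: fac F vs g := rfl
    rw [e2, Cx_append, Pv_cons, Pv_nil, mul_one, vl_of, vl_of]
    have e3 : ∀ z, Cx v [cv F w] z = vl v (cv F w) * z := fun z => rfl
    have e5 : ∀ x, associator x (v i) (v j) = associator (v i) (v j) x := fun x => by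
      rw [as12, as23]
    rw [e3, e5, e5, e5]
    generalize Pv v (fac F vs g) = P
    generalize vl v (cv F w) = W
    have e6 : associator (v i) (v j) (W * P) = (associator (v i) (v j) (W * P)
        - W * associator (v i) (v j) P - associator (v i) (v j) W * P)
        + associator (v i) (v j) W * P + W * associator (v i) (v j) P := by abel
    conv_rhs => rw [e6, Cx_add, Cx_add]
    abel

theorem bas_rp (i j : ℕ) (vs : List Cen) (g : List ℕ) :
    Rp (basR i j [] vs g) (fun v => associator (v i) (v j) (Pv v (fac F vs g)) -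
        ((basS i j vs [] g).map fun s => Pv v (fac F s.1 s.2)).sum) :=
  bas_rp1 i j [] vs g

theorem bas_ok (i j : ℕ) (vs : List Cen) (l g : List ℕ) (h : (l ++ g).Pairwise (· ≤ ·)) :
    ∀ s ∈ basS i j vs l g, s.2.Pairwise (· ≤ ·) ∧ (s.1 ≠ [] ∨ s.2 ≠ []) := by
  induction g generalizing l with
  | nil =>
    intro s hs
    rw [basS] at hs
    exact absurd hs List.not_mem_nil
  | cons k g ih =>
    intro s hs
    rw [basS, List.mem_cons] at hs
    rcases hs with hs | hs
    · subst hs
      refine ⟨h.sublist ?_, Or.inl (List.cons_ne_nil _ _)⟩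
      exact List.Sublist.append_left (List.sublist_cons_self k g) l
    · refine ih (l ++ [k]) ?_ s hs
      rw [List.append_assoc, List.singleton_append]
      exact h

end Pool.Agent.OT
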