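import Pool.Agent.OT.O3

/-!
# Two traces times a commutator  (module O4)

`tt (x y) • com z w = com (x y) (com z w) + tt (x y * com z w) • 1`; the scalar is `tt (com w (x y) * z)`, that is
`tt z • com w (x y) + com z (com w (x y))`; expand `com w (x y) = x (com w y) + (com w x) y + associator x y w`
(characteristic 2) and use `ex_c`-like rules: `tt z • com w y = tt y • com z w + (com z (com w y) + com y (com z w))`,
`tt z • com w x = tt x • com z w + (com z (com w x) + com x (com z w))`; on the left use `tt_mul2` with `r = com z w`; and
`(tt x • com z w) * y = y * (tt x • com z w) + com y (com x (com z w))`. The formula was checked by computer.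
-/

set_option autoImplicit false
set_option linter.unusedSectionVars false

namespace Pool.Agent.OT

open FreeNonUnitalNonAssocAlgebra Pool.Agent.H.MP_41922c_al Pool.Agent.Smt Pool.Agent.OB Pool.Agent.OBX

variable {F : Type*} [Field F] [CharP F 2]

theorem O4_lin (u r : Oc F) (hr : tt r = 0) : tt u • r = com u r + tt (u * r) • (1 : Oc F) := by
  have h1 := jor_oc u r
  rw [hr, zero_smul, add_zero, Oct_star_traceless hr, mul_neg, Oct_tt_neg, neg_smul,
    sub_neg_eq_add] at h1
  have h2 : com u r = jor u r := by
    unfold com jor
    exact sub2 _ _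
  have h3 := two0 (tt (u * r) • (1 : Oc F))
  rw [h2, h1, add_assoc, h3, add_zero]

theorem O4_tr1 (a z w : Oc F) : tt (a * com z w) = tt (com w a * z) := by
  unfold com
  rw [mul_sub, sub_mul, Oct_tt_sub, Oct_tt_sub, ← tt_assoc a z w, tt_comm (a * z) w,
    ← tt_assoc w a z, ← tt_assoc a w z]

theorem O4_tr2 (z w y : Oc F) : tt (z * com w y) = tt (y * com z w) := by
  unfold com
  rw [mul_sub, mul_sub, Oct_tt_sub, Oct_tt_sub, ← tt_assoc z w y, tt_comm (z * w) y,
    ← tt_assoc z y w, tt_comm (z * y) w, ← tt_assoc w z y, tt_comm (w * z) y]

theorem O4_exp (w x y : Oc F) : com w (x * y) = x * com w y + com w x * y + associator x y w := by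
  have h : com w (x * y) = x * com w y + com w x * y - associator w x y + associator x w y
      - associator x y w := by
    unfold com associator
    simp only [sub_mul, mul_sub]
    abel
  rw [h, as12 x w y, sub_add_cancel, sub2]

theorem O4_ex (z w y : Oc F) : tt z • com w y = tt y • com z w +
    (com z (com w y) + com y (com z w)) := by
  rw [O4_lin z (com w y) (tt_com w y), O4_lin y (com z w) (tt_com z w), O4_tr2]
  have h := two0 (com y (com z w))
  linear_combination (norm := module) -h

theorem O4_mul (x y r : Oc F) (hr : tt r = 0) : (tt x • r) * y = tt x • (y * r) +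
    com y (com x r) := by
  rw [← tr_com x y r hr, smul_mul_assoc, ← smul_add]
  congr 1
  unfold com
  have h := two0 (y * r)
  have h' := two0 (r * y)
  linear_combination (norm := module) h' - h

theorem cA_oc (x y z w : Oc F) : (tt x * tt y) • com z w = com x y * com z w + tt z • associator x y w +
    (com (x * y) (com z w) + com z (com w (x * y)) + x * (com z (com w y) + com y (com z w))
      + (com z (com w x) + com x (com z w)) * y + com y (com x (com z w))) := by
  obtain ⟨r, hr⟩ : ∃ r, r = com z w := ⟨_, rfl⟩
  have hr0 : tt r = 0 := by rw [hr]; exact tt_com z w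
  have h1 := tt_mul2 x y r
  have h2 := O4_lin (x * y) r hr0
  have h3 : tt (x * y * r) • (1 : Oc F) = tt z • com w (x * y) + com z (com w (x * y)) := by
    rw [hr, O4_tr1, tt_comm, O4_lin z _ (tt_com w (x * y))]
    have h := two0 (com z (com w (x * y)))
    linear_combination (norm := module) -h
  have h5 := O4_ex z w y
  have h6 := O4_ex z w x
  rw [← hr] at h5 h6 ⊢
  have h4 : tt z • com w (x * y) = tt y • (x * r) + x * (com z (com w y) + com y r) +
      (tt x • (y * r) + com y (com x r)) + (com z (com w x) + com x r) * y +
      tt z • associator x y w := by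
    rw [← O4_mul x y r hr0]
    conv_lhs => rw [O4_exp w x y, smul_add, smul_add, ← mul_smul_comm, ← smul_mul_assoc, h5, h6,
      mul_add, add_mul, mul_smul_comm]
    abel
  have h7 := two0 (com x y * r)
  linear_combination (norm := module) -h1 + h2 + h3 + h4 - h7

end Pool.Agent.OT
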