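import Pool.Agent.OT.O3

/-!
# Two traces times an associator  (module O5)

As in O4: the scalar `tt (x y * associator z w v)` times 1 is `tt z • associator (x y) w v + com z (associator (x y) w v)`, and
`associator (x y) w v = y * associator x w v + associator y w v * x + associator (com x y) w v + associator (com w v) x y` (see O3);
`tt z • associator x w v = tt x • associator z w v + (com z (associator x w v) + com x (associator z w v))`, the same for `y`;
`tt z • associator (com x y) w v = associator (com z (com x y)) w v` (`tr_ass`), `tt z • associator (com w v) x y = ..`; on the left
`tt_mul2` with `r = associator z w v`. The formula was checked by computer.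
-/

set_option autoImplicit false
set_option linter.unusedSectionVars false

namespace Pool.Agent.OT

open FreeNonUnitalNonAssocAlgebra Pool.Agent.H.MP_41922c_al Pool.Agent.Smt Pool.Agent.OB Pool.Agent.OBX

variable {F : Type*} [Field F] [CharP F 2]

theorem O5_com (u r : Oc F) (hr : tt r = 0) : com u r = tt u • r + tt (u * r) • (1 : Oc F) := by
  have h1 := jor_oc u r
  rw [hr, zero_smul, add_zero, Oct_star_traceless hr, mul_neg, Oct_tt_neg, neg_smul, sub_neg_eq_add]
    at h1
  rw [← h1]
  unfold com jor
  exact sub2 _ _

theorem O5_cyc (k x i j : Oc F) : tt (k * associator x i j) = tt (associator k x i * j) := by
  unfold associator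
  rw [mul_sub, sub_mul, Oct_tt_sub, Oct_tt_sub, ← tt_assoc k (x * i) j, ← tt_assoc k x (i * j),
    ← tt_assoc (k * x) i j]
  have h2 : (2 : F) = 0 := CharTwo.two_eq_zero
  linear_combination (tt (k * (x * i) * j) - tt (k * x * i * j)) * h2

theorem O5_sym (k x i j : Oc F) : tt (k * associator x i j) = tt (x * associator k i j) := by
  rw [O5_cyc, as12 k x i, ← O5_cyc]

theorem O5_ex (k x i j : Oc F) : tt k • associator x i j = tt x • associator k i j +
    (com k (associator x i j) + com x (associator k i j)) := by
  rw [O5_com k _ (tt_associator x i j), O5_com x _ (tt_associator k i j), O5_sym k x i j]
  linear_combination (norm := module) - two0 (tt x • associator k i j) -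
    two0 (tt (x * associator k i j) • (1 : Oc F))

theorem O5_mul (x y w v : Oc F) : associator (x * y) w v = y * associator x w v +
    associator y w v * x + associator (com x y) w v + associator (com w v) x y := by
  rw [a3_oc]
  have h : associator y w v * x = x * associator y w v + com x (associator y w v) := by
    have h1 : com x (associator y w v) = x * associator y w v - associator y w v * x := rfl
    rw [h1]
    linear_combination (norm := module) - two0 (x * associator y w v) + two0 (associator y w v * x)
  rw [h]
  abel

theorem cB_oc (x y z w v : Oc F) : (tt x * tt y) • associator z w v = com x y * associator z w v +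
    (com (x * y) (associator z w v) + com z (associator (x * y) w v)
      + y * (com z (associator x w v) + com x (associator z w v))
      + (com z (associator y w v) + com y (associator z w v)) * x
      + associator (com z (com x y)) w v + associator (com z (com w v)) x y
      + com x (com y (associator z w v))) := by
  have hr := tt_associator z w v
  have h1 := tt_mul2 x y (associator z w v)
  have h3 : tt (x * y) • associator z w v = com (x * y) (associator z w v) +
      tt z • associator (x * y) w v + com z (associator (x * y) w v) := by
    rw [O5_ex (x * y) z w v]
    abel
  have h5 : tt z • associator (x * y) w v =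
      y * (tt x • associator z w v + (com z (associator x w v) + com x (associator z w v))) +
      (tt y • associator z w v + (com z (associator y w v) + com y (associator z w v))) * x +
      associator (com z (com x y)) w v + associator (com z (com w v)) x y := by
    rw [O5_mul, smul_add, smul_add, smul_add, ← mul_smul_comm, ← smul_mul_assoc, O5_ex z x w v,
      O5_ex z y w v, tr_ass z (com x y) w v (tt_com x y), tr_ass z (com w v) x y (tt_com w v)]
  have h10 : associator z w v * x = x * associator z w v + com x (associator z w v) := by
    have h1 : com x (associator z w v) = x * associator z w v - associator z w v * x := rfl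
    rw [h1]
    linear_combination (norm := module) - two0 (x * associator z w v) + two0 (associator z w v * x)
  have h11 := tr_com y x (associator z w v) hr
  rw [mul_add, add_mul, mul_smul_comm, smul_mul_assoc, h10, smul_add, h11] at h5
  linear_combination (norm := module) - h1 + h3 + h5 - two0 (com x y * associator z w v)

end Pool.Agent.OT
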