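import Pool.Agent.OT.RpC
import Pool.Agent.OT.O4
import Pool.Agent.OT.O5

/-!
# `cA` and `cB`  (module CAB)

`cA_oc`, `cB_oc`, `Rp_com`, `Rp_ass`, `Rp.lmul`, `Rp.rmul`, `Rp.add`; for `com y (com x (adK K (com z w)))` note that
`vl v (com y (g K)) = tK v K • com (vl v y) (m v)` for every `Rp g m`.
-/

set_option autoImplicit false
set_option linter.unusedSectionVars false

namespace Pool.Agent.OT

open FreeNonUnitalNonAssocAlgebra Pool.Agent.H.MP_41922c_al Pool.Agent.Smt Pool.Agent.OB Pool.Agent.OBX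

variable {F : Type*} [Field F] [CharP F 2]

theorem CAB_com (y : FA F) {g : Rep F} {m : (ℕ → Oc F) → Oc F} (h : Rp g m) :
    Rp (fun K => com y (g K)) (fun v => com (vl v y) (m v)) := by
  intro v K
  rw [vl_com, h v K, Oct_com_smul]

theorem CAB_tc (x y : FA F) (v : ℕ → Oc F) : tt (vl v (com x y)) = 0 := by
  rw [vl_com]
  exact tt_com _ _

theorem CAB_ta (x y z : FA F) (v : ℕ → Oc F) : tt (vl v (associator x y z)) = 0 := by
  rw [vl_ass]
  exact tt_associator _ _ _

theorem cA_rp (x y z w : FA F) : Rp (cA x y z w) (fun v =>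
    (tt (vl v x) * tt (vl v y)) • com (vl v z) (vl v w) - com (vl v x) (vl v y) * com (vl v z) (vl v w)
      - tt (vl v z) • associator (vl v x) (vl v y) (vl v w)) := by
  have T1 := Rp_com (x * y) (CAB_tc z w)
  have T2 := Rp_com z (CAB_tc w (x * y))
  have T3 := Rp_com z (CAB_tc w y)
  have T4 := Rp_com y (CAB_tc z w)
  have T5 := Rp_com z (CAB_tc w x)
  have T6 := Rp_com x (CAB_tc z w)
  have h := (((T1.add T2).add ((T3.add T4).lmul x)).add ((T5.add T6).rmul y)).add (CAB_com y T6)
  intro v K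
  refine (h v K).trans ?_
  congr 1
  simp only [vl_com, vl_mul]
  rw [cA_oc]
  abel

theorem cB_rp (x y z w u : FA F) : Rp (cB x y z w u) (fun v =>
    (tt (vl v x) * tt (vl v y)) • associator (vl v z) (vl v w) (vl v u) -
      com (vl v x) (vl v y) * associator (vl v z) (vl v w) (vl v u)) := by
  have T1 := Rp_com (x * y) (CAB_ta z w u)
  have T2 := Rp_com z (CAB_ta (x * y) w u)
  have T3 := Rp_com z (CAB_ta x w u)
  have T4 := Rp_com x (CAB_ta z w u)
  have T5 := Rp_com z (CAB_ta y w u)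
  have T6 := Rp_com y (CAB_ta z w u)
  have T7 := Rp_ass w u (CAB_tc z (com x y))
  have T8 := Rp_ass x y (CAB_tc z (com w u))
  have h := (((((T1.add T2).add ((T3.add T4).lmul y)).add ((T5.add T6).rmul x)).add T7).add T8).add
    (CAB_com x T6)
  intro v K
  refine (h v K).trans ?_
  congr 1
  simp only [vl_com, vl_mul, vl_ass]
  rw [cB_oc]
  abel

end Pool.Agent.OT
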