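import Pool.Agent.OT.RpB
import Pool.Agent.OT.O4
import Pool.Agent.OT.O5

/-!
# Two associators  (module DD2)

`t_k (a, b, c) Y`, `Y = (e, f, h) R`, with `(a, b, c) = com (a b) c + a (com b c) + (com a c) b` (characteristic 2):
`t_k com (a b) c = t(a b) com k c + com (com k (a b)) c` (`ex_c`), `t(a b) Z = t_a t_b Z + com a b Z + t_a (b Z) + t_b (a Z)` (`tt_mul2`) for
`Z = com k c * Y`; `t_a t_b Y = com a b * Y + L` (`cB_oc` times `R`, `(com a b * u) r = com a b * (u r) + associator (com a b) u r`), so
`t_a t_b Z + com a b Z = com (com k c) (com a b) * Y + com k c * L` (`mv_oc`); then `a (t_k com b c) Y = t_b (a com k c) Y + (a com (com k b) c) Y`, and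
`t_b ((a com k c) Y + a (com k c Y)) = t_b associator a (com k c) Y = associator (com b (com k c)) a Y` (`tr_ass`), and
`t_a ((com k c * b) Y + b (com k c Y)) = t_a (com (com k c) b * Y + associator b (com k c) Y)`. The formula was checked by computer.
First prove it for
octonions `k a b c e f h r` (with `cB` at `K = []` written out as in `cB_oc`), then for polynomials (the empty list `R`: `pr [] = 0`, but
`associator _ _ 0 = associator _ _ 1 = 0`).
-/

set_option autoImplicit false
set_option linter.unusedSectionVars false

namespace Pool.Agent.OT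

open FreeNonUnitalNonAssocAlgebra Pool.Agent.H.MP_41922c_al Pool.Agent.Smt Pool.Agent.OB Pool.Agent.OBX

variable {F : Type*} [Field F] [CharP F 2]

theorem DD2_ass (a b c : Oc F) : associator a b c = com (a * b) c + a * com b c + com a c * b := by
  have h := as12 c a b
  unfold associator at h ⊢
  unfold com
  rw [mul_sub, sub_mul]
  linear_combination (norm := module) h - two0 (a * (b * c)) + two0 (c * (a * b))

/-- the octonion identity -/
theorem DD2_oc (k a b c y L : Oc F) (hL : (tt a * tt b) • y = com a b * y + L) :
    tt k • (associator a b c * y) =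
      com (com k (a * b)) c * y + com (com k c) (com a b) * y + com k c * L
        + (a * com (com k b) c) * y + (com (com k a) c * b) * y
        + associator (com b (com k c)) a y + associator (com a (com k c)) b y
        + com (com a (com k c)) b * y := by
  have h1 : associator a b c * y = com (a * b) c * y + (a * com b c) * y + (com a c * b) * y := by
    rw [DD2_ass, add_mul, add_mul]
  have h2 : tt k • (com (a * b) c * y) =
      tt (a * b) • (com k c * y) + com (com k (a * b)) c * y := by
    rw [← smul_mul_assoc, ex_c, add_mul, smul_mul_assoc]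
  have h3 := tt_mul2 a b (com k c * y)
  have h4 : (tt a * tt b) • (com k c * y) = com k c * (com a b * y) + com k c * L := by
    rw [← mul_smul_comm, hL, mul_add]
  have h5 := mv_oc (com k c) (com a b) y
  have h6 : tt k • ((a * com b c) * y) =
      tt b • ((a * com k c) * y) + (a * com (com k b) c) * y := by
    rw [← smul_mul_assoc, ← mul_smul_comm, ex_c, mul_add, add_mul, mul_smul_comm, smul_mul_assoc]
  have h7 : tt k • ((com a c * b) * y) =
      tt a • ((com k c * b) * y) + (com (com k a) c * b) * y := by
    rw [← smul_mul_assoc, ← smul_mul_assoc, ex_c, add_mul, add_mul, smul_mul_assoc, smul_mul_assoc]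
  have h8 : tt b • ((a * com k c) * y - a * (com k c * y)) = associator (com b (com k c)) a y := by
    rw [← tr_ass b (com k c) a y (tt_com k c), as12 (com k c) a y]
    rfl
  have h9 : tt a • ((b * com k c) * y - b * (com k c * y)) = associator (com a (com k c)) b y := by
    rw [← tr_ass a (com k c) b y (tt_com k c), as12 (com k c) b y]
    rfl
  have h10 : tt a • ((com k c * b) * y - (b * com k c) * y) = com (com a (com k c)) b * y := by
    rw [com_comm2 (com a (com k c)) b, ← tr_com a b (com k c) (tt_com k c), com_comm2 b (com k c),
      smul_mul_assoc, ← sub_mul]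
    rfl
  rw [h1]
  linear_combination (norm := module) h2 + h3 + h4 + h5 + h6 + h7 + h8 + h9 + h10 +
    two0 (com a b * (com k c * y)) + two0 (tt a • (b * (com k c * y)))
    + two0 (tt b • (a * (com k c * y)))

theorem dd2_v (v : ℕ → Oc F) (k a b c e f h : FA F) (R : List (FA F)) :
    tt (vl v k) • (associator (vl v a) (vl v b) (vl v c) *
      (associator (vl v e) (vl v f) (vl v h) * Pv v R)) = vl v (dd2 k a b c e f h R) := by
  have hadd : ∀ x y : FA F, vl v (x + y) = vl v x + vl v y := fun x y => map_add _ x y
  have hcB : (tt (vl v a) * tt (vl v b)) • associator (vl v e) (vl v f) (vl v h) =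
      com (vl v a) (vl v b) * associator (vl v e) (vl v f) (vl v h) + vl v (cB a b e f h []) := by
    rw [cB_oc]
    congr 1
    simp only [cB, adK, List.foldr_nil, hadd, vl_mul, vl_com, vl_ass]
  set y : Oc F := associator (vl v e) (vl v f) (vl v h) * Pv v R with hy
  have hL : (tt (vl v a) * tt (vl v b)) • y = com (vl v a) (vl v b) * y +
      (associator (com (vl v a) (vl v b)) (associator (vl v e) (vl v f) (vl v h)) (Pv v R) +
        vl v (cB a b e f h []) * Pv v R) := by
    rw [hy, ← smul_mul_assoc, hcB, add_mul]
    unfold associator
    module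
  have h1 := DD2_oc (vl v k) (vl v a) (vl v b) (vl v c) y _ hL
  rw [h1]
  have hY : vl v (pr (associator e f h :: R)) = y := by
    rw [vl_pr, Pv_cons, vl_ass]
  simp only [dd2, hadd, vl_mul, vl_com, vl_ass, hY, ass_pr, vl_pr, Pv_cons]

end Pool.Agent.OT
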