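import Mathlib

/-!
# The explicit basis in characteristic 2 (all definitions)

Everything here is defined by explicit recursions, without reference to the identities of the octonions, and without
a field: a polynomial with coefficients in the field of two elements is a list of monomials, and stands for their sum
(in characteristic 2 equal monomials cancel).

`g : List ℕ → Q` represents a function `l` if `g K` has the value `t_K l` for all `K`, where `t_K` is the product of the
traces of the variables in `K`. For an element `v` of trace zero `t_k v` and `[x_k, v]` differ by a scalar; so `[a, v]` is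
represented by `[a, aK K v]`, and `(v, a, b)` by `(aK K v, a, b)`. A word `w` is written as a combination of the products
`v_1 (v_2 (.. (v_m (x_{i_1} (.. x_{i_n})))))`, `i_1 ≤ .. ≤ i_n`, where each `v_j` is a commutator or an associator of
variables, and of elements `[a, v]`, `(v, a, b)`.

A function with an argument `K` gives `t_K` times the expression in its doc string. `oneS`, `one`, `hub`, `N`, `psi` give
it only up to a sum of products `t_K (g)`, `K` not empty, and `t_k v_1 (.. (v_m (g)))`, `m ≥ 1`, where at most one `v_j` is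
an associator and `k` and the variables of `v_1, .., v_m` are strictly increasing: these products go to `0`.
-/

set_option autoImplicit false

namespace Pool.Agent.OT

/-- a commutator or an associator of variables -/
inductive Cen
  | c (i j : ℕ)
  | d (i j k : ℕ)

/-- `v` is a commutator -/
def Cen.isC : Cen → Bool
  | .c _ _ => true
  | .d _ _ _ => false

/-- the numbers of the variables -/
def Cen.vars : Cen → List ℕ
  | .c i j => [i, j]
  | .d i j k => [i, j, k]

/-- primitive recursion on lists -/
def lr {α β : Type} (z : β) (s : α → List α → β → β) : List α → β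
  | [] => z
  | a :: l => s a l (lr z s l)

/-- a list of monomials (stands for its sum) -/
abbrev Q := List (FreeMagma ℕ)

namespace Q

/-- the sum -/
def ad (a b : Q) : Q := List.append a b

/-- the product -/
def mu (a b : Q) : Q := List.flatMap (fun u => List.map (FreeMagma.mul u) b) a

/-- the commutator -/
def cm (a b : Q) : Q := ad (mu a b) (mu b a)

/-- the associator -/
def as (a b c : Q) : Q := ad (mu (mu a b) c) (mu a (mu b c))

/-- the variable `x_i` -/
def x (i : ℕ) : Q := [FreeMagma.of i]

/-- the right-nested product -/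
def pr : List Q → Q := lr [] fun a l r => lr a (fun _ _ _ => mu a r) l

/-- `[x_{k_1}, [x_{k_2}, .. v]]` -/
def aK (K : List ℕ) (v : Q) : Q := List.foldr (fun k v => cm (x k) v) v K

/-- the value of a `Cen` -/
def cv : Cen → Q
  | .c i j => cm (x i) (x j)
  | .d i j k => as (x i) (x j) (x k)

/-- the factors `v_1, .., v_m, x_{i_1}, .., x_{i_n}` -/
def fac (vs : List Cen) (g : List ℕ) : List Q := List.append (List.map cv vs) (List.map x g)

/-! ### words -/

/-- `a_1 (.. (a_n (v R))) - v (a_1 (.. (a_n R)))`, `v` of trace zero -/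
def mv (K : List ℕ) (v : Q) (R : List Q) : List Q → Q :=
  lr [] fun a l r => ad (pr (cm a (aK K v) :: List.append l R)) (mu a r)

/-- `y (v_1 (.. (v_m R))) - v_1 (.. (v_m (y R)))` -/
def mi (K : List ℕ) (y : Q) (R : List Q) : List Cen → Q :=
  lr [] fun v vs r => ad (pr (cm y (aK K (cv v)) :: List.append (List.map cv vs) R)) (mu (cv v) r)

/-- the products which arise if `x_i` is inserted into `v_1 .. v_m (l) (g)`, `g` sorted, on the right of `l` -/
def insS (i : ℕ) (vs : List Cen) : List ℕ → List ℕ → List (List Cen × List ℕ) :=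
  lr (fun l => [(vs, List.append l [i])]) fun h g r l =>
    if i ≤ h then [(vs, List.append l (i :: h :: g))] else (.c i h :: vs, List.append l g) :: r (List.append l [h])

/-- the other terms -/
def insR (K : List ℕ) (i : ℕ) (vs : List Cen) : List ℕ → List ℕ → Q :=
  lr (fun _ => []) fun h g r l =>
    if i ≤ h then [] else ad (mv K (cv (.c i h)) (List.map x g) (fac vs l)) (r (List.append l [h]))

/-- `(a b, c, R) - a (b, c, R) - b (a, c, R)` -/
def a3 (K : List ℕ) (a b c R : Q) : Q :=
  ad (cm a (aK K (as b c R))) (ad (as (aK K (cm a b)) c R) (as (aK K (cm c R)) a b))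

/-- `(s R, a, b) - s (R, a, b) - (s, a, b) R` -/
def b4 (K : List ℕ) (a b s R : Q) : Q :=
  ad (as (aK K (cm s R)) a b) (ad (as (aK K (cm a b)) s R) (ad (cm s (aK K (as R a b))) (cm R (aK K (as s a b)))))

/-- the products in `(x_i, x_j, v_1 .. v_m (l) (g))` which take the third argument out of `g` -/
def basS (i j : ℕ) (vs : List Cen) : List ℕ → List ℕ → List (List Cen × List ℕ) :=
  lr (fun _ => []) fun k g r l => (.d i j k :: vs, List.append l g) :: r (List.append l [k])

/-- the other terms of `l ((x_i, x_j, g))` -/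
def basR (K : List ℕ) (i j : ℕ) : List ℕ → List Q → Q :=
  lr (fun _ => []) fun k g r l =>
    ad (pr (List.append l [b4 K (x i) (x j) (x k) (pr (List.map x g))]))
      (ad (mv K (cv (.d i j k)) (List.map x g) l) (r (List.append l [x k])))

/-- the other terms of `l ((x_i, x_j, v_1 .. v_m (g)))` -/
def basT (K : List ℕ) (i j : ℕ) (g : List ℕ) : List Cen → List Q → Q :=
  lr (basR K i j g) fun v vs r l =>
    ad (pr (List.append l [b4 K (x i) (x j) (cv v) (pr (fac vs g))]))
      (ad (pr (List.append l (as (aK K (cv v)) (x i) (x j) :: fac vs g))) (r (List.append l [cv v])))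

/-- `u_n (.. (u_1 p))` -/
def ctx (us : List (FreeMagma ℕ)) (p : Q) : Q := List.foldl (fun f u => mu [u] f) p us

/-! ### products of traces with `v_1 .. v_m (g)` -/

/-- `t_a t_b [z, w] - [a, b] [z, w] - t_z (a, b, w)` -/
def cA (K : List ℕ) (a b z w : Q) : Q :=
  ad (cm (mu a b) (aK K (cm z w))) (ad (cm z (aK K (cm w (mu a b))))
    (ad (mu a (ad (cm z (aK K (cm w b))) (cm b (aK K (cm z w)))))
      (ad (mu (ad (cm z (aK K (cm w a))) (cm a (aK K (cm z w)))) b) (cm b (cm a (aK K (cm z w)))))))

/-- `t_a t_b (z, w, v) - [a, b] (z, w, v)` -/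
def cB (K : List ℕ) (a b z w v : Q) : Q :=
  ad (cm (mu a b) (aK K (as z w v))) (ad (cm z (aK K (as (mu a b) w v)))
    (ad (mu b (ad (cm z (aK K (as a w v))) (cm a (aK K (as z w v)))))
      (ad (mu (ad (cm z (aK K (as b w v))) (cm b (aK K (as z w v)))) a)
        (ad (as (aK K (cm z (cm a b))) w v) (ad (as (aK K (cm z (cm w v))) a b)
          (cm a (cm b (aK K (as z w v)))))))))

/-- the list `[x_i, x_j], [x_k, x_l], ..`; `o` is a first variable -/
def prs (l : List ℕ) : Option ℕ → List Cen :=
  lr (fun _ => []) (fun a _ r o => Option.elim o (r (some a)) fun i => .c i a :: r none) l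

/-- `[x_i, x_j] ([x_k, x_l] (.. f(x_m) ([x_n, x_o] (.. g))))`, where `f(x_m)` is the first factor which does not lie in
the list before `q` -/
def cut1 (f : ℕ → Q) (g q : List ℕ) (l : List ℕ) : Option ℕ → Q :=
  lr (fun o => lr [] (fun y m _ => pr (f y :: fac (prs m none) g)) (List.append (Option.toList o) q))
    (fun a _ r o => Option.elim o (r (some a)) fun i => mu (cm (x i) (x a)) (r none)) l

/-- the same; if `b`, the first factor is an associator; `f` and `h` give the factor which is changed -/
def cut (f : ℕ → Q) (h : ℕ → ℕ → Q) (b : Bool) (g q l : List ℕ) : Q :=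
  cond b (match l with
    | i :: j :: k :: m => mu (as (x i) (x j) (x k)) (cut1 f g q m none)
    | _ => match List.append l q with
      | i :: j :: m => pr (h i j :: fac (prs m none) g)
      | _ => []) (cut1 f g q l none)

/-- `t_k P(l, y, q) - t_y P(l, k, q)`, where `P(i, j, ..)` is `[x_i, x_j] (..)`, or `P(i, j, k, ..)` is
`(x_i, x_j, x_k) (..)` if `b` -/
def ex (b : Bool) (g : List ℕ) (k : ℕ) (l : List ℕ) (y : ℕ) (q : List ℕ) : Q :=
  cut (fun j => cm (cm (x k) (x y)) (x j)) (fun i j => as (cm (x k) (x y)) (x i) (x j)) b g q l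

/-- `t_y P(l, y, q)` -/
def eq (b : Bool) (g : List ℕ) (y : ℕ) (l q : List ℕ) : Q :=
  cut (fun j => cm (x y) (cm (x y) (x j))) (fun i j => cm (x y) (as (x y) (x i) (x j))) b g q l

/-- `T(p, y, z, q) - T(p, z, y, q)`, where `T(k, l) = t_k P(l)` -/
def swp (b : Bool) (g : List ℕ) (p : List ℕ) (y z : ℕ) (q : List ℕ) : Q :=
  lr (ex b g y [] z q) (fun k p _ => ad (ex b g k p y (z :: q))
    (ad (ex b g y (List.append p [k]) z q) (ex b g z p k (y :: q)))) p

/-- insertion of `y` into a sorted list, on the right of `p` -/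
def sIn (b : Bool) (g : List ℕ) (y : ℕ) : List ℕ → List ℕ → Q :=
  lr (fun _ => []) fun z q r p => if y ≤ z then [] else ad (swp b g p y z q) (r (List.append p [z]))

/-- sorting -/
def sSo (b : Bool) (g : List ℕ) : List ℕ → List ℕ → Q :=
  lr (fun _ => []) fun y s r p => ad (r (List.append p [y])) (sIn b g y (s.insertionSort (· ≤ ·)) p)

/-- `T(p, y, y, q)` -/
def eqT (b : Bool) (g : List ℕ) (p : List ℕ) (y : ℕ) (q : List ℕ) : Q :=
  lr (eq b g y [] q) (fun k p _ => ad (ex b g k p y (y :: q)) (eq b g y (List.append p [k]) q)) p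

/-- `T(p, s)` if there are equal neighbours in the list `s`, and `0` otherwise -/
def dup (b : Bool) (g : List ℕ) : List ℕ → List ℕ → Q :=
  lr (fun _ => []) fun y s r p =>
    lr [] (fun z q _ => if y = z then eqT b g p y q else r (List.append p [y])) s

/-- `t_k v_1 (.. (v_m (g)))` for at most one associator, `l` the list of all the variables of `v_1, .., v_m` -/
def oneS (b : Bool) (g : List ℕ) (k : ℕ) (l : List ℕ) : Q :=
  ad (sSo b g (k :: l) []) (dup b g ((k :: l).insertionSort (· ≤ ·)) [])

/-- `t_k (a, b, c) (v R)` for the associator `v = (e, f, h)` -/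
def dd2 (k a b c e f h : Q) (R : List Q) : Q :=
  let v := as e f h
  let Y := pr (v :: R)
  let L := ad (as (cm a b) v (pr R)) (pr (cB [] a b e f h :: R))
  ad (mu (cm (cm k (mu a b)) c) Y) (ad (mu (cm (cm k c) (cm a b)) Y) (ad (mu (cm k c) L)
    (ad (mu (mu a (cm (cm k b) c)) Y) (ad (mu (mu (cm (cm k a) c) b) Y)
      (ad (as (cm b (cm k c)) a Y) (ad (as (cm a (cm k c)) b Y) (mu (cm (cm a (cm k c)) b) Y)))))))

/-- `s us a b c ws` if `vs` consists of commutators `us`, the associator `(a, b, c)` and the list `ws`, and `z` if there is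
no associator in `vs` -/
def fst (z : Q) (s : List Cen → ℕ → ℕ → ℕ → List Cen → Q) (vs : List Cen) : Q :=
  match vs.dropWhile Cen.isC with
  | .d a b c :: ws => s (vs.takeWhile Cen.isC) a b c ws
  | _ => z

/-- `t_k v_1 (.. (v_m (g)))`, `m ≥ 1` -/
def one (k : ℕ) (vs : List Cen) (g : List ℕ) : Q :=
  fst (oneS false g k (vs.flatMap Cen.vars)) (fun us a b c ws =>
    ad (mv [k] (cv (.d a b c)) (fac ws g) (List.map cv us))
      (fst (oneS true g k (a :: b :: c :: (List.append us ws).flatMap Cen.vars)) (fun us' e f h ws' =>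
        ad (mu (cv (.d a b c)) (mv [k] (cv (.d e f h)) (fac ws' g) (List.map cv us')))
          (dd2 (x k) (x a) (x b) (x c) (x e) (x f) (x h) (fac (List.append us' ws') g))) (List.append us ws))) vs

/-- one step of `hub` -/
def hubS (g : List ℕ) (r : List ℕ → List Cen → Q) : List ℕ → List Cen → Q
  | [], vs => pr (fac vs g)
  | _ :: _, [] => []
  | [k], v :: vs => one k (v :: vs) g
  | a :: b :: K, .c z w :: vs => ad (r K (.c a b :: .c z w :: vs)) (ad (r (z :: K) (.d a b w :: vs))
      (ad (as (aK K (cm (x a) (x b))) (cv (.c z w)) (pr (fac vs g))) (pr (cA K (x a) (x b) (x z) (x w) :: fac vs g))))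
  | a :: b :: K, .d z w v :: vs => ad (r K (.c a b :: .d z w v :: vs))
      (ad (as (aK K (cm (x a) (x b))) (cv (.d z w v)) (pr (fac vs g)))
        (pr (cB K (x a) (x b) (x z) (x w) (x v) :: fac vs g)))

/-- `t_K v_1 (.. (v_m (g)))` -/
def hub (g : List ℕ) (K : List ℕ) (vs : List Cen) : Q :=
  Nat.iterate (hubS g) (K.length + 1) (fun _ _ => []) K vs

/-! ### the reduction of words -/

/-- one step of `N` -/
def NS (K : List ℕ) (r : List (FreeMagma ℕ) → Option (FreeMagma ℕ × FreeMagma ℕ) → List Cen → List ℕ → Q)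
    (us : List (FreeMagma ℕ)) (o : Option (FreeMagma ℕ × FreeMagma ℕ)) (vs : List Cen) (g : List ℕ) : Q :=
  match o, us with
  | none, [] => hub g K vs
  | none, .of i :: us => ad ((insS i vs g []).flatMap fun s => r us none s.1 s.2)
      (ctx us (ad (mi K (x i) (List.map x g) vs) (insR K i vs g [])))
  | none, .mul a b :: us => ad (r (b :: a :: us) none vs g) (r us (some (a, b)) vs g)
  | some (.mul a b, c), us => ad (r (a :: us) (some (b, c)) vs g) (ad (r (b :: us) (some (a, c)) vs g)
      (ctx us (a3 K [a] [b] [c] (pr (fac vs g)))))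
  | some (.of i, .mul b c), us => ad (r (b :: us) (some (.of i, c)) vs g) (ad (r (c :: us) (some (.of i, b)) vs g)
      (ctx us (a3 K [b] [c] [.of i] (pr (fac vs g)))))
  | some (.of i, .of j), us => ad ((basS i j vs g []).flatMap fun s => r us none s.1 s.2)
      (ctx us (basT K i j g vs []))

/-- `t_K u_n (.. (u_1 (v_1 .. v_m (g))))`, and `t_K u_n (.. (u_1 ((a, b, v_1 .. v_m (g)))))` if `o = some (a, b)`;
`n` bounds the number of steps -/
def N (K : List ℕ) (n : ℕ) : List (FreeMagma ℕ) → Option (FreeMagma ℕ × FreeMagma ℕ) → List Cen → List ℕ → Q :=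
  Nat.iterate (NS K) n (fun _ _ _ _ => [])

/-- the factors `u_n, .., u_1` and the last letter `i` of a word `u_n (.. (u_1 x_i))` -/
def spl : FreeMagma ℕ → List (FreeMagma ℕ) → List (FreeMagma ℕ) × ℕ
  | .of i, us => (us, i)
  | .mul a b, us => spl b (a :: us)

/-! ### words with letters `x_i` and `t_i` -/

/-- the letters `t_i` of a word -/
def tl : FreeMagma (ℕ ⊕ ℕ) → List ℕ
  | .of (.inl _) => []
  | .of (.inr i) => [i]
  | .mul u v => tl u ++ tl v

/-- the word without the letters `t_i` -/
def xl : FreeMagma (ℕ ⊕ ℕ) → Option (FreeMagma ℕ)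
  | .of (.inl i) => some (.of i)
  | .of (.inr _) => none
  | .mul u v => match xl u, xl v with
    | none, b => b
    | some a, none => some a
    | some a, some b => some (.mul a b)

/-- a polynomial without `t_i` for a word: the word itself if it has no `t_i` (`0` if the word has no letter `x_i`) -/
def psi (w : FreeMagma (ℕ ⊕ ℕ)) : Q :=
  Option.elim (xl w) [] fun u => lr [u] (fun k K _ =>
    N (k :: K) (2 * u.length) (spl u []).1 none [] [(spl u []).2]) (tl w)

/-- the involution with `x_i ↦ t_i + x_i`, `t_i ↦ t_i` -/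
def iv : FreeMagma (ℕ ⊕ ℕ) → List (FreeMagma (ℕ ⊕ ℕ))
  | .of (.inl i) => [.of (.inr i), .of (.inl i)]
  | .of (.inr i) => [.of (.inr i)]
  | .mul u v => (iv v).flatMap fun b => (iv u).map fun a => .mul b a

/-- the instances, for words `u`, `v`, `w`, of the laws of the alternative algebras with involution with central and
nuclear `u + u*`, `u u*`, and their products with words (the linearised laws for `u u*` follow, since `u v* + v u*` is the
trace of `u v*`); a list stands for its sum in characteristic 2 -/
inductive Law : List (FreeMagma (ℕ ⊕ ℕ)) → Prop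
  | altL (u v : FreeMagma (ℕ ⊕ ℕ)) : Law [.mul (.mul u u) v, .mul u (.mul u v)]
  | altR (u v : FreeMagma (ℕ ⊕ ℕ)) : Law [.mul (.mul v u) u, .mul v (.mul u u)]
  | altL' (u v w : FreeMagma (ℕ ⊕ ℕ)) :
      Law [.mul (.mul u v) w, .mul u (.mul v w), .mul (.mul v u) w, .mul v (.mul u w)]
  | altR' (u v w : FreeMagma (ℕ ⊕ ℕ)) :
      Law [.mul (.mul w u) v, .mul w (.mul u v), .mul (.mul w v) u, .mul w (.mul v u)]
  | trC (u v : FreeMagma (ℕ ⊕ ℕ)) : Law ((u :: iv u).flatMap fun a => [.mul a v, .mul v a])
  | trA (u v w : FreeMagma (ℕ ⊕ ℕ)) : Law ((u :: iv u).flatMap fun a => [.mul (.mul a v) w, .mul a (.mul v w)])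
  | nC (u v : FreeMagma (ℕ ⊕ ℕ)) : Law ((iv u).flatMap fun a => [.mul (.mul u a) v, .mul v (.mul u a)])
  | nA (u v w : FreeMagma (ℕ ⊕ ℕ)) :
      Law ((iv u).flatMap fun a => [.mul (.mul (.mul u a) v) w, .mul (.mul u a) (.mul v w)])
  | left (u : FreeMagma (ℕ ⊕ ℕ)) (l : List (FreeMagma (ℕ ⊕ ℕ))) : Law l → Law (l.map fun a => .mul u a)
  | right (u : FreeMagma (ℕ ⊕ ℕ)) (l : List (FreeMagma (ℕ ⊕ ℕ))) : Law l → Law (l.map fun a => .mul a u)

end Q

end Pool.Agent.OT
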