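import Pool.Agent.OT.Def

/-!
# The compact definitions: words  (module DcA)

`evQ F` maps the definitions of `Dc` to those of `Def` if `2 = 0` in `F`.
-/

set_option autoImplicit false
set_option linter.unusedSectionVars false

namespace Pool.Agent.OT

open FreeNonUnitalNonAssocAlgebra Pool.Agent.H.MP_41922c_al Pool.Agent.OB Pool.Agent.OBX

variable {F : Type*} [Field F]

theorem ng (h2 : (2 : F) = 0) (a : FA F) : -a = a := by
  have h : (2 : F) • a = 0 := by rw [h2, zero_smul]
  rw [two_smul] at h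
  exact neg_eq_of_add_eq_zero_left h

theorem com_two (h2 : (2 : F) = 0) (a b : FA F) : com a b = a * b + b * a := by
  unfold com
  rw [sub_eq_add_neg, ng h2]

theorem asc_two (h2 : (2 : F) = 0) (a b c : FA F) : associator a b c = a * b * c + a * (b * c) := by
  rw [associator_apply, sub_eq_add_neg, ng h2]

theorem ev_nil : evQ F [] = 0 := rfl

theorem ev_cons (u : FreeMagma ℕ) (q : Q) : evQ F (u :: q) = mo F u + evQ F q := by
  simp [evQ]

theorem ev_append (a b : Q) : evQ F (a ++ b) = evQ F a + evQ F b := by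
  simp [evQ]

theorem ev_ad (a b : Q) : evQ F (Q.ad a b) = evQ F a + evQ F b := ev_append a b

theorem ev_one_word (u : FreeMagma ℕ) : evQ F [u] = mo F u := by
  simp [evQ]

theorem ev_map_mul (u : FreeMagma ℕ) (b : Q) : evQ F (b.map (FreeMagma.mul u)) = mo F u * evQ F b := by
  induction b with
  | nil => simp [evQ]
  | cons w b ih => rw [List.map_cons, ev_cons, ev_cons, ih, mul_add]; rfl

theorem ev_mu (a b : Q) : evQ F (Q.mu a b) = evQ F a * evQ F b := by
  induction a with
  | nil => simp [evQ, Q.mu]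
  | cons w a ih =>
    have : Q.mu (w :: a) b = b.map (FreeMagma.mul w) ++ Q.mu a b := by simp [Q.mu]
    rw [this, ev_append, ev_map_mul, ih, ev_cons, add_mul]

theorem ev_cm (h2 : (2 : F) = 0) (a b : Q) : evQ F (Q.cm a b) = com (evQ F a) (evQ F b) := by
  rw [com_two h2, Q.cm, ev_ad, ev_mu, ev_mu]

theorem ev_as (h2 : (2 : F) = 0) (a b c : Q) :
    evQ F (Q.as a b c) = associator (evQ F a) (evQ F b) (evQ F c) := by
  rw [asc_two h2, Q.as, ev_ad, ev_mu, ev_mu, ev_mu, ev_mu]

theorem ev_x (i : ℕ) : evQ F (Q.x i) = of F i := ev_one_word _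

theorem ev_pr (l : List Q) : evQ F (Q.pr l) = pr (l.map (evQ F)) := by
  induction l with
  | nil => rfl
  | cons a l ih =>
    cases l with
    | nil => rfl
    | cons b l =>
      have : Q.pr (a :: b :: l) = Q.mu a (Q.pr (b :: l)) := rfl
      rw [this, ev_mu, ih]; rfl

theorem ev_aK (h2 : (2 : F) = 0) (K : List ℕ) (v : Q) : evQ F (Q.aK K v) = adK K (evQ F v) := by
  induction K with
  | nil => rfl
  | cons k K ih =>
    have : Q.aK (k :: K) v = Q.cm (Q.x k) (Q.aK K v) := rfl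
    rw [this, ev_cm h2, ih, ev_x]; rfl

theorem ev_cv (h2 : (2 : F) = 0) (v : Cen) : evQ F (Q.cv v) = cv F v := by
  cases v <;> simp [Q.cv, cv, ev_cm h2, ev_as h2, ev_x]

theorem map_x (g : List ℕ) : (g.map Q.x).map (evQ F) = g.map (of F) := by
  simp [ev_x]

theorem map_cv (h2 : (2 : F) = 0) (vs : List Cen) : (vs.map Q.cv).map (evQ F) = vs.map (cv F) := by
  simp [ev_cv h2]

theorem map_fac (h2 : (2 : F) = 0) (vs : List Cen) (g : List ℕ) :
    (Q.fac vs g).map (evQ F) = fac F vs g := by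
  have : Q.fac vs g = vs.map Q.cv ++ g.map Q.x := rfl
  rw [this, List.map_append, map_cv h2, map_x]; rfl

theorem ev_mv (h2 : (2 : F) = 0) (K : List ℕ) (v : Q) (R l : List Q) :
    evQ F (Q.mv K v R l) = mv (l.map (evQ F)) (evQ F v) (R.map (evQ F)) K := by
  induction l with
  | nil => rfl
  | cons a l ih =>
    have : Q.mv K v R (a :: l) =
      Q.ad (Q.pr (Q.cm a (Q.aK K v) :: (l ++ R))) (Q.mu a (Q.mv K v R l)) := rfl
    rw [this, ev_ad, ev_mu, ih, ev_pr, List.map_cons, List.map_append, ev_cm h2, ev_aK h2]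
    rfl

theorem ev_mi (h2 : (2 : F) = 0) (K : List ℕ) (y : Q) (R : List Q) (vs : List Cen) :
    evQ F (Q.mi K y R vs) = mi (evQ F y) vs (R.map (evQ F)) K := by
  induction vs with
  | nil => rfl
  | cons v vs ih =>
    have : Q.mi K y R (v :: vs) =
      Q.ad (Q.pr (Q.cm y (Q.aK K (Q.cv v)) :: (vs.map Q.cv ++ R))) (Q.mu (Q.cv v) (Q.mi K y R vs)) := rfl
    rw [this, ev_ad, ev_mu, ih, ev_pr, List.map_cons, List.map_append, ev_cm h2, ev_aK h2, ev_cv h2,
      map_cv h2]
    rfl

theorem insS_eq (i : ℕ) (vs : List Cen) (g l : List ℕ) : Q.insS i vs g l = insS i vs l g := by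
  induction g generalizing l with
  | nil => rfl
  | cons h g ih =>
    have : Q.insS i vs (h :: g) l =
      if i ≤ h then [(vs, l ++ (i :: h :: g))] else (.c i h :: vs, l ++ g) :: Q.insS i vs g (l ++ [h]) := rfl
    rw [this, insS, ih]

theorem ev_insR (h2 : (2 : F) = 0) (K : List ℕ) (i : ℕ) (vs : List Cen) (g l : List ℕ) :
    evQ F (Q.insR K i vs g l) = insR i vs l g K := by
  induction g generalizing l with
  | nil => rfl
  | cons h g ih =>
    have : Q.insR K i vs (h :: g) l =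
      if i ≤ h then [] else Q.ad (Q.mv K (Q.cv (.c i h)) (g.map Q.x) (Q.fac vs l)) (Q.insR K i vs g (l ++ [h])) := rfl
    rw [this, insR]
    split
    · rfl
    · rw [ev_ad, ih, ev_mv h2, map_x, map_fac h2, ev_cv h2]; rfl

theorem ev_a3 (h2 : (2 : F) = 0) (K : List ℕ) (a b c R : Q) :
    evQ F (Q.a3 K a b c R) = a3 (evQ F a) (evQ F b) (evQ F c) (evQ F R) K := by
  simp only [Q.a3, a3, ev_ad, ev_cm h2, ev_as h2, ev_aK h2]
  abel

theorem ev_b4 (h2 : (2 : F) = 0) (K : List ℕ) (a b c R : Q) :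
    evQ F (Q.b4 K a b c R) = b4 (evQ F a) (evQ F b) (evQ F c) (evQ F R) K := by
  simp only [Q.b4, b4, ev_ad, ev_cm h2, ev_as h2, ev_aK h2]
  abel

theorem basS_eq (i j : ℕ) (vs : List Cen) (g l : List ℕ) : Q.basS i j vs g l = basS i j vs l g := by
  induction g generalizing l with
  | nil => rfl
  | cons h g ih =>
    have : Q.basS i j vs (h :: g) l = (.d i j h :: vs, l ++ g) :: Q.basS i j vs g (l ++ [h]) := rfl
    rw [this, basS, ih]

theorem ev_basR (h2 : (2 : F) = 0) (K : List ℕ) (i j : ℕ) (g : List ℕ) (l : List Q) :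
    evQ F (Q.basR K i j g l) = basR i j (l.map (evQ F)) [] g K := by
  induction g generalizing l with
  | nil => simp [Q.basR, lr, basR, ev_nil]
  | cons k g ih =>
    have : Q.basR K i j (k :: g) l =
      Q.ad (Q.pr (l ++ [Q.b4 K (Q.x i) (Q.x j) (Q.x k) (Q.pr (g.map Q.x))]))
      (Q.ad (Q.mv K (Q.cv (.d i j k)) (g.map Q.x) l) (Q.basR K i j g (l ++ [Q.x k]))) := rfl
    rw [this, basR, ev_ad, ev_ad, ih, ev_mv h2, ev_pr, List.map_append, List.map_append, List.map_singleton,
      List.map_singleton, ev_b4 h2, ev_x, ev_x, ev_x, ev_pr, map_x, ev_cv h2]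
    abel

theorem ev_basT (h2 : (2 : F) = 0) (K : List ℕ) (i j : ℕ) (g : List ℕ) (vs : List Cen) (l : List Q) :
    evQ F (Q.basT K i j g vs l) = basR i j (l.map (evQ F)) vs g K := by
  induction vs generalizing l with
  | nil => exact ev_basR h2 K i j g l
  | cons v vs ih =>
    have : Q.basT K i j g (v :: vs) l =
      Q.ad (Q.pr (l ++ [Q.b4 K (Q.x i) (Q.x j) (Q.cv v) (Q.pr (Q.fac vs g))]))
      (Q.ad (Q.pr (l ++ (Q.as (Q.aK K (Q.cv v)) (Q.x i) (Q.x j) :: Q.fac vs g)))
        (Q.basT K i j g vs (l ++ [Q.cv v]))) := rfl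
    rw [this, basR, ev_ad, ev_ad, ih, ev_pr, ev_pr, List.map_append, List.map_append, List.map_append,
      List.map_singleton, List.map_cons, List.map_singleton, ev_b4 h2, ev_as h2, ev_x, ev_x, ev_pr, map_fac h2,
      ev_aK h2, ev_cv h2]
    abel

theorem ev_ctx (us : List (FreeMagma ℕ)) (p : Q) :
    evQ F (Q.ctx us p) = us.foldl (fun f u => mo F u * f) (evQ F p) := by
  induction us generalizing p with
  | nil => rfl
  | cons u us ih =>
    have : Q.ctx (u :: us) p = Q.ctx us (Q.mu [u] p) := rfl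
    rw [this, ih, ev_mu, ev_one_word]; rfl

theorem ev_cA (h2 : (2 : F) = 0) (K : List ℕ) (a b z w : Q) :
    evQ F (Q.cA K a b z w) = cA (evQ F a) (evQ F b) (evQ F z) (evQ F w) K := by
  simp only [Q.cA, cA, ev_ad, ev_mu, ev_cm h2, ev_as h2, ev_aK h2]
  abel

theorem ev_cB (h2 : (2 : F) = 0) (K : List ℕ) (a b z w v : Q) :
    evQ F (Q.cB K a b z w v) = cB (evQ F a) (evQ F b) (evQ F z) (evQ F w) (evQ F v) K := by
  simp only [Q.cB, cB, ev_ad, ev_mu, ev_cm h2, ev_as h2, ev_aK h2]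
  abel

end Pool.Agent.OT
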