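import Pool.Agent.OT.DcA

/-!
# The compact definitions: one trace  (module DcB)
-/

set_option autoImplicit false
set_option linter.unusedSectionVars false

namespace Pool.Agent.OT

open FreeNonUnitalNonAssocAlgebra Pool.Agent.H.MP_41922c_al Pool.Agent.OB Pool.Agent.OBX

variable {F : Type*} [Field F]

theorem prs_eq : ∀ l : List ℕ, Q.prs l none = prs l
  | [] => rfl
  | [_] => rfl
  | i :: j :: l => by
    have : Q.prs (i :: j :: l) none = .c i j :: Q.prs l none := rfl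
    rw [this, prs_eq l]; rfl

theorem com_symm (h2 : (2 : F) = 0) (a b : FA F) : com a b = com b a := by
  rw [com_two h2, com_two h2, add_comm]

theorem ev_pf (h2 : (2 : F) = 0) (p : Q) (q g : List ℕ) :
    evQ F (Q.pr (p :: Q.fac (Q.prs q none) g)) = pr (evQ F p :: fac F (prs q) g) := by
  rw [ev_pr, List.map_cons, map_fac h2, prs_eq]

theorem ev_exc (h2 : (2 : F) = 0) (g : List ℕ) (k y : ℕ) : ∀ l q : List ℕ,
    evQ F (Q.cut1 (fun j => Q.cm (Q.cm (Q.x k) (Q.x y)) (Q.x j)) g q l none) = exc g k l y q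
  | [], [] => rfl
  | [], j :: q => by
    have : Q.cut1 (fun j => Q.cm (Q.cm (Q.x k) (Q.x y)) (Q.x j)) g (j :: q) [] none =
      Q.pr (Q.cm (Q.cm (Q.x k) (Q.x y)) (Q.x j) :: Q.fac (Q.prs q none) g) := rfl
    rw [this, ev_pf h2, ev_cm h2, ev_cm h2, ev_x, ev_x, ev_x]; rfl
  | [i], q => by
    have : Q.cut1 (fun j => Q.cm (Q.cm (Q.x k) (Q.x y)) (Q.x j)) g q [i] none =
      Q.pr (Q.cm (Q.cm (Q.x k) (Q.x y)) (Q.x i) :: Q.fac (Q.prs q none) g) := rfl
    rw [this, ev_pf h2, ev_cm h2, ev_cm h2, ev_x, ev_x, ev_x, exc]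
  | i :: j :: l, q => by
    have : Q.cut1 (fun j => Q.cm (Q.cm (Q.x k) (Q.x y)) (Q.x j)) g q (i :: j :: l) none =
      Q.mu (Q.cm (Q.x i) (Q.x j))
        (Q.cut1 (fun j => Q.cm (Q.cm (Q.x k) (Q.x y)) (Q.x j)) g q l none) := rfl
    rw [this, ev_mu, ev_exc h2 g k y l q, ev_cm h2, ev_x, ev_x, exc]

theorem ev_eqc (h2 : (2 : F) = 0) (g : List ℕ) (y : ℕ) : ∀ l q : List ℕ,
    evQ F (Q.cut1 (fun j => Q.cm (Q.x y) (Q.cm (Q.x y) (Q.x j))) g q l none) = eqc g y l q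
  | [], [] => rfl
  | [], j :: q => by
    have : Q.cut1 (fun j => Q.cm (Q.x y) (Q.cm (Q.x y) (Q.x j))) g (j :: q) [] none =
      Q.pr (Q.cm (Q.x y) (Q.cm (Q.x y) (Q.x j)) :: Q.fac (Q.prs q none) g) := rfl
    rw [this, ev_pf h2, ev_cm h2, ev_cm h2, ev_x, ev_x]; rfl
  | [i], q => by
    have : Q.cut1 (fun j => Q.cm (Q.x y) (Q.cm (Q.x y) (Q.x j))) g q [i] none =
      Q.pr (Q.cm (Q.x y) (Q.cm (Q.x y) (Q.x i)) :: Q.fac (Q.prs q none) g) := rfl
    rw [this, ev_pf h2, ev_cm h2, ev_cm h2, ev_x, ev_x, eqc, com_symm h2 (of F i) (of F y)]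
  | i :: j :: l, q => by
    have : Q.cut1 (fun j => Q.cm (Q.x y) (Q.cm (Q.x y) (Q.x j))) g q (i :: j :: l) none =
      Q.mu (Q.cm (Q.x i) (Q.x j))
        (Q.cut1 (fun j => Q.cm (Q.x y) (Q.cm (Q.x y) (Q.x j))) g q l none) := rfl
    rw [this, ev_mu, ev_eqc h2 g y l q, ev_cm h2, ev_x, ev_x, eqc]

theorem ev_ex (h2 : (2 : F) = 0) (b : Bool) (g : List ℕ) (k : ℕ) (l : List ℕ) (y : ℕ) (q : List ℕ) :
    evQ F (Q.ex b g k l y q) = ex b g k l y q := by
  cases b with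
  | false => exact ev_exc h2 g k y l q
  | true =>
    match l, q with
    | [], [] => simp [Q.ex, Q.cut, ex, exd, ev_nil]
    | [], [i] => simp [Q.ex, Q.cut, ex, exd, ev_nil]
    | [], i :: j :: q =>
      have : Q.ex true g k [] y (i :: j :: q) =
        Q.pr (Q.as (Q.cm (Q.x k) (Q.x y)) (Q.x i) (Q.x j) :: Q.fac (Q.prs q none) g) := rfl
      rw [this, ev_pf h2, ev_as h2, ev_cm h2, ev_x, ev_x, ev_x, ev_x]; rfl
    | [i], [] => simp [Q.ex, Q.cut, ex, exd, ev_nil]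
    | [i], j :: q =>
      have : Q.ex true g k [i] y (j :: q) =
        Q.pr (Q.as (Q.cm (Q.x k) (Q.x y)) (Q.x i) (Q.x j) :: Q.fac (Q.prs q none) g) := rfl
      rw [this, ev_pf h2, ev_as h2, ev_cm h2, ev_x, ev_x, ev_x, ev_x]; rfl
    | [i, j], q =>
      have : Q.ex true g k [i, j] y q =
        Q.pr (Q.as (Q.cm (Q.x k) (Q.x y)) (Q.x i) (Q.x j) :: Q.fac (Q.prs q none) g) := rfl
      rw [this, ev_pf h2, ev_as h2, ev_cm h2, ev_x, ev_x, ev_x, ev_x, ex, if_pos rfl, exd]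
    | i :: j :: m :: l, q =>
      have : Q.ex true g k (i :: j :: m :: l) y q = Q.mu (Q.as (Q.x i) (Q.x j) (Q.x m))
        (Q.cut1 (fun j => Q.cm (Q.cm (Q.x k) (Q.x y)) (Q.x j)) g q l none) := rfl
      rw [this, ev_mu, ev_exc h2, ev_as h2, ev_x, ev_x, ev_x, ex, if_pos rfl, exd]

theorem ev_eq (h2 : (2 : F) = 0) (b : Bool) (g : List ℕ) (y : ℕ) (l q : List ℕ) :
    evQ F (Q.eq b g y l q) = if b then eqd g y l q else eqc g y l q := by
  cases b with
  | false => exact ev_eqc h2 g y l q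
  | true =>
    rw [if_pos rfl]
    match l, q with
    | [], [] => simp [Q.eq, Q.cut, eqd, ev_nil]
    | [], [i] => simp [Q.eq, Q.cut, eqd, ev_nil]
    | [], i :: j :: q =>
      have : Q.eq true g y [] (i :: j :: q) =
        Q.pr (Q.cm (Q.x y) (Q.as (Q.x y) (Q.x i) (Q.x j)) :: Q.fac (Q.prs q none) g) := rfl
      rw [this, ev_pf h2, ev_cm h2, ev_as h2, ev_x, ev_x, ev_x]; rfl
    | [i], [] => simp [Q.eq, Q.cut, eqd, ev_nil]
    | [i], j :: q =>
      have : Q.eq true g y [i] (j :: q) =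
        Q.pr (Q.cm (Q.x y) (Q.as (Q.x y) (Q.x i) (Q.x j)) :: Q.fac (Q.prs q none) g) := rfl
      rw [this, ev_pf h2, ev_cm h2, ev_as h2, ev_x, ev_x, ev_x]; rfl
    | [i, j], q =>
      have : Q.eq true g y [i, j] q =
        Q.pr (Q.cm (Q.x y) (Q.as (Q.x y) (Q.x i) (Q.x j)) :: Q.fac (Q.prs q none) g) := rfl
      rw [this, ev_pf h2, ev_cm h2, ev_as h2, ev_x, ev_x, ev_x, eqd]
    | i :: j :: m :: l, q =>
      have : Q.eq true g y (i :: j :: m :: l) q = Q.mu (Q.as (Q.x i) (Q.x j) (Q.x m))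
        (Q.cut1 (fun j => Q.cm (Q.x y) (Q.cm (Q.x y) (Q.x j))) g q l none) := rfl
      rw [this, ev_mu, ev_eqc h2, ev_as h2, ev_x, ev_x, ev_x, eqd]

theorem ev_swp (h2 : (2 : F) = 0) (b : Bool) (g p : List ℕ) (y z : ℕ) (q : List ℕ) :
    evQ F (Q.swp b g p y z q) = swp b g p y z q := by
  cases p with
  | nil => exact ev_ex h2 b g y [] z q
  | cons k p =>
    have : Q.swp b g (k :: p) y z q = Q.ad (Q.ex b g k p y (z :: q))
      (Q.ad (Q.ex b g y (p ++ [k]) z q) (Q.ex b g z p k (y :: q))) := rfl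
    rw [this, ev_ad, ev_ad, ev_ex h2, ev_ex h2, ev_ex h2, swp, add_assoc]

theorem ev_sIn (h2 : (2 : F) = 0) (b : Bool) (g : List ℕ) (y : ℕ) (q p : List ℕ) :
    evQ F (Q.sIn b g y q p) = sIn b g p y q := by
  induction q generalizing p with
  | nil => rfl
  | cons z q ih =>
    have : Q.sIn b g y (z :: q) p =
      if y ≤ z then [] else Q.ad (Q.swp b g p y z q) (Q.sIn b g y q (p ++ [z])) := rfl
    rw [this, sIn]
    split
    · rfl
    · rw [ev_ad, ev_swp h2, ih]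

theorem ev_sSo (h2 : (2 : F) = 0) (b : Bool) (g : List ℕ) (s p : List ℕ) :
    evQ F (Q.sSo b g s p) = sSo b g p s := by
  induction s generalizing p with
  | nil => rfl
  | cons y s ih =>
    have : Q.sSo b g (y :: s) p =
      Q.ad (Q.sSo b g s (p ++ [y])) (Q.sIn b g y (s.insertionSort (· ≤ ·)) p) := rfl
    rw [this, sSo, ev_ad, ev_sIn h2, ih]

theorem ev_eqT (h2 : (2 : F) = 0) (b : Bool) (g p : List ℕ) (y : ℕ) (q : List ℕ) :
    evQ F (Q.eqT b g p y q) = eqT b g p y q := by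
  cases p with
  | nil => exact ev_eq h2 b g y [] q
  | cons k p =>
    have : Q.eqT b g (k :: p) y q =
      Q.ad (Q.ex b g k p y (y :: q)) (Q.eq b g y (p ++ [k]) q) := rfl
    rw [this, ev_ad, ev_ex h2, ev_eq h2, eqT]

theorem ev_dup (h2 : (2 : F) = 0) (b : Bool) (g : List ℕ) (s p : List ℕ) :
    evQ F (Q.dup b g s p) = dup b g p s := by
  induction s generalizing p with
  | nil => rfl
  | cons y s ih =>
    cases s with
    | nil => rfl
    | cons z s =>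
      have : Q.dup b g (y :: z :: s) p =
        if y = z then Q.eqT b g p y s else Q.dup b g (z :: s) (p ++ [y]) := rfl
      rw [this, dup]
      split
      · rw [ev_eqT h2]
      · rw [ih]

theorem ev_oneS (h2 : (2 : F) = 0) (b : Bool) (g : List ℕ) (k : ℕ) (l : List ℕ) :
    evQ F (Q.oneS b g k l) = oneS b g k l := by
  rw [Q.oneS, ev_ad, ev_sSo h2, ev_dup h2, oneS]

theorem ev_dd2 (h2 : (2 : F) = 0) (k a b c e f h : Q) (R : List Q) :
    evQ F (Q.dd2 k a b c e f h R) =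
      dd2 (evQ F k) (evQ F a) (evQ F b) (evQ F c) (evQ F e) (evQ F f) (evQ F h) (R.map (evQ F)) := by
  simp only [Q.dd2, dd2, ev_ad, ev_mu, ev_cm h2, ev_as h2, ev_pr, List.map_cons, ev_cB h2]
  abel

theorem fst_nil (z : Q) (s : List Cen → ℕ → ℕ → ℕ → List Cen → Q) (vs : List Cen)
    (h : vs.dropWhile Cen.isC = []) : Q.fst z s vs = z := by
  unfold Q.fst; rw [h]

theorem fst_c (z : Q) (s : List Cen → ℕ → ℕ → ℕ → List Cen → Q) (vs : List Cen) (i j : ℕ) (ws : List Cen)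
    (h : vs.dropWhile Cen.isC = .c i j :: ws) : Q.fst z s vs = z := by
  unfold Q.fst; rw [h]

theorem fst_d (z : Q) (s : List Cen → ℕ → ℕ → ℕ → List Cen → Q) (vs : List Cen) (a b c : ℕ) (ws : List Cen)
    (h : vs.dropWhile Cen.isC = .d a b c :: ws) : Q.fst z s vs = s (vs.takeWhile Cen.isC) a b c ws := by
  unfold Q.fst; rw [h]

theorem ev_one (h2 : (2 : F) = 0) (k : ℕ) (vs : List Cen) (g : List ℕ) :
    evQ F (Q.one k vs g) = one k vs g := by
  unfold Q.one one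
  match h : vs.dropWhile Cen.isC with
  | [] => rw [fst_nil _ _ _ h, ev_oneS h2]
  | .c i j :: ws => rw [fst_c _ _ _ _ _ _ h, ev_oneS h2]
  | .d a b c :: ws =>
    rw [fst_d _ _ _ _ _ _ _ h, ev_ad, ev_mv h2, map_cv h2, map_fac h2, ev_cv h2]
    refine congrArg _ ?_
    have e : List.append (vs.takeWhile Cen.isC) ws = vs.takeWhile Cen.isC ++ ws := rfl
    rw [e]
    match h' : (vs.takeWhile Cen.isC ++ ws).dropWhile Cen.isC with
    | [] => rw [fst_nil _ _ _ h', ev_oneS h2]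
    | .c i j :: ws' => rw [fst_c _ _ _ _ _ _ h', ev_oneS h2]
    | .d a' b' c' :: ws' =>
      rw [fst_d _ _ _ _ _ _ _ h', ev_ad, ev_mu, ev_mv h2, map_cv h2, map_fac h2, ev_cv h2, ev_cv h2,
        ev_dd2 h2, map_fac h2, ev_x, ev_x, ev_x, ev_x, ev_x, ev_x, ev_x]
      rfl

end Pool.Agent.OT
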