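import Pool.Agent.OT.DcB

/-!
# The compact definitions: many traces and the reduction of words  (module DcC)
-/

set_option autoImplicit false
set_option linter.unusedSectionVars false

namespace Pool.Agent.OT

open FreeNonUnitalNonAssocAlgebra Pool.Agent.H.MP_41922c_al Pool.Agent.OB Pool.Agent.OBX

variable {F : Type*} [Field F]

theorem ev_hub_aux (h2 : (2 : F) = 0) (g : List ℕ) (n : ℕ) (K : List ℕ) (vs : List Cen) (hn : K.length < n) :
    evQ F (Nat.iterate (Q.hubS g) n (fun _ _ => []) K vs) = hub g K vs := by
  induction n generalizing K vs with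
  | zero => exact absurd hn (Nat.not_lt_zero _)
  | succ n ih =>
    rw [Function.iterate_succ_apply']
    generalize Nat.iterate (Q.hubS g) n (fun _ _ => []) = r at ih ⊢
    match K, vs with
    | [], vs =>
      have : Q.hubS g r [] vs = Q.pr (Q.fac vs g) := rfl
      rw [this, ev_pr, map_fac h2, hub]
    | _ :: _, [] =>
      rw [Q.hubS, hub]; rfl
    | [k], v :: vs =>
      rw [Q.hubS, ev_one h2, hub]
    | a :: b :: K, .c z w :: vs =>
      simp only [List.length_cons] at hn
      rw [Q.hubS, hub, ev_ad, ev_ad, ev_ad, ih _ _ (by omega), ih _ _ (by simp only [List.length_cons]; omega),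
        ev_as h2, ev_aK h2, ev_cm h2, ev_x, ev_x, ev_cv h2, ev_pr, ev_pr, map_fac h2, List.map_cons, map_fac h2,
        ev_cA h2, ev_x, ev_x, ev_x, ev_x]
      abel
    | a :: b :: K, .d z w v :: vs =>
      simp only [List.length_cons] at hn
      rw [Q.hubS, hub, ev_ad, ev_ad, ih _ _ (by omega),
        ev_as h2, ev_aK h2, ev_cm h2, ev_x, ev_x, ev_cv h2, ev_pr, ev_pr, map_fac h2, List.map_cons, map_fac h2,
        ev_cB h2, ev_x, ev_x, ev_x, ev_x, ev_x]
      abel

theorem ev_hub (h2 : (2 : F) = 0) (g K : List ℕ) (vs : List Cen) :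
    evQ F (Q.hub g K vs) = hub g K vs := ev_hub_aux h2 g _ K vs (Nat.lt_succ_self _)

theorem ev_flatMap {α : Type} (l : List α) (f : α → Q) :
    evQ F (l.flatMap f) = (l.map fun a => evQ F (f a)).sum := by
  induction l with
  | nil => rfl
  | cons a l ih => rw [List.flatMap_cons, ev_append, ih, List.map_cons, List.sum_cons]

theorem sum_rep {α : Type} (l : List α) (f : α → Rep F) (K : List ℕ) :
    (l.map f).sum K = (l.map fun a => f a K).sum := by
  induction l with
  | nil => rfl
  | cons a l ih => rw [List.map_cons, List.sum_cons, List.map_cons, List.sum_cons, ← ih]; rfl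

theorem ctx_apply (us : List (FreeMagma ℕ)) (g : Rep F) (K : List ℕ) :
    ctx us g K = us.foldl (fun f u => mo F u * f) (g K) := rfl

theorem ev_N (h2 : (2 : F) = 0) (K : List ℕ) (n : ℕ) :
    (∀ us vs g, wt us < n → evQ F (Q.N K n us none vs g) = N1 us vs g K) ∧
    (∀ us a b vs g, wt us + (2 * a.length - 1) + (2 * b.length - 1) < n →
      evQ F (Q.N K n us (some (a, b)) vs g) = N2 us a b vs g K) := by
  induction n with
  | zero => exact ⟨fun us vs g h => by omega, fun us a b vs g h => by omega⟩
  | succ n ih =>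
    have hN : Q.N K (n + 1) = Q.NS K (Q.N K n) := by
      rw [Q.N, Function.iterate_succ_apply', ← Q.N]
    rw [hN]
    obtain ⟨ih1, ih2⟩ := ih
    generalize Q.N K n = r at ih1 ih2 ⊢
    refine ⟨fun us vs g h => ?_, fun us a b vs g h => ?_⟩
    · match us with
      | [] =>
        rw [Q.NS, N1, ev_hub h2]
      | .of i :: us =>
        simp only [wt, List.map_cons, List.sum_cons, FreeMagma.length] at h
        rw [Q.NS, N1, ev_ad, ev_flatMap, ev_ctx, ev_ad, ev_mi h2, ev_insR h2, insS_eq, map_x, ev_x,
          Pi.add_apply, sum_rep, ctx_apply, Pi.add_apply]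
        congr 2
        refine List.map_congr_left fun s _ => ih1 _ _ _ (by simp only [wt]; omega)
      | .mul a b :: us =>
        have ha := FreeMagma.length_pos a
        have hb := FreeMagma.length_pos b
        simp only [wt, List.map_cons, List.sum_cons, FreeMagma.length] at h
        rw [Q.NS, N1, ev_ad, ih1 _ _ _ (by simp only [wt, List.map_cons, List.sum_cons]; omega),
          ih2 _ _ _ _ _ (by simp only [wt]; omega), Pi.add_apply]
    · match a, b with
      | .mul a b, c =>
        have ha := FreeMagma.length_pos a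
        have hb := FreeMagma.length_pos b
        have hc := FreeMagma.length_pos c
        simp only [wt, FreeMagma.length] at h
        rw [Q.NS, N2, ev_ad, ev_ad, ih2 _ _ _ _ _ (by simp only [wt, List.map_cons, List.sum_cons]; omega),
          ih2 _ _ _ _ _ (by simp only [wt, List.map_cons, List.sum_cons]; omega), ev_ctx, ev_a3 h2,
          ev_one_word, ev_one_word, ev_one_word, ev_pr, map_fac h2, Pi.add_apply, Pi.add_apply, ctx_apply, add_assoc]
      | .of i, .mul b c =>
        have hb := FreeMagma.length_pos b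
        have hc := FreeMagma.length_pos c
        simp only [wt, FreeMagma.length] at h
        rw [Q.NS, N2, ev_ad, ev_ad,
          ih2 _ _ _ _ _ (by simp only [wt, List.map_cons, List.sum_cons, FreeMagma.length]; omega),
          ih2 _ _ _ _ _ (by simp only [wt, List.map_cons, List.sum_cons, FreeMagma.length]; omega), ev_ctx, ev_a3 h2,
          ev_one_word, ev_one_word, ev_one_word, ev_pr, map_fac h2, Pi.add_apply, Pi.add_apply, ctx_apply, add_assoc]
        rfl
      | .of i, .of j =>
        simp only [wt, FreeMagma.length] at h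
        rw [Q.NS, N2, ev_ad, ev_flatMap, ev_ctx, ev_basT h2, basS_eq, Pi.add_apply, sum_rep, ctx_apply]
        congr 2
        refine List.map_congr_left fun s _ => ih1 _ _ _ (by simp only [wt]; omega)

/-- the factors and the last letter -/
theorem N0_spl : ∀ (u : FreeMagma ℕ) (us : List (FreeMagma ℕ)),
    (N0 us u : Rep F) = N1 (Q.spl u us).1 [] [(Q.spl u us).2]
  | .of i, us => by rw [N0, Q.spl]
  | .mul a b, us => by rw [N0, Q.spl]; exact N0_spl b (a :: us)

theorem wt_spl : ∀ (u : FreeMagma ℕ) (us : List (FreeMagma ℕ)),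
    wt (Q.spl u us).1 < wt us + 2 * u.length
  | .of i, us => by
    rw [Q.spl]
    simp only [FreeMagma.length]
    omega
  | .mul a b, us => by
    have ha := FreeMagma.length_pos a
    have := wt_spl b (a :: us)
    rw [Q.spl]
    simp only [wt, List.map_cons, List.sum_cons, FreeMagma.length] at this ⊢
    omega

theorem tl_eq : ∀ w : FreeMagma (ℕ ⊕ ℕ), Q.tl w = tl w
  | .of (.inl _) => rfl
  | .of (.inr _) => rfl
  | .mul u v => by rw [Q.tl, tl, tl_eq u, tl_eq v]

theorem xl_eq : ∀ w : FreeMagma (ℕ ⊕ ℕ), Q.xl w = xl w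
  | .of (.inl _) => rfl
  | .of (.inr _) => rfl
  | .mul u v => by
    rw [Q.xl, xl, xl_eq u, xl_eq v]
    cases xl u <;> cases xl v <;> rfl

theorem ev_psi (h2 : (2 : F) = 0) (w : FreeMagma (ℕ ⊕ ℕ)) : evQ F (Q.psi w) = psiW F w := by
  unfold Q.psi psiW
  rw [xl_eq, tl_eq]
  cases xl w with
  | none => rfl
  | some u =>
    cases tl w with
    | nil => exact ev_one_word u
    | cons k K =>
      have h := wt_spl u []
      simp only [wt, List.map_nil, List.sum_nil, Nat.zero_add] at h
      exact ((ev_N h2 (k :: K) (2 * u.length)).1 _ _ _ h).trans (congrFun (N0_spl u []).symm (k :: K))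

end Pool.Agent.OT
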