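import Pool.Agent.OT.Fin2

/-!
# The main theorem, hypothesis `2 = 0`  (module Fin3)
-/

set_option autoImplicit false
set_option linter.unusedSectionVars false

namespace Pool.Agent.OT

open FreeNonUnitalNonAssocAlgebra Pool.Agent.H.MP_41922c_al Pool.Agent.OB

/-- the set `Bas2 F` is a basis of the identities of the octonions if `2 = 0` in `F` -/
theorem main2_of {F : Type*} [Field F] [Infinite F] (h2 : (2 : F) = 0) (f : FA F) :
    Id F f ↔ f ∈ tIdeal F (Bas2 F) := by
  haveI : CharP F 2 := by
    refine (CharP.charP_iff_prime_eq_zero Nat.prime_two).2 ?_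
    exact_mod_cast h2
  exact main2 f

end Pool.Agent.OT
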