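import Pool.Agent.OT.DcC
import Pool.Agent.OT.Fin3

/-!
# The compact definitions: the laws  (module DcD)
-/

set_option autoImplicit false
set_option linter.unusedSectionVars false

namespace Pool.Agent.OT

open FreeNonUnitalNonAssocAlgebra Pool.Agent.H.MP_41922c_al Pool.Agent.OB Pool.Agent.OBX

variable {F : Type*} [Field F]

/-- the value of a list of words in the `x_i`, `t_i` -/
noncomputable def evT (F : Type*) [Field F] (l : List (FreeMagma (ℕ ⊕ ℕ))) : FreeNonUnitalNonAssocAlgebra F (ℕ ⊕ ℕ) :=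
  (l.map (mo F)).sum

theorem evT_nil : evT F [] = 0 := rfl

theorem evT_cons (u : FreeMagma (ℕ ⊕ ℕ)) (l : List (FreeMagma (ℕ ⊕ ℕ))) :
    evT F (u :: l) = mo F u + evT F l := by
  simp [evT]

theorem evT_append (a b : List (FreeMagma (ℕ ⊕ ℕ))) : evT F (a ++ b) = evT F a + evT F b := by
  simp [evT]

theorem evT_left (u : FreeMagma (ℕ ⊕ ℕ)) (l : List (FreeMagma (ℕ ⊕ ℕ))) :
    evT F (l.map fun a => .mul u a) = mo F u * evT F l := by
  induction l with
  | nil => simp [evT]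
  | cons w b ih => rw [List.map_cons, evT_cons, evT_cons, ih, mul_add]; rfl

theorem evT_right (u : FreeMagma (ℕ ⊕ ℕ)) (l : List (FreeMagma (ℕ ⊕ ℕ))) :
    evT F (l.map fun a => .mul a u) = evT F l * mo F u := by
  induction l with
  | nil => simp [evT]
  | cons w b ih => rw [List.map_cons, evT_cons, evT_cons, ih, add_mul]; rfl

theorem evT_flat (l : List (FreeMagma (ℕ ⊕ ℕ))) (s t : FreeMagma (ℕ ⊕ ℕ) → FreeMagma (ℕ ⊕ ℕ))
    (S T : FreeNonUnitalNonAssocAlgebra F (ℕ ⊕ ℕ) →ₗ[F] FreeNonUnitalNonAssocAlgebra F (ℕ ⊕ ℕ))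
    (hs : ∀ a, mo F (s a) = S (mo F a)) (ht : ∀ a, mo F (t a) = T (mo F a)) :
    evT F (l.flatMap fun a => [s a, t a]) = S (evT F l) + T (evT F l) := by
  induction l with
  | nil => simp [evT]
  | cons w b ih =>
    rw [List.flatMap_cons, evT_append, ih, evT_cons w, map_add, map_add, evT_cons, evT_cons, evT_nil, hs, ht]
    abel

theorem ngT (h2 : (2 : F) = 0) (a : FreeNonUnitalNonAssocAlgebra F (ℕ ⊕ ℕ)) : -a = a := by
  have h : (2 : F) • a = 0 := by rw [h2, zero_smul]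
  rw [two_smul] at h
  exact neg_eq_of_add_eq_zero_left h

theorem comT_two (h2 : (2 : F) = 0) (a b : FreeNonUnitalNonAssocAlgebra F (ℕ ⊕ ℕ)) :
    com a b = a * b + b * a := by
  unfold com
  rw [sub_eq_add_neg, ngT h2]

theorem ascT_two (h2 : (2 : F) = 0) (a b c : FreeNonUnitalNonAssocAlgebra F (ℕ ⊕ ℕ)) :
    associator a b c = a * b * c + a * (b * c) := by
  rw [associator_apply, sub_eq_add_neg, ngT h2]

theorem Psi_evT (h2 : (2 : F) = 0) (l : List (FreeMagma (ℕ ⊕ ℕ))) : Psi F (evT F l) = evQ F (l.flatMap Q.psi) := by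
  induction l with
  | nil => rw [evT_nil, map_zero]; rfl
  | cons w l ih => rw [evT_cons, map_add, ih, Psi, linMo_mo, List.flatMap_cons, ev_append, ev_psi h2]

theorem iv_evT (h2 : (2 : F) = 0) (u : FreeMagma (ℕ ⊕ ℕ)) : iv (mo F u) = evT F (Q.iv u) := by
  induction u with
  | ih1 a =>
    cases a with
    | inl i =>
      show iv (of F (Sum.inl i)) = evT F [.of (.inr i), .of (.inl i)]
      rw [Fin1_iv_inl, evT_cons, evT_cons, evT_nil, add_zero, sub_eq_add_neg, ngT h2]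
      rfl
    | inr i =>
      show iv (of F (Sum.inr i)) = evT F [.of (.inr i)]
      rw [Fin1_iv_inr, evT_cons, evT_nil, add_zero]
      rfl
  | ih2 u v hu hv =>
    show iv (mo F u * mo F v) = evT F ((Q.iv v).flatMap fun b => (Q.iv u).map fun a => .mul b a)
    rw [Fin1_iv_mul, hu, hv]
    generalize Q.iv v = l
    induction l with
    | nil => simp [evT]
    | cons w b ih => rw [List.flatMap_cons, evT_append, ← ih, evT_cons, add_mul, evT_left]

theorem evT_com (h2 : (2 : F) = 0) (l : List (FreeMagma (ℕ ⊕ ℕ))) (v : FreeMagma (ℕ ⊕ ℕ)) :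
    evT F (l.flatMap fun a => [.mul a v, .mul v a]) = com (evT F l) (mo F v) := by
  rw [comT_two h2]
  exact evT_flat l (fun a => .mul a v) (fun a => .mul v a) (LinearMap.mulRight F (mo F v)) (LinearMap.mulLeft F (mo F v))
    (fun _ => rfl) (fun _ => rfl)

theorem evT_asc (h2 : (2 : F) = 0) (l : List (FreeMagma (ℕ ⊕ ℕ))) (v w : FreeMagma (ℕ ⊕ ℕ)) :
    evT F (l.flatMap fun a => [.mul (.mul a v) w, .mul a (.mul v w)]) = associator (evT F l) (mo F v) (mo F w) := by
  rw [ascT_two h2]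
  exact evT_flat l (fun a => .mul (.mul a v) w) (fun a => .mul a (.mul v w))
    (LinearMap.mulRight F (mo F w) ∘ₗ LinearMap.mulRight F (mo F v)) (LinearMap.mulRight F (mo F v * mo F w))
    (fun _ => rfl) (fun _ => rfl)

theorem evT_comL (h2 : (2 : F) = 0) (l : List (FreeMagma (ℕ ⊕ ℕ))) (u v : FreeMagma (ℕ ⊕ ℕ)) :
    evT F (l.flatMap fun a => [.mul (.mul u a) v, .mul v (.mul u a)]) = com (mo F u * evT F l) (mo F v) := by
  rw [comT_two h2]
  exact evT_flat l (fun a => .mul (.mul u a) v) (fun a => .mul v (.mul u a))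
    (LinearMap.mulRight F (mo F v) ∘ₗ LinearMap.mulLeft F (mo F u))
    (LinearMap.mulLeft F (mo F v) ∘ₗ LinearMap.mulLeft F (mo F u))
    (fun _ => rfl) (fun _ => rfl)

theorem evT_ascL (h2 : (2 : F) = 0) (l : List (FreeMagma (ℕ ⊕ ℕ))) (u v w : FreeMagma (ℕ ⊕ ℕ)) :
    evT F (l.flatMap fun a => [.mul (.mul (.mul u a) v) w, .mul (.mul u a) (.mul v w)]) =
      associator (mo F u * evT F l) (mo F v) (mo F w) := by
  rw [ascT_two h2]
  exact evT_flat l (fun a => .mul (.mul (.mul u a) v) w) (fun a => .mul (.mul u a) (.mul v w))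
    (LinearMap.mulRight F (mo F w) ∘ₗ LinearMap.mulRight F (mo F v) ∘ₗ LinearMap.mulLeft F (mo F u))
    (LinearMap.mulRight F (mo F v * mo F w) ∘ₗ LinearMap.mulLeft F (mo F u))
    (fun _ => rfl) (fun _ => rfl)

theorem ev_altL (h2 : (2 : F) = 0) (u v : FreeMagma (ℕ ⊕ ℕ)) :
    evT F [.mul (.mul u u) v, .mul u (.mul u v)] = associator (mo F u) (mo F u) (mo F v) := by
  rw [ascT_two h2, evT_cons, evT_cons, evT_nil, add_zero]; rfl

theorem ev_altR (h2 : (2 : F) = 0) (u v : FreeMagma (ℕ ⊕ ℕ)) :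
    evT F [.mul (.mul v u) u, .mul v (.mul u u)] = associator (mo F v) (mo F u) (mo F u) := by
  rw [ascT_two h2, evT_cons, evT_cons, evT_nil, add_zero]; rfl

theorem ev_altL' (h2 : (2 : F) = 0) (u v w : FreeMagma (ℕ ⊕ ℕ)) :
    evT F [.mul (.mul u v) w, .mul u (.mul v w), .mul (.mul v u) w, .mul v (.mul u w)] =
      associator (mo F u) (mo F v) (mo F w) + associator (mo F v) (mo F u) (mo F w) := by
  rw [ascT_two h2, ascT_two h2, evT_cons, evT_cons, evT_cons, evT_cons, evT_nil, add_zero, add_assoc]; rfl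

theorem ev_altR' (h2 : (2 : F) = 0) (u v w : FreeMagma (ℕ ⊕ ℕ)) :
    evT F [.mul (.mul w u) v, .mul w (.mul u v), .mul (.mul w v) u, .mul w (.mul v u)] =
      associator (mo F w) (mo F u) (mo F v) + associator (mo F w) (mo F v) (mo F u) := by
  rw [ascT_two h2, ascT_two h2, evT_cons, evT_cons, evT_cons, evT_cons, evT_nil, add_zero, add_assoc]; rfl

theorem law_isLaw (h2 : (2 : F) = 0) {l : List (FreeMagma (ℕ ⊕ ℕ))} (h : Q.Law l) : IsLaw F (evT F l) := by
  induction h with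
  | altL u v => rw [ev_altL h2]; exact .altL u v
  | altR u v => rw [ev_altR h2]; exact .altR u v
  | altL' u v w => rw [ev_altL' h2]; exact .altL' u v w
  | altR' u v w => rw [ev_altR' h2]; exact .altR' u v w
  | trC u v => rw [evT_com h2, evT_cons, ← iv_evT h2]; exact .trC u v
  | trA u v w => rw [evT_asc h2, evT_cons, ← iv_evT h2]; exact .trA u v w
  | nC u v => rw [evT_comL h2, ← iv_evT h2]; exact .nC u v
  | nA u v w => rw [evT_ascL h2, ← iv_evT h2]; exact .nA u v w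
  | left u l _ ih => rw [evT_left]; exact .left u _ ih
  | right u l _ ih => rw [evT_right]; exact .right u _ ih

theorem isLaw_law (h2 : (2 : F) = 0) {f : FreeNonUnitalNonAssocAlgebra F (ℕ ⊕ ℕ)} (h : IsLaw F f) :
    ∃ l, Q.Law l ∧ f = evT F l := by
  induction h with
  | altL u v => exact ⟨_, .altL u v, (ev_altL h2 u v).symm⟩
  | altR u v => exact ⟨_, .altR u v, (ev_altR h2 u v).symm⟩
  | altL' u v w => exact ⟨_, .altL' u v w, (ev_altL' h2 u v w).symm⟩
  | altR' u v w => exact ⟨_, .altR' u v w, (ev_altR' h2 u v w).symm⟩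
  | trC u v => exact ⟨_, .trC u v, by rw [evT_com h2, evT_cons, ← iv_evT h2]⟩
  | trA u v w => exact ⟨_, .trA u v w, by rw [evT_asc h2, evT_cons, ← iv_evT h2]⟩
  | nC u v => exact ⟨_, .nC u v, by rw [evT_comL h2, ← iv_evT h2]⟩
  | nA u v w => exact ⟨_, .nA u v w, by rw [evT_ascL h2, ← iv_evT h2]⟩
  | left u f _ ih =>
    obtain ⟨l, hl, rfl⟩ := ih
    exact ⟨_, .left u l hl, by rw [evT_left]⟩
  | right u f _ ih =>
    obtain ⟨l, hl, rfl⟩ := ih
    exact ⟨_, .right u l hl, by rw [evT_right]⟩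

theorem Bas2_eq (h2 : (2 : F) = 0) : Bas2 F = BasC F := by
  ext g
  constructor
  · rintro ⟨f, hf, rfl⟩
    obtain ⟨l, hl, rfl⟩ := isLaw_law h2 hf
    exact ⟨l, hl, Psi_evT h2 l⟩
  · rintro ⟨l, hl, rfl⟩
    exact ⟨_, law_isLaw h2 hl, (Psi_evT h2 l).symm⟩

/-- the set `BasC F` is a basis of the identities of the octonions if `2 = 0` in `F` -/
theorem main2C {F : Type*} [Field F] [Infinite F] (h2 : (2 : F) = 0) (f : FA F) :
    Id F f ↔ f ∈ tIdeal F (BasC F) := by
  rw [← Bas2_eq h2]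
  exact main2_of h2 f

end Pool.Agent.OT
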