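import Pool.Agent.OB.BasD
import Pool.Agent.OT.Dc

/-!
# The explicit basis in characteristic 2 as a set of polynomials  (module DcE)
-/

set_option autoImplicit false

namespace Pool.Agent.OT

/-- the polynomial over `F` -/
noncomputable def evQ (F : Type*) [CommRing F] (q : Q) : Pool.Agent.OB.FA F := (q.map (Pool.Agent.OB.mo F)).sum

/-- the explicit basis in characteristic 2 -/
def BasC (F : Type*) [CommRing F] : Set (Pool.Agent.OB.FA F) := {f | ∃ l, Q.Law l ∧ f = evQ F (l.flatMap Q.psi)}

end Pool.Agent.OT
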