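import Pool.Agent.OT.DcE

/-!
# The explicit basis in characteristic 2 (all definitions)

Everything here is defined by explicit recursions, without reference to the identities of the octonions.

An element of `Rep F` is a function of a list `K` of variables: `g` represents a function `l` if `g K` has the value
`t_K l` for all `K`, where `t_K` is the product of the traces of the variables in `K`. For an element `v` of trace zero
`t_k v` and `[x_k, v]` differ by a scalar; so `[a, v]` is represented by `[a, adK K v]`, and `(v, a, b)` by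
`(adK K v, a, b)`. A word `w` is written as a combination of the products `v_1 (v_2 (.. (v_m (x_{i_1} (.. x_{i_n})))))`,
`i_1 ≤ .. ≤ i_n`, where each `v_j` is a commutator or an associator of variables, and of elements `[a, v]`, `(v, a, b)`.
-/

set_option autoImplicit false
set_option linter.unusedSectionVars false

namespace Pool.Agent.OT

open FreeNonUnitalNonAssocAlgebra Pool.Agent.H.MP_41922c_al Pool.Agent.OB Pool.Agent.OBX

section

variable {F : Type*} [Field F]

/-- the right-nested product -/
noncomputable def pr : List (FA F) → FA F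
  | [] => 0
  | [a] => a
  | a :: b :: l => a * pr (b :: l)

/-- `[x_{k_1}, [x_{k_2}, .. v]]` -/
noncomputable def adK (K : List ℕ) (v : FA F) : FA F := K.foldr (fun k v => com (of F k) v) v

variable (F) in
/-- the value of a `Cen` -/
noncomputable def cv : Cen → FA F
  | .c i j => com (of F i) (of F j)
  | .d i j k => associator (of F i) (of F j) (of F k)

variable (F) in
/-- the factors `v_1, .., v_m, x_{i_1}, .., x_{i_n}` -/
noncomputable def fac (vs : List Cen) (g : List ℕ) : List (FA F) := vs.map (cv F) ++ g.map (of F)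

/-! ### words -/

/-- `a_1 (.. (a_n (v R))) - v (a_1 (.. (a_n R)))`, `v` of trace zero -/
noncomputable def mv : List (FA F) → FA F → List (FA F) → Rep F
  | [], _, _ => 0
  | a :: l, v, R => fun K => pr (com a (adK K v) :: (l ++ R)) + a * mv l v R K

/-- `x (v_1 (.. (v_m R))) - v_1 (.. (v_m (x R)))` -/
noncomputable def mi (x : FA F) : List Cen → List (FA F) → Rep F
  | [], _ => 0
  | v :: vs, R => fun K => pr (com x (adK K (cv F v)) :: (vs.map (cv F) ++ R)) + cv F v * mi x vs R K

/-- the products which arise if `x_i` is inserted into `v_1 .. v_m (l) (g)`, `g` sorted, on the right of `l` -/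
def insS (i : ℕ) (vs : List Cen) : List ℕ → List ℕ → List (List Cen × List ℕ)
  | l, [] => [(vs, l ++ [i])]
  | l, h :: g => if i ≤ h then [(vs, l ++ i :: h :: g)]
      else (.c i h :: vs, l ++ g) :: insS i vs (l ++ [h]) g

/-- the other terms -/
noncomputable def insR (i : ℕ) (vs : List Cen) : List ℕ → List ℕ → Rep F
  | _, [] => 0
  | l, h :: g => if i ≤ h then 0
      else mv (fac F vs l) (cv F (.c i h)) (g.map (of F)) + insR i vs (l ++ [h]) g

/-- `(a b, c, R) - a (b, c, R) - b (a, c, R)` -/
noncomputable def a3 (a b c R : FA F) : Rep F := fun K =>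
  com a (adK K (associator b c R)) + associator (adK K (com a b)) c R +
    associator (adK K (com c R)) a b

/-- `(s R, a, b) - s (R, a, b) - (s, a, b) R` -/
noncomputable def b4 (a b s R : FA F) : Rep F := fun K =>
  associator (adK K (com s R)) a b + associator (adK K (com a b)) s R +
    com s (adK K (associator R a b)) + com R (adK K (associator s a b))

/-- the products in `(x_i, x_j, v_1 .. v_m (l) (g))` which take the third argument out of `g` -/
def basS (i j : ℕ) (vs : List Cen) : List ℕ → List ℕ → List (List Cen × List ℕ)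
  | _, [] => []
  | l, k :: g => (.d i j k :: vs, l ++ g) :: basS i j vs (l ++ [k]) g

/-- the other terms of `l ((x_i, x_j, v_1 .. v_m (g)))` -/
noncomputable def basR (i j : ℕ) : List (FA F) → List Cen → List ℕ → Rep F
  | _, [], [] => 0
  | l, [], k :: g => fun K =>
      pr (l ++ [b4 (of F i) (of F j) (of F k) (pr (g.map (of F))) K])
        + mv l (cv F (.d i j k)) (g.map (of F)) K + basR i j (l ++ [of F k]) [] g K
  | l, v :: vs, g => fun K =>
      pr (l ++ [b4 (of F i) (of F j) (cv F v) (pr (fac F vs g)) K])
        + pr (l ++ associator (adK K (cv F v)) (of F i) (of F j) :: fac F vs g)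
        + basR i j (l ++ [cv F v]) vs g K

/-- `u_n (.. (u_1 g))` -/
noncomputable def ctx (us : List (FreeMagma ℕ)) (g : Rep F) : Rep F := fun K =>
  us.foldl (fun f u => mo F u * f) (g K)

/-! ### products of traces with `v_1 .. v_m (g)` -/

/-- `t_x t_y [z, w] - [x, y] [z, w] - t_z (x, y, w)` -/
noncomputable def cA (x y z w : FA F) : Rep F := fun K =>
  com (x * y) (adK K (com z w)) + com z (adK K (com w (x * y)))
    + x * (com z (adK K (com w y)) + com y (adK K (com z w)))
    + (com z (adK K (com w x)) + com x (adK K (com z w))) * y + com y (com x (adK K (com z w)))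

/-- `t_x t_y (z, w, v) - [x, y] (z, w, v)` -/
noncomputable def cB (x y z w v : FA F) : Rep F := fun K =>
  com (x * y) (adK K (associator z w v)) + com z (adK K (associator (x * y) w v))
    + y * (com z (adK K (associator x w v)) + com x (adK K (associator z w v)))
    + (com z (adK K (associator y w v)) + com y (adK K (associator z w v))) * x
    + associator (adK K (com z (com x y))) w v + associator (adK K (com z (com w v))) x y
    + com x (com y (adK K (associator z w v)))

/-- the list `[x_i, x_j], [x_k, x_l], ..` -/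
def prs : List ℕ → List Cen
  | i :: j :: l => .c i j :: prs l
  | _ => []

/-- the list `(x_i, x_j, x_k), [x_l, x_m], ..` or `[x_i, x_j], [x_k, x_l], ..` -/
def cns (b : Bool) (l : List ℕ) : List Cen :=
  match b, l with
  | true, i :: j :: k :: l => .d i j k :: prs l
  | _, l => prs l

/-- `t_k P(l, x, q) - t_x P(l, k, q)`, `P(i, j, ..) = [x_i, x_j] (..)` -/
noncomputable def exc (g : List ℕ) (k : ℕ) : List ℕ → ℕ → List ℕ → FA F
  | [], x, j :: q => pr (com (com (of F k) (of F x)) (of F j) :: fac F (prs q) g)
  | [], _, [] => 0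
  | [i], x, q => pr (com (com (of F k) (of F x)) (of F i) :: fac F (prs q) g)
  | i :: j :: l, x, q => com (of F i) (of F j) * exc g k l x q

/-- the same with `P(i, j, k, ..) = (x_i, x_j, x_k) (..)` -/
noncomputable def exd (g : List ℕ) (k : ℕ) : List ℕ → ℕ → List ℕ → FA F
  | [], x, i :: j :: q => pr (associator (com (of F k) (of F x)) (of F i) (of F j) :: fac F (prs q) g)
  | [i], x, j :: q => pr (associator (com (of F k) (of F x)) (of F i) (of F j) :: fac F (prs q) g)
  | [i, j], x, q => pr (associator (com (of F k) (of F x)) (of F i) (of F j) :: fac F (prs q) g)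
  | i :: j :: m :: l, x, q => associator (of F i) (of F j) (of F m) * exc g k l x q
  | _, _, _ => 0

/-- both cases -/
noncomputable def ex (b : Bool) (g : List ℕ) (k : ℕ) (l : List ℕ) (x : ℕ) (q : List ℕ) : FA F :=
  if b then exd g k l x q else exc g k l x q

/-- `T(p, x, y, q) - T(p, y, x, q)`, where `T(k, l) = t_k P(l)` -/
noncomputable def swp (b : Bool) (g : List ℕ) : List ℕ → ℕ → ℕ → List ℕ → FA F
  | [], x, y, q => ex b g x [] y q
  | k :: p, x, y, q => ex b g k p x (y :: q) + ex b g x (p ++ [k]) y q + ex b g y p k (x :: q)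

/-- insertion of `x` into a sorted list, on the right of `p` -/
noncomputable def sIn (b : Bool) (g : List ℕ) : List ℕ → ℕ → List ℕ → FA F
  | _, _, [] => 0
  | p, x, y :: q => if x ≤ y then 0 else swp b g p x y q + sIn b g (p ++ [y]) x q

/-- sorting -/
noncomputable def sSo (b : Bool) (g : List ℕ) : List ℕ → List ℕ → FA F
  | _, [] => 0
  | p, x :: s => sSo b g (p ++ [x]) s + sIn b g p x (s.insertionSort (· ≤ ·))

/-- `t_x P(l, x, q)` -/
noncomputable def eqc (g : List ℕ) (x : ℕ) : List ℕ → List ℕ → FA F
  | [], j :: q => pr (com (of F x) (com (of F x) (of F j)) :: fac F (prs q) g)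
  | [], [] => 0
  | [i], q => pr (com (of F x) (com (of F i) (of F x)) :: fac F (prs q) g)
  | i :: j :: l, q => com (of F i) (of F j) * eqc g x l q

/-- the same with `P(i, j, k, ..) = (x_i, x_j, x_k) (..)` -/
noncomputable def eqd (g : List ℕ) (x : ℕ) : List ℕ → List ℕ → FA F
  | [], i :: j :: q => pr (com (of F x) (associator (of F x) (of F i) (of F j)) :: fac F (prs q) g)
  | [i], j :: q => pr (com (of F x) (associator (of F x) (of F i) (of F j)) :: fac F (prs q) g)
  | [i, j], q => pr (com (of F x) (associator (of F x) (of F i) (of F j)) :: fac F (prs q) g)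
  | i :: j :: m :: l, q => associator (of F i) (of F j) (of F m) * eqc g x l q
  | _, _ => 0

/-- `T(p, x, x, q)` -/
noncomputable def eqT (b : Bool) (g : List ℕ) : List ℕ → ℕ → List ℕ → FA F
  | [], x, q => if b then eqd g x [] q else eqc g x [] q
  | k :: p, x, q => ex b g k p x (x :: q) +
      if b then eqd g x (p ++ [k]) q else eqc g x (p ++ [k]) q

/-- `T(p, s)` if there are equal neighbours in the list `s`, and `0` otherwise -/
noncomputable def dup (b : Bool) (g : List ℕ) : List ℕ → List ℕ → FA F
  | p, x :: y :: s => if x = y then eqT b g p x s else dup b g (p ++ [x]) (y :: s)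
  | _, _ => 0

/-- `t_k v_1 (.. (v_m (g)))` for at most one associator, `l` the list of all the variables of `v_1, .., v_m` -/
noncomputable def oneS (b : Bool) (g : List ℕ) (k : ℕ) (l : List ℕ) : FA F :=
  sSo b g [] (k :: l) + dup b g [] ((k :: l).insertionSort (· ≤ ·))

/-- `t_k (a, b, c) (v R)` for an associator `v = (e, f, h)` of variables; `vR` is the list with product `v R` -/
noncomputable def dd2 (k a b c e f h : FA F) (R : List (FA F)) : FA F :=
  let Y := pr (associator e f h :: R)
  let L := associator (com a b) (associator e f h) (pr R) + pr (cB a b e f h [] :: R)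
  com (com k (a * b)) c * Y + com (com k c) (com a b) * Y + com k c * L
    + (a * com (com k b) c) * Y + (com (com k a) c * b) * Y
    + associator (com b (com k c)) a Y + associator (com a (com k c)) b Y
    + com (com a (com k c)) b * Y

/-- `t_k v_1 (.. (v_m (g)))`, `m ≥ 1` -/
noncomputable def one (k : ℕ) (vs : List Cen) (g : List ℕ) : FA F :=
  match vs.dropWhile Cen.isC with
  | .d a b c :: ws =>
    let us := vs.takeWhile Cen.isC
    mv (us.map (cv F)) (cv F (.d a b c)) (fac F ws g) [k] +
      match (us ++ ws).dropWhile Cen.isC with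
      | .d e f h :: ws' =>
        let us' := (us ++ ws).takeWhile Cen.isC
        cv F (.d a b c) * mv (us'.map (cv F)) (cv F (.d e f h)) (fac F ws' g) [k] +
          dd2 (of F k) (of F a) (of F b) (of F c) (of F e) (of F f) (of F h) (fac F (us' ++ ws') g)
      | _ => oneS true g k (a :: b :: c :: (us ++ ws).flatMap Cen.vars)
  | _ => oneS false g k (vs.flatMap Cen.vars)

/-- `t_K v_1 (.. (v_m (g)))` -/
noncomputable def hub (g : List ℕ) : List ℕ → List Cen → FA F
  | [], vs => pr (fac F vs g)
  | _ :: _, [] => 0
  | [k], v :: vs => one k (v :: vs) g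
  | x :: y :: K, .c z w :: vs =>
      hub g K (.c x y :: .c z w :: vs) + hub g (z :: K) (.d x y w :: vs)
        + associator (adK K (com (of F x) (of F y))) (cv F (.c z w)) (pr (fac F vs g))
        + pr (cA (of F x) (of F y) (of F z) (of F w) K :: fac F vs g)
  | x :: y :: K, .d z w v :: vs =>
      hub g K (.c x y :: .d z w v :: vs)
        + associator (adK K (com (of F x) (of F y))) (cv F (.d z w v)) (pr (fac F vs g))
        + pr (cB (of F x) (of F y) (of F z) (of F w) (of F v) K :: fac F vs g)
  termination_by K => K.length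

/-! ### the reduction of words -/

/-- the size of a list of words -/
def wt (us : List (FreeMagma ℕ)) : ℕ := (us.map fun u => 2 * u.length - 1).sum

mutual

/-- `u_n (.. (u_1 (v_1 .. v_m (g))))` -/
noncomputable def N1 : List (FreeMagma ℕ) → List Cen → List ℕ → Rep F
  | [], vs, g => fun K => hub g K vs
  | .of i :: us, vs, g => ((insS i vs [] g).map fun s => N1 us s.1 s.2).sum
      + ctx us (mi (of F i) vs (g.map (of F)) + insR i vs [] g)
  | .mul a b :: us, vs, g => N1 (b :: a :: us) vs g + N2 us a b vs g
  termination_by us => wt us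
  decreasing_by
    all_goals
      simp only [wt, List.map_cons, List.sum_cons, FreeMagma.length]
      try have := FreeMagma.length_pos a
      try have := FreeMagma.length_pos b
      omega

/-- `u_n (.. (u_1 ((a, b, v_1 .. v_m (g)))))` -/
noncomputable def N2 : List (FreeMagma ℕ) → FreeMagma ℕ → FreeMagma ℕ → List Cen → List ℕ → Rep F
  | us, .mul a b, c, vs, g => N2 (a :: us) b c vs g + N2 (b :: us) a c vs g
      + ctx us (a3 (mo F a) (mo F b) (mo F c) (pr (fac F vs g)))
  | us, .of i, .mul b c, vs, g => N2 (b :: us) (.of i) c vs g + N2 (c :: us) (.of i) b vs g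
      + ctx us (a3 (mo F b) (mo F c) (of F i) (pr (fac F vs g)))
  | us, .of i, .of j, vs, g => ((basS i j vs [] g).map fun s => N1 us s.1 s.2).sum
      + ctx us (basR i j [] vs g)
  termination_by us a b => wt us + (2 * a.length - 1) + (2 * b.length - 1)
  decreasing_by
    all_goals
      simp only [wt, List.map_cons, List.sum_cons, FreeMagma.length]
      try have := FreeMagma.length_pos a
      try have := FreeMagma.length_pos b
      try have := FreeMagma.length_pos c
      omega

end

/-- `u_n (.. (u_1 w))` -/
noncomputable def N0 : List (FreeMagma ℕ) → FreeMagma ℕ → Rep F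
  | us, .of i => N1 us [] [i]
  | us, .mul a b => N0 (a :: us) b

end

/-! ### words with letters `x_i` and `t_i` -/

/-- the letters `t_i` of a word -/
def tl : FreeMagma (ℕ ⊕ ℕ) → List ℕ
  | .of (.inl _) => []
  | .of (.inr i) => [i]
  | .mul u v => tl u ++ tl v

/-- the word without the letters `t_i` -/
def xl : FreeMagma (ℕ ⊕ ℕ) → Option (FreeMagma ℕ)
  | .of (.inl i) => some (.of i)
  | .of (.inr _) => none
  | .mul u v => match xl u, xl v with
    | none, b => b
    | some a, none => some a
    | some a, some b => some (.mul a b)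

section

variable (F : Type*) [Field F]

/-- a polynomial without `t_i` for a word: the word itself if it has no `t_i` -/
noncomputable def psiW (w : FreeMagma (ℕ ⊕ ℕ)) : FA F :=
  match xl w, tl w with
  | none, _ => 0
  | some u, [] => mo F u
  | some u, k :: K => N0 [] u (k :: K)

/-- the elimination of the letters `t_i` -/
noncomputable def Psi : FreeNonUnitalNonAssocAlgebra F (ℕ ⊕ ℕ) →ₗ[F] FA F := linMo F (psiW F)

/-- the involution with `x_i ↦ t_i - x_i`, `t_i ↦ t_i` -/
noncomputable def ivHom : FreeNonUnitalNonAssocAlgebra F (ℕ ⊕ ℕ) →ₙₐ[F]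
    (FreeNonUnitalNonAssocAlgebra F (ℕ ⊕ ℕ))ᵐᵒᵖ :=
  lift F (Sum.elim (fun i => MulOpposite.op (of F (Sum.inr i) - of F (Sum.inl i)))
    (fun i => MulOpposite.op (of F (Sum.inr i))))

variable {F}

/-- the involution with `x_i ↦ t_i - x_i`, `t_i ↦ t_i` -/
noncomputable def iv (f : FreeNonUnitalNonAssocAlgebra F (ℕ ⊕ ℕ)) :
    FreeNonUnitalNonAssocAlgebra F (ℕ ⊕ ℕ) := (ivHom F f).unop

/-- the instances of the laws of the alternative algebras with involution with central and nuclear `u + u*`, `u u*` -/
inductive IsLaw (F : Type*) [Field F] : FreeNonUnitalNonAssocAlgebra F (ℕ ⊕ ℕ) → Prop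
  | altL (u v : FreeMagma (ℕ ⊕ ℕ)) : IsLaw F (associator (mo F u) (mo F u) (mo F v))
  | altR (u v : FreeMagma (ℕ ⊕ ℕ)) : IsLaw F (associator (mo F v) (mo F u) (mo F u))
  | altL' (u v w : FreeMagma (ℕ ⊕ ℕ)) : IsLaw F (associator (mo F u) (mo F v) (mo F w)
      + associator (mo F v) (mo F u) (mo F w))
  | altR' (u v w : FreeMagma (ℕ ⊕ ℕ)) : IsLaw F (associator (mo F w) (mo F u) (mo F v)
      + associator (mo F w) (mo F v) (mo F u))
  | trC (u v : FreeMagma (ℕ ⊕ ℕ)) : IsLaw F (com (mo F u + iv (mo F u)) (mo F v))
  | trA (u v w : FreeMagma (ℕ ⊕ ℕ)) : IsLaw F (associator (mo F u + iv (mo F u)) (mo F v) (mo F w))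
  | nC (u v : FreeMagma (ℕ ⊕ ℕ)) : IsLaw F (com (mo F u * iv (mo F u)) (mo F v))
  | nA (u v w : FreeMagma (ℕ ⊕ ℕ)) : IsLaw F (associator (mo F u * iv (mo F u)) (mo F v) (mo F w))
  | left (u : FreeMagma (ℕ ⊕ ℕ)) (f : FreeNonUnitalNonAssocAlgebra F (ℕ ⊕ ℕ)) :
      IsLaw F f → IsLaw F (mo F u * f)
  | right (u : FreeMagma (ℕ ⊕ ℕ)) (f : FreeNonUnitalNonAssocAlgebra F (ℕ ⊕ ℕ)) :
      IsLaw F f → IsLaw F (f * mo F u)

variable (F) in
/-- the explicit basis -/
def Bas2 : Set (FA F) := {g | ∃ f, IsLaw F f ∧ g = Psi F f}

end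

end Pool.Agent.OT
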