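import Pool.Agent.OT.Def

/-!
# The reduction of words by structural recursion

The same reduction as in `Pool.Agent.OT.Def` (functions `basR`, `hub`, `N1`, `N2`), with structural recursions only: the
functions `hubF` and `NN` have one more argument, a bound for the number of the steps.
-/

set_option autoImplicit false
set_option linter.unusedSectionVars false

namespace Pool.Agent.OT

open FreeNonUnitalNonAssocAlgebra Pool.Agent.H.MP_41922c_al Pool.Agent.OB Pool.Agent.OBX

section

variable {F : Type*} [Field F]

/-- the other terms of `l ((x_i, x_j, (g)))` -/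
noncomputable def bsA (i j : ℕ) : List ℕ → List (FA F) → Rep F
  | [], _ => 0
  | k :: g, l => fun K =>
      pr (l ++ [b4 (of F i) (of F j) (of F k) (pr (g.map (of F))) K])
        + mv l (cv F (.d i j k)) (g.map (of F)) K + bsA i j g (l ++ [of F k]) K

/-- the other terms of `l ((x_i, x_j, v_1 .. v_m (g)))` -/
noncomputable def bsB (i j : ℕ) (g : List ℕ) : List Cen → List (FA F) → Rep F
  | [], l => bsA i j g l
  | v :: vs, l => fun K =>
      pr (l ++ [b4 (of F i) (of F j) (cv F v) (pr (fac F vs g)) K])
        + pr (l ++ associator (adK K (cv F v)) (of F i) (of F j) :: fac F vs g)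
        + bsB i j g vs (l ++ [cv F v]) K

/-- `t_K v_1 (.. (v_m (g)))`, if the first argument is greater than the length of `K` -/
noncomputable def hubF (g : List ℕ) : ℕ → List ℕ → List Cen → FA F
  | 0, _, _ => 0
  | _ + 1, [], vs => pr (fac F vs g)
  | _ + 1, _ :: _, [] => 0
  | _ + 1, [k], v :: vs => one k (v :: vs) g
  | n + 1, x :: y :: K, .c z w :: vs =>
      hubF g n K (.c x y :: .c z w :: vs) + hubF g n (z :: K) (.d x y w :: vs)
        + associator (adK K (com (of F x) (of F y))) (cv F (.c z w)) (pr (fac F vs g))
        + pr (cA (of F x) (of F y) (of F z) (of F w) K :: fac F vs g)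
  | n + 1, x :: y :: K, .d z w v :: vs =>
      hubF g n K (.c x y :: .d z w v :: vs)
        + associator (adK K (com (of F x) (of F y))) (cv F (.d z w v)) (pr (fac F vs g))
        + pr (cB (of F x) (of F y) (of F z) (of F w) (of F v) K :: fac F vs g)

/-- `u_n (.. (u_1 (v_1 .. v_m (g))))` for `none`, and `u_n (.. (u_1 ((a, b, v_1 .. v_m (g)))))` for `some (a, b)`, if
the first argument is large enough -/
noncomputable def NN : ℕ → Option (FreeMagma ℕ × FreeMagma ℕ) → List (FreeMagma ℕ) → List Cen →
    List ℕ → Rep F
  | 0, _, _, _, _ => 0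
  | _ + 1, none, [], vs, g => fun K => hubF g (K.length + 1) K vs
  | n + 1, none, .of i :: us, vs, g => ((insS i vs [] g).map fun s => NN n none us s.1 s.2).sum
      + ctx us (mi (of F i) vs (g.map (of F)) + insR i vs [] g)
  | n + 1, none, .mul a b :: us, vs, g => NN n none (b :: a :: us) vs g + NN n (some (a, b)) us vs g
  | n + 1, some (.mul a b, c), us, vs, g =>
      NN n (some (b, c)) (a :: us) vs g + NN n (some (a, c)) (b :: us) vs g
        + ctx us (a3 (mo F a) (mo F b) (mo F c) (pr (fac F vs g)))
  | n + 1, some (.of i, .mul b c), us, vs, g =>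
      NN n (some (.of i, c)) (b :: us) vs g + NN n (some (.of i, b)) (c :: us) vs g
        + ctx us (a3 (mo F b) (mo F c) (of F i) (pr (fac F vs g)))
  | n + 1, some (.of i, .of j), us, vs, g =>
      ((basS i j vs [] g).map fun s => NN n none us s.1 s.2).sum + ctx us (bsB i j g vs [])

/-- `u_n (.. (u_1 w))` -/
noncomputable def NF : FreeMagma ℕ → List (FreeMagma ℕ) → Rep F
  | .of i, us => NN (wt us + 1) none us [] [i]
  | .mul a b, us => NF b (a :: us)

end

section

variable (F : Type*) [Field F]

/-- a polynomial without `t_i` for a word: the word itself if it has no `t_i` -/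
noncomputable def psiF (w : FreeMagma (ℕ ⊕ ℕ)) : FA F :=
  match xl w, tl w with
  | none, _ => 0
  | some u, [] => mo F u
  | some u, k :: K => NF u [] (k :: K)

/-- the elimination of the letters `t_i` -/
noncomputable def PsiF : FreeNonUnitalNonAssocAlgebra F (ℕ ⊕ ℕ) →ₗ[F] FA F := linMo F (psiF F)

/-- the explicit basis -/
def BasF : Set (FA F) := {g | ∃ f, IsLaw F f ∧ g = PsiF F f}

end

end Pool.Agent.OT
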