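import Pool.Agent.OT.Df

/-!
# The structural recursions are the old ones
-/

set_option autoImplicit false
set_option linter.unusedSectionVars false

namespace Pool.Agent.OT

open FreeNonUnitalNonAssocAlgebra Pool.Agent.H.MP_41922c_al Pool.Agent.OB Pool.Agent.OBX

section

variable {F : Type*} [Field F]

theorem bsA_eq (i j : ℕ) (g : List ℕ) : ∀ l : List (FA F), bsA i j g l = basR i j l [] g := by
  induction g with
  | nil => intro l; rw [bsA, basR]
  | cons k g ih => intro l; rw [bsA, basR]; funext K; rw [ih]

theorem bsB_eq (i j : ℕ) (g : List ℕ) (vs : List Cen) :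
    ∀ l : List (FA F), bsB i j g vs l = basR i j l vs g := by
  induction vs with
  | nil => intro l; rw [bsB, bsA_eq]
  | cons v vs ih => intro l; rw [bsB, basR]; funext K; rw [ih]

theorem hubF_eq (g : List ℕ) (n : ℕ) : ∀ (K : List ℕ) (vs : List Cen), K.length < n →
    hubF (F := F) g n K vs = hub g K vs := by
  induction n with
  | zero => intro K vs h; omega
  | succ n ih =>
    intro K vs h
    match K, vs with
    | [], vs => rw [hubF, hub]
    | _ :: _, [] => rw [hubF, hub]
    | [k], v :: vs => rw [hubF, hub]
    | x :: y :: K, .c z w :: vs =>
      simp only [List.length_cons] at h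
      rw [hubF, hub, ih _ _ (by omega), ih _ _ (by simp only [List.length_cons]; omega)]
    | x :: y :: K, .d z w v :: vs =>
      simp only [List.length_cons] at h
      rw [hubF, hub, ih _ _ (by omega)]

theorem NN_eq (n : ℕ) : (∀ us vs g, wt us < n → NN (F := F) n none us vs g = N1 us vs g) ∧
    (∀ us a b vs g, wt us + (2 * a.length - 1) + (2 * b.length - 1) < n →
      NN (F := F) n (some (a, b)) us vs g = N2 us a b vs g) := by
  induction n with
  | zero => exact ⟨fun us vs g h => by omega, fun us a b vs g h => by omega⟩
  | succ n ih =>
    refine ⟨fun us vs g h => ?_, fun us a b vs g h => ?_⟩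
    · match us with
      | [] =>
        rw [NN, N1]; funext K; rw [hubF_eq g _ K vs (by omega)]
      | .of i :: us =>
        simp only [wt, List.map_cons, List.sum_cons, FreeMagma.length] at h
        rw [NN, N1]
        congr 2
        refine List.map_congr_left fun s _ => ih.1 _ _ _ (by simp only [wt]; omega)
      | .mul a b :: us =>
        have ha := FreeMagma.length_pos a
        have hb := FreeMagma.length_pos b
        simp only [wt, List.map_cons, List.sum_cons, FreeMagma.length] at h
        rw [NN, N1, ih.1 _ _ _ (by simp only [wt, List.map_cons, List.sum_cons]; omega),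
          ih.2 _ _ _ _ _ (by simp only [wt]; omega)]
    · match a, b with
      | .mul a b, c =>
        have ha := FreeMagma.length_pos a
        have hb := FreeMagma.length_pos b
        have hc := FreeMagma.length_pos c
        simp only [wt, FreeMagma.length] at h
        rw [NN, N2, ih.2 _ _ _ _ _ (by simp only [wt, List.map_cons, List.sum_cons]; omega),
          ih.2 _ _ _ _ _ (by simp only [wt, List.map_cons, List.sum_cons]; omega)]
      | .of i, .mul b c =>
        have hb := FreeMagma.length_pos b
        have hc := FreeMagma.length_pos c
        simp only [wt, FreeMagma.length] at h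
        rw [NN, N2, ih.2 _ _ _ _ _ (by simp only [wt, List.map_cons, List.sum_cons, FreeMagma.length]; omega),
          ih.2 _ _ _ _ _ (by simp only [wt, List.map_cons, List.sum_cons, FreeMagma.length]; omega)]
      | .of i, .of j =>
        simp only [wt, FreeMagma.length] at h
        rw [NN, N2, bsB_eq]
        congr 2
        refine List.map_congr_left fun s _ => ih.1 _ _ _ (by simp only [wt]; omega)

theorem NF_eq : ∀ (w : FreeMagma ℕ) (us : List (FreeMagma ℕ)), NF (F := F) w us = N0 us w
  | .of i, us => by rw [NF, N0, (NN_eq _).1 _ _ _ (by omega)]
  | .mul a b, us => by rw [NF, N0]; exact NF_eq b (a :: us)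

end

section

variable (F : Type*) [Field F]

theorem psiF_eq : psiF F = psiW F := by
  funext w
  unfold psiF psiW
  cases xl w with
  | none => rfl
  | some u =>
    cases tl w with
    | nil => rfl
    | cons k K => exact congrFun (NF_eq u []) (k :: K)

theorem PsiF_eq : PsiF F = Psi F := by rw [PsiF, Psi, psiF_eq]

theorem BasF_eq : BasF F = Bas2 F := by rw [BasF, Bas2, PsiF_eq]

end

end Pool.Agent.OT
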