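import Pool.Agent.OT.Val

/-!
# Identities of the split octonions in characteristic 2  (module O2)

All signs are irrelevant: `x + x = 0`. `alt12_oc`, `alt23_oc`, `jor_oc`, `tt_com`, `tt_associator`, `tt_comm`, `tt_assoc` are in OB/Oct.
`com a b = com b a = a b + b a = jor a b`. For `tt w = 0`: `com u w = tt u • w + (scalar)` (from `jor_oc`), so `tt u • com a w = com a (com u w)` and
`tt u • associator w a b = associator (com u w) a b` (a commutator or associator with a scalar is 0).
`ex_c`: `tt (x * com y z)` is alternating and `tt x • com y z = com x (com y z) + tt (x * com y z) • 1`; add the Jacobi-like identity, or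
do it by coordinates (`ext <;> simp <;> ring` after replacing signs; the identity holds modulo 2: write the difference as `2 * ..`, or use
`linear_combination (..) * h2` with `h2 : (2 : F) = 0`). `ex_d`: the same for `associator`.
-/

set_option autoImplicit false
set_option linter.unusedSectionVars false

namespace Pool.Agent.OT

open FreeNonUnitalNonAssocAlgebra Pool.Agent.H.MP_41922c_al Pool.Agent.Smt Pool.Agent.OB Pool.Agent.OBX

variable {F : Type*} [Field F] [CharP F 2]

theorem two0 (x : Oc F) : x + x = 0 := by
  rw [← two_smul F x, CharTwo.two_eq_zero, zero_smul]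

theorem neg2 (x : Oc F) : -x = x := by
  exact neg_eq_of_add_eq_zero_right (two0 x)

theorem sub2 (x y : Oc F) : x - y = x + y := by
  rw [sub_eq_add_neg, neg2]

theorem com_comm2 (a b : Oc F) : com a b = com b a := by
  rw [Oct_com_swap, neg2]

theorem com_self2 (a : Oc F) : com a a = 0 := by
  unfold com
  rw [sub_self]

/-- moving factors -/
theorem mv_oc (a b r : Oc F) : a * (b * r) = b * (a * r) + com a b * r := by
  have h := alt12_oc a b r
  unfold associator at h
  have h2 := two0 (b * (a * r))
  have h3 := two0 ((b * a) * r)
  unfold com
  rw [sub_mul]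
  linear_combination (norm := module) h3 - h2 - h

theorem as12 (a b c : Oc F) : associator a b c = associator b a c := by
  rw [alt12_oc, neg2]

theorem as23 (a b c : Oc F) : associator a b c = associator a c b := by
  rw [alt23_oc, neg2]

private theorem O2_com (u w : Oc F) : com u w = jor u w := by
  unfold com jor
  rw [sub2]

private theorem O2_as_add (x y a b : Oc F) :
    associator (x + y) a b = associator x a b + associator y a b := by
  unfold associator
  simp only [add_mul]
  abel

private theorem O2_as_smul (c : F) (x a b : Oc F) :
    associator (c • x) a b = c • associator x a b := by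
  unfold associator
  simp only [smul_mul_assoc, smul_sub]

private theorem O2_as_one (a b : Oc F) : associator 1 a b = 0 := by
  unfold associator
  simp only [one_mul, sub_self]

private theorem O2_as_sub (x y a b : Oc F) :
    associator (x - y) a b = associator x a b - associator y a b := by
  unfold associator
  simp only [sub_mul]
  abel

private theorem O2_add_com (x y a : Oc F) : com (x + y) a = com x a + com y a := by
  unfold com
  rw [add_mul, mul_add]
  abel

private theorem O2_sub_com (x y a : Oc F) : com (x - y) a = com x a - com y a := by
  unfold com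
  rw [sub_mul, mul_sub]
  abel

theorem tr_com (u a w : Oc F) (hw : tt w = 0) : tt u • com a w = com a (com u w) := by
  rw [O2_com u w, com_jor_oc a u w hw]

theorem tr_ass (u w a b : Oc F) (hw : tt w = 0) : tt u • associator w a b = associator (com u w) a b := by
  rw [O2_com, jor_oc, hw, zero_smul, add_zero, O2_as_sub, O2_as_smul, O2_as_smul, O2_as_one,
    smul_zero, sub_zero]

theorem ex_c (k x j : Oc F) : tt k • com x j = tt x • com k j + com (com k x) j := by
  rw [O2_com k x, jor_oc, O2_sub_com, O2_add_com, Oct_smul_com, Oct_smul_com, Oct_smul_com, one_com,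
    smul_zero, sub_zero]
  have h := two0 (tt x • com k j)
  linear_combination (norm := module) -h

theorem ex_d (k x i j : Oc F) : tt k • associator x i j = tt x • associator k i j + associator (com k x) i j := by
  rw [O2_com k x, jor_oc, O2_as_sub, O2_as_add, O2_as_smul, O2_as_smul, O2_as_smul, O2_as_one,
    smul_zero, sub_zero]
  have h := two0 (tt x • associator k i j)
  linear_combination (norm := module) -h

private theorem O2_eq (k w : Oc F) (hw : tt w = 0) (h : tt (k * w) = 0) :
    tt k • w = com k w := by
  rw [O2_com, jor_oc, hw, zero_smul, add_zero, Oct_star_traceless hw, mul_neg, Oct_tt_neg, h,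
    neg_zero, zero_smul, sub_zero]

theorem eq_c (k j : Oc F) : tt k • com k j = com k (com k j) := by
  refine O2_eq k _ (tt_com k j) ?_
  unfold com
  rw [mul_sub, Oct_tt_sub, ← tt_assoc, ← tt_assoc, tt_comm (k * j) k, ← tt_assoc, sub_self]

theorem eq_d (k i j : Oc F) : tt k • associator k i j = com k (associator k i j) := by
  refine O2_eq k _ (tt_associator k i j) ?_
  unfold associator
  have h := (Oc.qa F).alt_left k i
  rw [mul_sub, Oct_tt_sub, ← tt_assoc, ← tt_assoc k k (i * j), ← tt_assoc (k * k) i j, h, sub_self]

theorem tt_mul2 (x y r : Oc F) : tt (x * y) • r = (tt x * tt y) • r + com x y * r + tt x • (y * r) +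
    tt y • (x * r) := by
  have hs : tt (x * star y) = tt x * tt y - tt (x * y) := by
    have h1 : star y = tt y • (1 : Oc F) - y := by rw [← add_star]; abel
    rw [h1, mul_sub, Oct_tt_sub, mul_smul_comm, mul_one, tt_smul]
    ring
  have h1 : com x y * r = tt x • (y * r) + tt y • (x * r) - (tt x * tt y - tt (x * y)) • r := by
    rw [O2_com, jor_oc, hs, sub_mul, add_mul, smul_mul_assoc, smul_mul_assoc, smul_mul_assoc,
      one_mul]
  rw [h1]
  have h2 := two0 (tt x • (y * r))
  have h3 := two0 (tt y • (x * r))
  linear_combination (norm := module) -h2 - h3

end Pool.Agent.OT
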