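import Pool.Agent.OT.RpB
import Pool.Agent.OT.O2

/-!
# Repeated letters  (module Eqc)

The same inductions as in Exc (see its doc comment) with `eq_c`, `eq_d`.
-/

set_option autoImplicit false
set_option linter.unusedSectionVars false

namespace Pool.Agent.OT

open FreeNonUnitalNonAssocAlgebra Pool.Agent.H.MP_41922c_al Pool.Agent.Smt Pool.Agent.OB Pool.Agent.OBX

variable {F : Type*} [Field F] [CharP F 2]

theorem Eqc_fac (v : ℕ → Oc F) (a : Cen) (vs : List Cen) (g : List ℕ) :
    Pv v (fac F (a :: vs) g) = vl v (cv F a) * Pv v (fac F vs g) := by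
  unfold fac
  rw [List.map_cons, List.cons_append, Pv_cons]

theorem eqc_v (v : ℕ → Oc F) (g : List ℕ) (x : ℕ) (p q : List ℕ)
    (h : Even (p ++ x :: q).length) :
    tt (v x) • Pv v (fac F (prs (p ++ x :: q)) g) = vl v (eqc g x p q) := by
  induction p using List.twoStepInduction generalizing q with
  | nil =>
    cases q with
    | nil => exact absurd h (by simp)
    | cons j q =>
      rw [List.nil_append]
      unfold prs
      unfold eqc
      rw [Eqc_fac, vl_pr, Pv_cons]
      simp only [cv]
      rw [vl_com, vl_com, vl_com, vl_of, vl_of, ← smul_mul_assoc, eq_c]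
  | singleton i =>
    rw [List.singleton_append]
    unfold prs
    unfold eqc
    rw [Eqc_fac, vl_pr, Pv_cons]
    simp only [cv]
    rw [vl_com, vl_com, vl_com, vl_of, vl_of, ← smul_mul_assoc, com_comm2 (v i) (v x), eq_c]
  | cons_cons i j l ih _ =>
    have h' : Even (l ++ x :: q).length := by
      have e : (i :: j :: l ++ x :: q).length = (l ++ x :: q).length + 2 := by simp
      rw [e] at h
      simpa [Nat.even_add] using h
    rw [List.cons_append, List.cons_append]
    unfold prs
    unfold eqc
    rw [Eqc_fac, vl_mul, ← ih q h', mul_smul_comm, vl_com]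
    simp only [cv]
    rw [vl_com]

theorem eq_v (v : ℕ → Oc F) (b : Bool) (g : List ℕ) (x : ℕ) (p q : List ℕ)
    (h : Fits b (p ++ x :: q)) :
    Tv v b g (x :: (p ++ x :: q)) = vl v (if b then eqd g x p q else eqc g x p q) := by
  cases b with
  | false =>
    have h' : Even (p ++ x :: q).length := by
      unfold Fits at h
      simpa using h.2
    have e : Tv v false g (x :: (p ++ x :: q)) =
        tt (v x) • Pv v (fac F (prs (p ++ x :: q)) g) := by
      simp [Tv, cns]
    rw [e, eqc_v v g x p q h']
    simp
  | true =>
    obtain ⟨h3, ho⟩ : 3 ≤ (p ++ x :: q).length ∧ Odd (p ++ x :: q).length := by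
      unfold Fits at h
      simpa using h
    have key : ∀ i j m : ℕ, ∀ r : List ℕ, Tv v true g (x :: i :: j :: m :: r) =
        tt (v x) • (associator (v i) (v j) (v m) * Pv v (fac F (prs r) g)) := by
      intro i j m r
      have e : Tv v true g (x :: i :: j :: m :: r) =
        tt (v x) • Pv v (fac F (.d i j m :: prs r) g) := by simp [Tv, cns]
      rw [e, Eqc_fac]
      simp only [cv]
      rw [vl_ass, vl_of, vl_of, vl_of]
    match p, q with
    | [], [] => simp at h3
    | [], [_] => simp at h3
    | [], i :: j :: q =>
      rw [List.nil_append, key]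
      simp only [if_true]
      unfold eqd
      rw [vl_pr, Pv_cons, vl_com, vl_ass, vl_of, vl_of, vl_of, ← smul_mul_assoc, eq_d]
    | [i], [] => simp at h3
    | [i], j :: q =>
      rw [List.singleton_append, key]
      simp only [if_true]
      unfold eqd
      rw [vl_pr, Pv_cons, vl_com, vl_ass, vl_of, vl_of, vl_of, ← smul_mul_assoc, as12 (v i),
        eq_d]
    | [i, j], q =>
      rw [List.cons_append, List.singleton_append, key]
      simp only [if_true]
      unfold eqd
      rw [vl_pr, Pv_cons, vl_com, vl_ass, vl_of, vl_of, vl_of, ← smul_mul_assoc,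
        as23 (v i), as12 (v i), eq_d]
    | i :: j :: m :: l, q =>
      have h' : Even (l ++ x :: q).length := by
        have e : (i :: j :: m :: l ++ x :: q).length = (l ++ x :: q).length + 3 := by simp
        rw [e] at ho
        rw [Nat.odd_add] at ho
        by_contra hc
        rw [Nat.not_even_iff_odd] at hc
        have := ho.1 hc
        exact absurd this (by decide)
      rw [List.cons_append, List.cons_append, List.cons_append, key, ← mul_smul_comm,
        eqc_v v g x l q h']
      simp only [if_true]
      unfold eqd
      rw [vl_mul, vl_ass, vl_of, vl_of, vl_of]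

end Pool.Agent.OT
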