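import Pool.Agent.OT.RpB
import Pool.Agent.OT.O2

/-!
# Exchange of the hub letter with a letter of `P(l)`  (module Exc)

`Tv v b g (k :: l) = tt (v k) • Pv v (fac F (cns b l) g)`. `exc_v`: induction on `p` by two letters (`exc` has the four cases of its
definition); `prs (p ++ x :: q)` for `p = []`, `q = j :: q'`: `.c x j :: prs q'`, use `ex_c` times `Pv v (fac F (prs q') g)`; for `p = [i]`:
`.c i x :: prs q`, `com i x = com x i`; for `p = i :: j :: p'`: the factor `com x_i x_j` in front, `tt` is a scalar. The parity of
`(p ++ x :: q).length` excludes `p = []`, `q = []`. `ex_v`: `b = false`: `exc_v`; `b = true`: the first three positions by `ex_d` (and `as12`, `as23`), then `exc_v`.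
-/

set_option autoImplicit false
set_option linter.unusedSectionVars false

namespace Pool.Agent.OT

open FreeNonUnitalNonAssocAlgebra Pool.Agent.H.MP_41922c_al Pool.Agent.Smt Pool.Agent.OB Pool.Agent.OBX

variable {F : Type*} [Field F] [CharP F 2]

private theorem Exc_c (v : ℕ → Oc F) (i j : ℕ) (vs : List Cen) (g : List ℕ) :
    Pv v (fac F (.c i j :: vs) g) = com (v i) (v j) * Pv v (fac F vs g) := by
  have e : fac F (.c i j :: vs) g = com (of F i) (of F j) :: fac F vs g := rfl
  rw [e, Pv_cons, vl_com, vl_of, vl_of]

private theorem Exc_d (v : ℕ → Oc F) (i j m : ℕ) (vs : List Cen) (g : List ℕ) :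
    Pv v (fac F (.d i j m :: vs) g) = associator (v i) (v j) (v m) * Pv v (fac F vs g) := by
  have e : fac F (.d i j m :: vs) g = associator (of F i) (of F j) (of F m) :: fac F vs g := rfl
  rw [e, Pv_cons, vl_ass, vl_of, vl_of, vl_of]

theorem exc_v (v : ℕ → Oc F) (g : List ℕ) (k : ℕ) (p : List ℕ) (x : ℕ) (q : List ℕ)
    (h : Even (p ++ x :: q).length) :
    tt (v k) • Pv v (fac F (prs (p ++ x :: q)) g) =
      tt (v x) • Pv v (fac F (prs (p ++ k :: q)) g) + vl v (exc g k p x q) := by
  match p, q, h with
  | [], [], h => simp at h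
  | [], j :: q, _ =>
    have e1 : prs ([] ++ x :: j :: q) = .c x j :: prs q := rfl
    have e2 : prs ([] ++ k :: j :: q) = .c k j :: prs q := rfl
    have e3 : exc (F := F) g k [] x (j :: q) =
        pr (com (com (of F k) (of F x)) (of F j) :: fac F (prs q) g) := by
      simp only [exc]
    rw [e1, e2, e3, Exc_c, Exc_c, vl_pr, Pv_cons, vl_com, vl_com, vl_of, vl_of, vl_of,
      ← smul_mul_assoc, ← smul_mul_assoc, ex_c (v k) (v x) (v j), add_mul]
  | [i], q, _ =>
    have e1 : prs ([i] ++ x :: q) = .c i x :: prs q := rfl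
    have e2 : prs ([i] ++ k :: q) = .c i k :: prs q := rfl
    have e3 : exc (F := F) g k [i] x q =
        pr (com (com (of F k) (of F x)) (of F i) :: fac F (prs q) g) := by
      simp only [exc]
    rw [e1, e2, e3, Exc_c, Exc_c, vl_pr, Pv_cons, vl_com, vl_com, vl_of, vl_of, vl_of,
      com_comm2 (v i) (v x), com_comm2 (v i) (v k), ← smul_mul_assoc, ← smul_mul_assoc,
      ex_c (v k) (v x) (v i), add_mul]
  | i :: j :: p, q, h =>
    have h' : Even (p ++ x :: q).length := by
      have h1 : (i :: j :: p ++ x :: q).length = (p ++ x :: q).length + 2 := by simp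
      rw [h1, Nat.even_add] at h
      exact h.2 even_two
    have e1 : prs (i :: j :: p ++ x :: q) = .c i j :: prs (p ++ x :: q) := rfl
    have e2 : prs (i :: j :: p ++ k :: q) = .c i j :: prs (p ++ k :: q) := rfl
    have e3 : exc (F := F) g k (i :: j :: p) x q =
        com (of F i) (of F j) * exc g k p x q := by
      simp only [exc]
    rw [e1, e2, e3, Exc_c, Exc_c, vl_mul, vl_com, vl_of, vl_of, ← mul_smul_comm, ← mul_smul_comm,
      exc_v v g k p x q h', mul_add]
  termination_by p.length

private theorem Exc_cns (i j m : ℕ) (l : List ℕ) :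
    cns true (i :: j :: m :: l) = .d i j m :: prs l := rfl

private theorem Exc_cnsf (l : List ℕ) : cns false l = prs l := by
  unfold cns
  rfl

theorem ex_v (v : ℕ → Oc F) (b : Bool) (g : List ℕ) (k : ℕ) (p : List ℕ) (x : ℕ) (q : List ℕ)
    (h : Fits b (p ++ x :: q)) :
    Tv v b g (k :: (p ++ x :: q)) = Tv v b g (x :: (p ++ k :: q)) + vl v (ex b g k p x q) := by
  cases b with
  | false =>
    have h1 : Even (p ++ x :: q).length := by
      have h2 := h
      simp only [Fits, Bool.false_eq_true, if_false] at h2
      exact h2.2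
    simp only [Tv, ex, Bool.false_eq_true, if_false]
    rw [Exc_cnsf, Exc_cnsf]
    exact exc_v v g k p x q h1
  | true =>
    have h1 : 3 ≤ (p ++ x :: q).length ∧ Odd (p ++ x :: q).length := by
      have h2 := h
      simp only [Fits, if_true] at h2
      exact h2
    simp only [Tv, ex, if_true]
    match p, q, h1 with
    | [], [], h1 => simp at h1
    | [], [_], h1 => simp at h1
    | [i], [], h1 => simp at h1
    | [], i :: j :: q, _ =>
      have e1 : cns true ([] ++ x :: i :: j :: q) = .d x i j :: prs q := rfl
      have e2 : cns true ([] ++ k :: i :: j :: q) = .d k i j :: prs q := rfl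
      have e3 : exd (F := F) g k [] x (i :: j :: q) =
          pr (associator (com (of F k) (of F x)) (of F i) (of F j) :: fac F (prs q) g) := by
        simp only [exd]
      rw [e1, e2, e3, Exc_d, Exc_d, vl_pr, Pv_cons, vl_ass, vl_com, vl_of, vl_of, vl_of, vl_of,
        ← smul_mul_assoc, ← smul_mul_assoc, ex_d (v k) (v x) (v i) (v j), add_mul]
    | [i], j :: q, _ =>
      have e1 : cns true ([i] ++ x :: j :: q) = .d i x j :: prs q := rfl
      have e2 : cns true ([i] ++ k :: j :: q) = .d i k j :: prs q := rfl
      have e3 : exd (F := F) g k [i] x (j :: q) =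
          pr (associator (com (of F k) (of F x)) (of F i) (of F j) :: fac F (prs q) g) := by
        simp only [exd]
      rw [e1, e2, e3, Exc_d, Exc_d, vl_pr, Pv_cons, vl_ass, vl_com, vl_of, vl_of, vl_of, vl_of,
        as12 (v i) (v x) (v j), as12 (v i) (v k) (v j),
        ← smul_mul_assoc, ← smul_mul_assoc, ex_d (v k) (v x) (v i) (v j), add_mul]
    | [i, j], q, _ =>
      have e1 : cns true ([i, j] ++ x :: q) = .d i j x :: prs q := rfl
      have e2 : cns true ([i, j] ++ k :: q) = .d i j k :: prs q := rfl
      have e3 : exd (F := F) g k [i, j] x q =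
          pr (associator (com (of F k) (of F x)) (of F i) (of F j) :: fac F (prs q) g) := by
        simp only [exd]
      rw [e1, e2, e3, Exc_d, Exc_d, vl_pr, Pv_cons, vl_ass, vl_com, vl_of, vl_of, vl_of, vl_of,
        as23 (v i) (v j) (v x), as12 (v i) (v x) (v j), as23 (v i) (v j) (v k),
        as12 (v i) (v k) (v j),
        ← smul_mul_assoc, ← smul_mul_assoc, ex_d (v k) (v x) (v i) (v j), add_mul]
    | i :: j :: m :: p, q, h1 =>
      have h' : Even (p ++ x :: q).length := by
        have h2 : (i :: j :: m :: p ++ x :: q).length = (p ++ x :: q).length + 3 := by simp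
        have h3 := h1.2
        rw [h2, Nat.odd_add] at h3
        have h4 : ¬ Even 3 := by decide
        by_contra h5
        rw [Nat.not_even_iff_odd] at h5
        exact h4 (h3.1 h5)
      have e1 : cns true (i :: j :: m :: p ++ x :: q) = .d i j m :: prs (p ++ x :: q) := rfl
      have e2 : cns true (i :: j :: m :: p ++ k :: q) = .d i j m :: prs (p ++ k :: q) := rfl
      have e3 : exd (F := F) g k (i :: j :: m :: p) x q =
          associator (of F i) (of F j) (of F m) * exc g k p x q := by
        simp only [exd]
      rw [e1, e2, e3, Exc_d, Exc_d, vl_mul, vl_ass, vl_of, vl_of, vl_of, ← mul_smul_comm,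
        ← mul_smul_comm, exc_v v g k p x q h', mul_add]

end Pool.Agent.OT
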