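import Pool.Agent.OT.Psm
import Pool.Agent.OB.Defs

/-!
# The laws  (module Fin1)

`Psi_inj`: words without `t`. `law_zero`: every law instance vanishes at `x_i ↦ v i`,
`t_i ↦ t(v i)`; `iv` is mapped to `star` (`add_star`, `mul_star`; a scalar commutes and associates with everything). Every characteristic.
-/

set_option autoImplicit false
set_option linter.unusedSectionVars false

namespace Pool.Agent.OT

open FreeNonUnitalNonAssocAlgebra Pool.Agent.H.MP_41922c_al Pool.Agent.Smt Pool.Agent.OB Pool.Agent.OBX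

variable {F : Type*} [Field F]

variable (F) in
/-- the polynomials without `t_i` -/
noncomputable def inj : FA F →ₙₐ[F] FreeNonUnitalNonAssocAlgebra F (ℕ ⊕ ℕ) :=
  lift F (fun i => of F (Sum.inl i))

/-- the value at `x_i ↦ v i`, `t_i ↦ t(v i)` -/
noncomputable abbrev vt (v : ℕ → Oc F) (f : FreeNonUnitalNonAssocAlgebra F (ℕ ⊕ ℕ)) : Oc F :=
  lift F (Sum.elim v (fun i => tt (v i) • (1 : Oc F))) f

/-- a word as a word in `x_i` -/
def Fin1_w : FreeMagma ℕ → FreeMagma (ℕ ⊕ ℕ)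
  | .of i => .of (Sum.inl i)
  | .mul u v => .mul (Fin1_w u) (Fin1_w v)

theorem Fin1_xl (w : FreeMagma ℕ) : xl (Fin1_w w) = some w := by
  induction w with
  | ih1 a => rfl
  | ih2 u v hu hv =>
    show xl (.mul (Fin1_w u) (Fin1_w v)) = some (.mul u v)
    rw [xl, hu, hv]

theorem Fin1_tl (w : FreeMagma ℕ) : tl (Fin1_w w) = [] := by
  induction w with
  | ih1 a => rfl
  | ih2 u v hu hv =>
    show tl (.mul (Fin1_w u) (Fin1_w v)) = []
    rw [tl, hu, hv, List.append_nil]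

theorem Fin1_inj (w : FreeMagma ℕ) : inj F (mo F w) = mo F (Fin1_w w) := by
  induction w with
  | ih1 a =>
    show inj F (of F a) = of F (Sum.inl a)
    exact lift_of_apply F _ a
  | ih2 u v hu hv =>
    show inj F (mo F u * mo F v) = mo F (Fin1_w u) * mo F (Fin1_w v)
    rw [map_mul, hu, hv]

theorem Psi_inj (f : FA F) : Psi F (inj F f) = f := by
  refine Words_ind (p := fun f : FA F => Psi F (inj F f) = f) ?_ ?_ ?_ ?_ f
  · rw [map_zero, map_zero]
  · intro f g hf hg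
    rw [map_add, map_add, hf, hg]
  · intro k f hf
    rw [map_smul, map_smul, hf]
  · intro w
    rw [Fin1_inj, Psi, linMo_mo, psiW, Fin1_xl, Fin1_tl]

theorem Fin1_iv_zero : iv (0 : FreeNonUnitalNonAssocAlgebra F (ℕ ⊕ ℕ)) = 0 := by
  unfold iv
  rw [map_zero]
  rfl

theorem Fin1_iv_add (f g : FreeNonUnitalNonAssocAlgebra F (ℕ ⊕ ℕ)) :
    iv (f + g) = iv f + iv g := by
  unfold iv
  rw [map_add]
  rfl

theorem Fin1_iv_smul (c : F) (f : FreeNonUnitalNonAssocAlgebra F (ℕ ⊕ ℕ)) :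
    iv (c • f) = c • iv f := by
  unfold iv
  rw [map_smul]
  rfl

theorem Fin1_iv_mul (f g : FreeNonUnitalNonAssocAlgebra F (ℕ ⊕ ℕ)) :
    iv (f * g) = iv g * iv f := by
  unfold iv
  rw [map_mul]
  rfl

theorem Fin1_iv_inl (i : ℕ) : iv (of F (Sum.inl i) : FreeNonUnitalNonAssocAlgebra F (ℕ ⊕ ℕ)) =
    of F (Sum.inr i) - of F (Sum.inl i) := by
  unfold iv ivHom
  rw [lift_of_apply]
  rfl

theorem Fin1_iv_inr (i : ℕ) : iv (of F (Sum.inr i) : FreeNonUnitalNonAssocAlgebra F (ℕ ⊕ ℕ)) =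
    of F (Sum.inr i) := by
  unfold iv ivHom
  rw [lift_of_apply]
  rfl

theorem Fin1_vt_zero (v : ℕ → Oc F) : vt v (0 : FreeNonUnitalNonAssocAlgebra F (ℕ ⊕ ℕ)) = 0 :=
  map_zero (lift F (Sum.elim v (fun i => tt (v i) • (1 : Oc F))))

theorem Fin1_vt_add (v : ℕ → Oc F) (f g : FreeNonUnitalNonAssocAlgebra F (ℕ ⊕ ℕ)) :
    vt v (f + g) = vt v f + vt v g :=
  map_add (lift F (Sum.elim v (fun i => tt (v i) • (1 : Oc F)))) f g

theorem Fin1_vt_sub (v : ℕ → Oc F) (f g : FreeNonUnitalNonAssocAlgebra F (ℕ ⊕ ℕ)) :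
    vt v (f - g) = vt v f - vt v g :=
  map_sub (lift F (Sum.elim v (fun i => tt (v i) • (1 : Oc F)))) f g

theorem Fin1_vt_mul (v : ℕ → Oc F) (f g : FreeNonUnitalNonAssocAlgebra F (ℕ ⊕ ℕ)) :
    vt v (f * g) = vt v f * vt v g :=
  map_mul (lift F (Sum.elim v (fun i => tt (v i) • (1 : Oc F)))) f g

theorem Fin1_vt_smul (v : ℕ → Oc F) (c : F) (f : FreeNonUnitalNonAssocAlgebra F (ℕ ⊕ ℕ)) :
    vt v (c • f) = c • vt v f :=
  map_smul (lift F (Sum.elim v (fun i => tt (v i) • (1 : Oc F)))) c f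

theorem Fin1_inl (v : ℕ → Oc F) (i : ℕ) : vt v (of F (Sum.inl i)) = v i :=
  lift_of_apply F _ _

theorem Fin1_inr (v : ℕ → Oc F) (i : ℕ) : vt v (of F (Sum.inr i)) = tt (v i) • (1 : Oc F) :=
  lift_of_apply F _ _

theorem Fin1_star_one : star (1 : Oc F) = 1 := by
  ext <;> simp

theorem Fin1_star (v : ℕ → Oc F) (f : FreeNonUnitalNonAssocAlgebra F (ℕ ⊕ ℕ)) :
    vt v (iv f) = star (vt v f) := by
  refine Words_ind (p := fun f : FreeNonUnitalNonAssocAlgebra F (ℕ ⊕ ℕ) =>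
    vt v (iv f) = star (vt v f)) ?_ ?_ ?_ ?_ f
  · rw [Fin1_iv_zero, Fin1_vt_zero, star_zero]
  · intro f g hf hg
    rw [Fin1_iv_add, Fin1_vt_add, Fin1_vt_add, hf, hg, StarAddMonoid.star_add]
  · intro k f hf
    rw [Fin1_iv_smul, Fin1_vt_smul, Fin1_vt_smul, hf, star_smul_oc]
  · intro w
    induction w with
    | ih1 a =>
      rcases a with i | i
      · show vt v (iv (of F (Sum.inl i))) = star (vt v (of F (Sum.inl i)))
        rw [Fin1_iv_inl, Fin1_vt_sub, Fin1_inl, Fin1_inr, ← add_star (v i)]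
        abel
      · show vt v (iv (of F (Sum.inr i))) = star (vt v (of F (Sum.inr i)))
        rw [Fin1_iv_inr, Fin1_inr, star_smul_oc, Fin1_star_one]
    | ih2 a b ha hb =>
      show vt v (iv (mo F a * mo F b)) = star (vt v (mo F a * mo F b))
      rw [Fin1_iv_mul, Fin1_vt_mul, Fin1_vt_mul, ha, hb, StarMul.star_mul]

theorem Fin1_com (v : ℕ → Oc F) (f g : FreeNonUnitalNonAssocAlgebra F (ℕ ⊕ ℕ)) :
    vt v (com f g) = com (vt v f) (vt v g) := by
  unfold com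
  rw [Fin1_vt_sub, Fin1_vt_mul, Fin1_vt_mul]

theorem Fin1_asc (v : ℕ → Oc F) (f g h : FreeNonUnitalNonAssocAlgebra F (ℕ ⊕ ℕ)) :
    vt v (associator f g h) = associator (vt v f) (vt v g) (vt v h) := by
  unfold associator
  rw [Fin1_vt_sub, Fin1_vt_mul, Fin1_vt_mul, Fin1_vt_mul, Fin1_vt_mul]

theorem Fin1_sc_com (c : F) (x : Oc F) : com (c • (1 : Oc F)) x = 0 := by
  rw [Oct_smul_com, one_com, smul_zero]

theorem Fin1_sc_asc (c : F) (x y : Oc F) : associator (c • (1 : Oc F)) x y = 0 := by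
  unfold associator
  rw [smul_mul_assoc, smul_mul_assoc, smul_mul_assoc, one_mul, one_mul, sub_self]

theorem Fin1_norm (x : Oc F) : x * star x = (x * star x).m₁ • (1 : Oc F) := by
  ext <;> simp <;> ring

theorem law_zero {f : FreeNonUnitalNonAssocAlgebra F (ℕ ⊕ ℕ)} (hf : IsLaw F f) (v : ℕ → Oc F) :
    vt v f = 0 := by
  induction hf with
  | altL a b =>
    rw [Fin1_asc, associator, (Oc.qa F).alt_left, sub_self]
  | altR a b =>
    rw [Fin1_asc, associator, (Oc.qa F).alt_right, sub_self]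
  | altL' a b c =>
    rw [Fin1_vt_add, Fin1_asc, Fin1_asc, alt12_oc, neg_add_cancel]
  | altR' a b c =>
    rw [Fin1_vt_add, Fin1_asc, Fin1_asc, alt23_oc, neg_add_cancel]
  | trC a b =>
    rw [Fin1_com, Fin1_vt_add, Fin1_star, add_star, Fin1_sc_com]
  | trA a b c =>
    rw [Fin1_asc, Fin1_vt_add, Fin1_star, add_star, Fin1_sc_asc]
  | nC a b =>
    rw [Fin1_com, Fin1_vt_mul, Fin1_star, Fin1_norm, Fin1_sc_com]
  | nA a b c =>
    rw [Fin1_asc, Fin1_vt_mul, Fin1_star, Fin1_norm, Fin1_sc_asc]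
  | left a f _ ih => rw [Fin1_vt_mul, ih, mul_zero]
  | right a f _ ih => rw [Fin1_vt_mul, ih, zero_mul]

end Pool.Agent.OT
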