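import Pool.Agent.OT.Val
import Pool.Agent.OM.Ring
import Pool.Agent.OM.Com

/-!
# The complement has no polynomials  (module Inf, helper77)

In fact the elements `IsC` are linearly independent modulo the polynomial functions; this is proved with the models (folder OM).
-/

set_option autoImplicit false
set_option linter.unusedSectionVars false

namespace Pool.Agent.OT

open FreeNonUnitalNonAssocAlgebra Pool.Agent.H.MP_41922c_al Pool.Agent.Smt Pool.Agent.OB Pool.Agent.OBX
open Pool.Agent.OM

section

variable {F : Type*} [Field F]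

/-- the right-nested product -/
noncomputable def prB : List (FB F) → FB F
  | [] => 0
  | [a] => a
  | a :: b :: l => a * prB (b :: l)

variable (F) in
/-- the polynomial of a `t_K x_G` -/
noncomputable def PT (K G : Multiset ℕ) : FB F :=
  prB ((K.sort (· ≤ ·)).map (fun i => of F (Sum.inr i)) ++ (G.sort (· ≤ ·)).map (fun i => of F (Sum.inl i)))

variable (F) in
/-- the polynomial of `t_k v_1 .. v_m (g)` -/
noncomputable def PS : List ℕ → Multiset ℕ → FB F
  | [], _ => 0
  | k :: l, G => of F (Sum.inr k) * eml F (pr (fac F (cns (decide (Odd l.length)) l) (G.sort (· ≤ ·))))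

/-! ### values -/

theorem evt_eml (f : FA F) (v : ℕ → Oc F) : evt F (eml F f) v = vl v f := by
  have h : (Kill_at v).comp ((evt F).comp (eml F)) = lift F v := by
    refine hom_ext _ fun i => ?_
    rw [NonUnitalAlgHom.comp_apply, NonUnitalAlgHom.comp_apply, eml, lift_of_apply, evt, lift_of_apply, lift_of_apply]
    rfl
  exact DFunLike.congr_fun h f

theorem evt_inr (k : ℕ) (v : ℕ → Oc F) : evt F (of F (Sum.inr k)) v = tt (v k) • (1 : Oc F) := by
  rw [evt, lift_of_apply, ← add_star]
  rfl

theorem evt_inl (k : ℕ) (v : ℕ → Oc F) : evt F (of F (Sum.inl k)) v = v k := by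
  rw [evt, lift_of_apply]
  rfl

theorem Pv_pr (v : ℕ → Oc F) (l : List (FA F)) (hl : l ≠ []) : vl v (pr l) = Pv v l := by
  induction l with
  | nil => exact absurd rfl hl
  | cons a l ih =>
    rcases l with _ | ⟨b, l⟩
    · show vl v a = vl v a * 1
      rw [mul_one]
    · show vl v (a * pr (b :: l)) = vl v a * Pv v (b :: l)
      rw [← ih (by simp), vl, map_mul]

theorem evt_prB (v : ℕ → Oc F) (l : List (FB F)) (hl : l ≠ []) :
    evt F (prB l) v = l.foldr (fun a r => evt F a v * r) 1 := by
  induction l with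
  | nil => exact absurd rfl hl
  | cons a l ih =>
    rcases l with _ | ⟨b, l⟩
    · show evt F a v = evt F a v * 1
      rw [mul_one]
    · show evt F (a * prB (b :: l)) v = evt F a v * _
      rw [map_mul]
      show evt F a v * evt F (prB (b :: l)) v = _
      rw [ih (by simp)]

theorem evt_PT (K G : Multiset ℕ) (hK : K ≠ 0) (v : ℕ → Oc F) :
    evt F (PT F K G) v = (K.map fun i => tt (v i)).prod • Pv v ((G.sort (· ≤ ·)).map (of F)) := by
  have h1 : ∀ (L : List ℕ) (z : Oc F), (L.map (fun i => of F (Sum.inr i))).foldr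
      (fun (a : FB F) (r : Oc F) => evt F a v * r) z = (L.map fun i => tt (v i)).prod • z := by
    intro L z
    induction L with
    | nil => rw [List.map_nil, List.foldr_nil, List.map_nil, List.prod_nil, one_smul]
    | cons i L ih =>
      rw [List.map_cons, List.foldr_cons, ih, evt_inr, smul_mul_assoc, one_mul, smul_smul, List.map_cons,
        List.prod_cons]
  have h2 : ∀ L : List ℕ, (L.map (fun i => of F (Sum.inl i))).foldr
      (fun (a : FB F) (r : Oc F) => evt F a v * r) 1 = Pv v (L.map (of F)) := by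
    intro L
    induction L with
    | nil => rfl
    | cons i L ih =>
      rw [List.map_cons, List.foldr_cons, ih, evt_inl]
      show v i * Pv v (L.map (of F)) = vl v (of F i) * Pv v (L.map (of F))
      rw [vl, lift_of_apply]
  rw [PT, evt_prB, List.foldr_append, h2, h1, ← Multiset.prod_coe, ← Multiset.map_coe, Multiset.sort_eq]
  intro h
  rw [List.append_eq_nil_iff, List.map_eq_nil_iff] at h
  apply hK
  rw [← Multiset.sort_eq K (· ≤ ·), h.1]
  rfl

theorem fac_ne {l : List ℕ} (h2 : 2 ≤ l.length) (g : List ℕ) :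
    fac F (cns (decide (Odd l.length)) l) g ≠ [] := by
  rcases l with _ | ⟨i, _ | ⟨j, _ | ⟨k, l⟩⟩⟩
  · simp at h2
  · simp at h2
  · simp [fac, cns, prs]
  · by_cases h : Odd (i :: j :: k :: l).length
    · rw [decide_eq_true h]
      exact List.cons_ne_nil _ _
    · rw [decide_eq_false h]
      exact List.cons_ne_nil _ _

theorem evt_PS (k : ℕ) (l : List ℕ) (h2 : 2 ≤ l.length) (G : Multiset ℕ) (v : ℕ → Oc F) :
    evt F (PS F (k :: l) G) v
      = tt (v k) • Pv v (fac F (cns (decide (Odd l.length)) l) (G.sort (· ≤ ·))) := by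
  rw [PS, map_mul]
  show evt F (of F (Sum.inr k)) v * evt F (eml F _) v = _
  rw [evt_inr, evt_eml, smul_mul_assoc, one_mul, Pv_pr _ _ (fac_ne h2 _)]

/-- the indices -/
inductive Ix
  | t (K G : Multiset ℕ) (hK : K ≠ 0)
  | s (l : List ℕ) (G : Multiset ℕ) (hl : l.Pairwise (· < ·)) (h3 : 3 ≤ l.length)

variable (F) in
/-- the polynomials -/
noncomputable def PI : Ix → FB F
  | .t K G _ => PT F K G
  | .s l G _ _ => PS F l G

theorem IsC_PI {f : (ℕ → Oc F) → Oc F} (hf : IsC f) : ∃ i, f = evt F (PI F i) := by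
  cases hf with
  | t K g hK hg =>
    refine ⟨.t (K : Multiset ℕ) (g : Multiset ℕ) (by simpa using hK), ?_⟩
    funext v
    rw [PI, evt_PT _ _ (by simpa using hK), Multiset.map_coe, Multiset.prod_coe]
    have h1 : (g : Multiset ℕ).sort (· ≤ ·) = g := by
      rw [Multiset.coe_sort]
      exact List.mergeSort_of_pairwise (by simpa using hg)
    rw [h1]
    rfl
  | s k l g hl h2 hg =>
    refine ⟨.s (k :: l) (g : Multiset ℕ) hl (by simp; omega), ?_⟩
    funext v
    rw [PI, evt_PS _ _ h2]
    have h1 : (g : Multiset ℕ).sort (· ≤ ·) = g := by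
      rw [Multiset.coe_sort]
      exact List.mergeSort_of_pairwise (by simpa using hg)
    rw [h1]

end

section

variable {F : Type*} [Field F]

theorem Pc_prB (l : List (FB F)) (hl : l ≠ []) : Pc F (prB l) = (l.map (Pc F)).prod := by
  induction l with
  | nil => exact absurd rfl hl
  | cons a l ih =>
    rcases l with _ | ⟨b, l⟩
    · simp [prB]
    · show Pc F (a * prB (b :: l)) = (Pc F a :: (b :: l).map (Pc F)).prod
      rw [map_mul, ih (by simp), List.prod_cons]

theorem Pc_PT (K G : Multiset ℕ) (hK : K ≠ 0) :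
    Pc F (PT F K G) = MvPolynomial.monomial (exC K G) 1 := by
  have h1 : ∀ L : List ℕ, (L.map (fun i => (MvPolynomial.X (Sum.inr i) : PC F))).prod
      = MvPolynomial.monomial (exC (L : Multiset ℕ) 0) 1 := by
    intro L
    induction L with
    | nil => simp [exC]
    | cons i L ih =>
      rw [List.map_cons, List.prod_cons, ih, MvPolynomial.X, MvPolynomial.monomial_mul, mul_one]
      congr 1
      simp only [exC, Multiset.map_zero, zero_add]
      rw [← Multiset.cons_coe, Multiset.map_cons, ← Multiset.singleton_add, map_add, Multiset.toFinsupp_singleton]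
  have h2 : ∀ L : List ℕ, (L.map (fun i => (MvPolynomial.X (Sum.inl i) : PC F))).prod
      = MvPolynomial.monomial (exC 0 (L : Multiset ℕ)) 1 := by
    intro L
    induction L with
    | nil => simp [exC]
    | cons i L ih =>
      rw [List.map_cons, List.prod_cons, ih, MvPolynomial.X, MvPolynomial.monomial_mul, mul_one]
      congr 1
      simp only [exC, Multiset.map_zero, add_zero]
      rw [← Multiset.cons_coe, Multiset.map_cons, ← Multiset.singleton_add, map_add, Multiset.toFinsupp_singleton]
  have h3 : exC K G = exC K 0 + exC 0 G := by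
    rw [exC, exC, exC, ← map_add]
    congr 1
    simp [add_comm]
  have h4 : ∀ s, Pc F (of F s) = MvPolynomial.X s := fun s => by rw [Pc, lift_of_apply]
  rw [PT, Pc_prB, List.map_append, List.map_map, List.map_map, List.prod_append]
  · have h5 : (Pc F : FB F → PC F) ∘ (fun i => of F (Sum.inr i)) = fun i => MvPolynomial.X (Sum.inr i) :=
      funext fun i => h4 _
    have h6 : (Pc F : FB F → PC F) ∘ (fun i => of F (Sum.inl i)) = fun i => MvPolynomial.X (Sum.inl i) :=
      funext fun i => h4 _
    rw [h5, h6, h1, h2, Multiset.sort_eq, Multiset.sort_eq, h3, MvPolynomial.monomial_mul, mul_one]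
  · intro h
    rw [List.append_eq_nil_iff, List.map_eq_nil_iff] at h
    apply hK
    rw [← Multiset.sort_eq K (· ≤ ·), h.1]
    rfl

theorem Pc_cv (c : Cen) : Pc F (eml F (cv F c)) = 0 := by
  cases c with
  | c i j =>
    rw [cv, com, map_sub, map_sub, map_mul, map_mul, map_mul, map_mul, mul_comm, sub_self]
  | d i j k =>
    rw [cv, associator, map_sub, map_sub, map_mul, map_mul, map_mul, map_mul, map_mul, map_mul, map_mul, map_mul,
      mul_assoc, sub_self]

theorem Pc_fac (c : Cen) (vs : List Cen) (g : List ℕ) : Pc F (eml F (pr (fac F (c :: vs) g))) = 0 := by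
  have h1 : fac F (c :: vs) g = cv F c :: fac F vs g := rfl
  rw [h1]
  rcases fac F vs g with _ | ⟨b, l⟩
  · exact Pc_cv c
  · show Pc F (eml F (cv F c * pr (b :: l))) = 0
    rw [map_mul, map_mul, Pc_cv, zero_mul]

theorem cns_ne {l : List ℕ} (h2 : 2 ≤ l.length) : ∃ c vs, cns (decide (Odd l.length)) l = c :: vs := by
  rcases l with _ | ⟨i, _ | ⟨j, _ | ⟨k, l⟩⟩⟩
  · simp at h2
  · simp at h2
  · exact ⟨.c i j, [], by cases decide (Odd [i, j].length) <;> rfl⟩
  · by_cases h : Odd (i :: j :: k :: l).length
    · rw [decide_eq_true h]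
      exact ⟨_, _, rfl⟩
    · rw [decide_eq_false h]
      exact ⟨_, _, rfl⟩

theorem Pc_PS {l : List ℕ} (h3 : 3 ≤ l.length) (G : Multiset ℕ) : Pc F (PS F l G) = 0 := by
  rcases l with _ | ⟨k, l⟩
  · simp at h3
  · obtain ⟨c, vs, h⟩ := cns_ne (l := l) (by simp at h3; omega)
    rw [PS, map_mul, h, Pc_fac, mul_zero]

end

section

variable (F : Type*) [Field F] [CharP F 2]

/-- the value of a `Cen` -/
noncomputable def wR (F : Type*) [Field F] : Cen → R0 F
  | .c i j => e0 F i * e0 F j
  | .d i j k => (lam0 F ^ 2 + 1) * lam0 F * (e0 F i * (e0 F j * e0 F k))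

/-- the set of the variables -/
def TS (l : List ℕ) : Finset (Option ℕ) :=
  (if Odd l.tail.length then {none} else ∅) ∪ l.toFinset.map Function.Embedding.some

theorem Ps_cv (c : Cen) : Ps0 F (eml F (cv F c)) = wR F c • rp0 F [] := by
  have h : ∀ i, Ps0 F (eml F (of F i)) = XF F (e0 F) (lam0 F) (R0_two F) (e0_sq F) i := fun i => by
    rw [eml, lift_of_apply, Ps_inl]
  cases c with
  | c i j =>
    rw [cv, com, map_sub, map_sub, map_mul, map_mul, map_mul, map_mul, h, h]
    exact com_XF F _ _ _ _ i j
  | d i j k =>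
    rw [cv, associator, map_sub, map_sub, map_mul, map_mul, map_mul, map_mul, map_mul, map_mul, map_mul, map_mul,
      h, h, h]
    exact asc_XF F _ _ _ _ (lam_four F) i j k

theorem Ps_g (g : List ℕ) (hg : g ≠ []) : Ps0 F (eml F (pr (g.map (of F)))) = rp0 F g := by
  have h : ∀ i, Ps0 F (eml F (of F i)) = XF F (e0 F) (lam0 F) (R0_two F) (e0_sq F) i := fun i => by
    rw [eml, lift_of_apply, Ps_inl]
  induction g with
  | nil => exact absurd rfl hg
  | cons i g ih =>
    rcases g with _ | ⟨j, g⟩
    · show Ps0 F (eml F (of F i)) = _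
      rw [h, rp0, rpM, rpM, mulOne]
    · show Ps0 F (eml F (of F i * pr ((j :: g).map (of F)))) = _
      rw [map_mul, map_mul, h, ih (by simp)]
      rfl

theorem Ps_fac (vs : List Cen) (g : List ℕ) (h : fac F vs g ≠ []) :
    Ps0 F (eml F (pr (fac F vs g))) = (vs.map (wR F)).prod • rp0 F g := by
  induction vs with
  | nil =>
    have h1 : fac F [] g = g.map (of F) := rfl
    rw [h1] at h ⊢
    rw [List.map_nil, List.prod_nil, one_smul, Ps_g F g (by simpa using h)]
  | cons c vs ih =>
    have h1 : fac F (c :: vs) g = cv F c :: fac F vs g := rfl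
    rw [h1, List.map_cons, List.prod_cons]
    by_cases h2 : fac F vs g = []
    · rw [h2]
      show Ps0 F (eml F (cv F c)) = _
      rw [fac, List.append_eq_nil_iff, List.map_eq_nil_iff, List.map_eq_nil_iff] at h2
      rw [h2.1, h2.2, Ps_cv, List.map_nil, List.prod_nil, mul_one]
    · have h3 : pr (cv F c :: fac F vs g) = cv F c * pr (fac F vs g) := by
        rcases h4 : fac F vs g with _ | ⟨b, l⟩
        · exact absurd h4 h2
        · rfl
      rw [h3, map_mul, map_mul, Ps_cv, ih h2, smul_mul_assoc, mul_smul_comm, smul_smul, rp0, rpM, oneMul]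

end

section

variable (F : Type*) [Field F]

theorem wR_prs : ∀ l : List ℕ, Even l.length → ((prs l).map (wR F)).prod
    = algebraMap (Q0 F) (R0 F) (l.map (fun i => OM.ex F (some i))).prod
  | [], _ => by
    show (1 : R0 F) = _
    rw [List.map_nil, List.prod_nil, map_one]
  | [_], h => by simp at h
  | i :: j :: l, h => by
    have h1 : Even l.length := by
      simpa [Nat.even_add_one] using h
    show (wR F (.c i j) :: (prs l).map (wR F)).prod = _
    rw [List.prod_cons, wR_prs l h1, List.map_cons, List.map_cons, List.prod_cons, List.prod_cons, map_mul, map_mul,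
      ← mul_assoc]
    rfl

variable [CharP F 2]

theorem wR_cns (l : List ℕ) (h2 : 2 ≤ l.length) : ((cns (decide (Odd l.length)) l).map (wR F)).prod
    = algebraMap (Q0 F) (R0 F) ((if Odd l.length then OM.ex F none else 1) * (l.map (fun i => OM.ex F (some i))).prod) := by
  by_cases h : Odd l.length
  · rw [decide_eq_true h, if_pos h]
    rcases l with _ | ⟨i, _ | ⟨j, _ | ⟨k, l⟩⟩⟩
    · simp at h2
    · simp at h2
    · exact absurd h (by simp)
    · have h1 : Even l.length := by
        simpa [Nat.odd_add_one, Nat.even_add_one] using h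
      show (wR F (.d i j k) :: (prs l).map (wR F)).prod = _
      rw [List.prod_cons, wR_prs F l h1, wR, lam_eta]
      simp only [List.map_cons, List.prod_cons, map_mul]
      rw [e0, e0, e0]
      ring
  · have h1 : Even l.length := Nat.not_odd_iff_even.1 h
    rw [decide_eq_false h, if_neg h, one_mul, ← wR_prs F l h1]
    rcases l with _ | ⟨i, _ | ⟨j, _ | ⟨k, l⟩⟩⟩ <;> rfl

theorem prod_TS (k : ℕ) (l : List ℕ) (hl : (k :: l).Pairwise (· < ·)) : ∏ o ∈ TS (k :: l), OM.ex F o
    = OM.ex F (some k) * ((if Odd l.length then OM.ex F none else 1) * (l.map (fun i => OM.ex F (some i))).prod) := by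
  have h1 : (k :: l).Nodup := hl.imp (fun h => ne_of_lt h)
  have h2 : ∏ o ∈ (k :: l).toFinset.map Function.Embedding.some, OM.ex F o
      = ((k :: l).map (fun i => OM.ex F (some i))).prod := by
    rw [Finset.prod_map, List.prod_toFinset _ h1]
    rfl
  rw [TS, Finset.prod_union, h2, List.map_cons, List.prod_cons, List.tail_cons]
  · by_cases h : Odd l.length
    · rw [if_pos h, if_pos h, Finset.prod_singleton]
      ring
    · rw [if_neg h, if_neg h, Finset.prod_empty]
      ring
  · rw [Finset.disjoint_left]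
    intro o ho ho'
    split_ifs at ho
    · rw [Finset.mem_singleton] at ho
      rw [ho] at ho'
      simp at ho'
    · simp at ho

theorem Ps_PS (l : List ℕ) (hl : l.Pairwise (· < ·)) (h3 : 3 ≤ l.length) (G : Multiset ℕ) :
    Ps0 F (PS F l G) = (lam0 F * algebraMap (Q0 F) (R0 F) (∏ o ∈ TS l, OM.ex F o)) • rp0 F (G.sort (· ≤ ·)) := by
  rcases l with _ | ⟨k, l⟩
  · simp at h3
  · have h2 : 2 ≤ l.length := by simp at h3; omega
    rw [PS, map_mul, Ps0, Ps_inr, Ps_fac F _ _ (fac_ne h2 _), wR_cns F l h2, prod_TS F k l hl, smul_mul_assoc,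
      mul_smul_comm, smul_smul, oneMul, map_mul _ (OM.ex F (some k)), ← mul_assoc]
    rfl

theorem TS_inj {l l' : List ℕ} (hl : l.Pairwise (· < ·)) (hl' : l'.Pairwise (· < ·)) (h : TS l = TS l') :
    l = l' := by
  have h1 : l.toFinset = l'.toFinset := by
    ext n
    have h2 := Finset.ext_iff.1 h (some n)
    have h3 : ∀ L : List ℕ, some n ∈ TS L ↔ n ∈ L.toFinset := by
      intro L
      rw [TS, Finset.mem_union]
      constructor
      · rintro (h | h)
        · split_ifs at h <;> simp at h
        · simpa using h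
      · intro h
        right
        simpa using h
    rw [h3, h3] at h2
    exact h2
  have h4 : ∀ L : List ℕ, L.Pairwise (· < ·) → L.toFinset.sort (· ≤ ·) = L := by
    intro L hL
    exact (List.toFinset_sort (· ≤ ·) (hL.imp (fun h => ne_of_lt h))).2 (hL.imp (fun h => le_of_lt h))
  rw [← h4 l hl, ← h4 l' hl', h1]

end

section

variable {F : Type*} [Field F]

/-- `K` -/
def Ix.K : Ix → Multiset ℕ
  | .t K _ _ => K
  | .s _ _ _ _ => 0

/-- `G` -/
def Ix.G : Ix → Multiset ℕ
  | .t _ G _ => G
  | .s _ G _ _ => G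

/-- `T` -/
def Ix.T : Ix → Finset (Option ℕ)
  | .t _ _ _ => ∅
  | .s l _ _ _ => TS l

/-- the elements `IsC` are independent modulo the polynomial functions, so no polynomial function is in the complement -/
theorem Cmp_inf [Infinite F] [CharP F 2] {f : FA F} (h : (fun v : ℕ → Oc F => vl v f) ∈ Cmp F) :
    ∀ v : ℕ → Oc F, vl v f = 0 := by
  have h0 : (fun v : ℕ → Oc F => vl v f) = evt F (eml F f) := funext fun v => (evt_eml f v).symm
  have h1 : Cmp F ≤ Submodule.span F (Set.range fun i => evt F (PI F i)) := by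
    refine Submodule.span_le.2 fun g hg => ?_
    obtain ⟨i, hi⟩ := IsC_PI hg
    exact Submodule.subset_span ⟨i, hi.symm⟩
  have h2 := h1 h
  rw [h0, Finsupp.mem_span_range_iff_exists_finsupp] at h2
  obtain ⟨c, hc⟩ := h2
  have h3 : evt F (c.sum fun i a => a • PI F i) = evt F (eml F f) := by
    rw [← hc, Finsupp.sum, Finsupp.sum, map_sum]
    exact Finset.sum_congr rfl fun i _ => map_smul _ _ _
  have h4 := indepC F c {i : Ix | ∃ K G hK, i = .t K G hK} Ix.K Ix.G (by
    rintro _ ⟨K, G, hK, rfl⟩
    exact hK) (by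
    rintro _ ⟨K, G, hK, rfl⟩ _ ⟨K', G', hK', rfl⟩ h5 h6
    simp only [Ix.K, Ix.G] at h5 h6
    subst h5
    subst h6
    rfl) (PI F) (by
    rintro _ ⟨K, G, hK, rfl⟩
    exact Pc_PT K G hK) (by
    intro i hi
    cases i with
    | t K G hK => exact absurd ⟨K, G, hK, rfl⟩ hi
    | s l G hl h3 => exact Pc_PS h3 G) f h3
  have h5 : c = 0 := by
    refine indep F c Ix.T Ix.G ?_ (PI F) ?_ f h3
    · intro i hi j hj h5 h6
      cases i with
      | t K G hK => exact absurd (h4 _ ⟨K, G, hK, rfl⟩) (Finsupp.mem_support_iff.1 hi)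
      | s l G hl h3 =>
        cases j with
        | t K G hK => exact absurd (h4 _ ⟨K, G, hK, rfl⟩) (Finsupp.mem_support_iff.1 hj)
        | s l' G' hl' h3' =>
          simp only [Ix.T, Ix.G] at h5 h6
          have h7 := TS_inj hl hl' h5
          subst h7
          subst h6
          rfl
    · intro i hi
      cases i with
      | t K G hK => exact absurd (h4 _ ⟨K, G, hK, rfl⟩) (Finsupp.mem_support_iff.1 hi)
      | s l G hl h3 => exact Ps_PS F l hl h3 G
  intro v
  have h6 : evt F (eml F f) = 0 := by
    rw [← hc, h5]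
    rfl
  rw [← evt_eml, h6]
  rfl

end

end Pool.Agent.OT
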