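import Pool.Agent.OT.Law
import Pool.Agent.OT.Fin1
import Pool.Agent.OB.Ids

/-!
# The laws span the identities  (module Law2)
-/

set_option autoImplicit false
set_option linter.unusedSectionVars false

namespace Pool.Agent.OT

open FreeNonUnitalNonAssocAlgebra Pool.Agent.H.MP_41922c_al Pool.Agent.Smt Pool.Agent.OB Pool.Agent.OBX

variable {F : Type*} [Field F]

theorem isLaw_of {g : FreeNonUnitalNonAssocAlgebra F (ℕ ⊕ ℕ)} (h : IsLawT F g) : IsLaw F g := by
  induction h with
  | altLd u v => exact IsLaw.altL u v
  | altRd u v => exact IsLaw.altR u v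
  | altL u v w => exact IsLaw.altL' u v w
  | altR u v w => exact IsLaw.altR' u v w
  | trC u v => exact IsLaw.trC u v
  | trA u v w => exact IsLaw.trA u v w
  | nmC u v => exact IsLaw.nC u v
  | nmA u v w => exact IsLaw.nA u v w
  | left u f _ ih => exact IsLaw.left u f ih
  | right u f _ ih => exact IsLaw.right u f ih

/-- every identity of the octonions is a combination of law instances -/
theorem law_spanI [Infinite F] {f : FA F} (hf : Id F f) :
    inj F f ∈ Submodule.span F {g | IsLaw F g} := by
  have h1 : ev F f = 0 := (id_iff_ev f).1 hf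
  have h2 : emb F f ∈ LawK F := law_span2 h1
  exact Submodule.span_mono (fun g hg => isLaw_of hg) h2

end Pool.Agent.OT
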