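import Pool.Agent.OT.Fin1
import Pool.Agent.OT.Law2
import Pool.Agent.OT.Inf
import Pool.Agent.H.MP_41922c_al.TIdeal

/-!
# The main theorem in characteristic 2  (module Fin2)

`Bas_id2`: for a law `f`, `Psi_mem` and `law_zero` give that the value of
`- Psi f` is in `Cmp`, so it is 0 by `Cmp_inf`. `main2`: `f` an identity: `inj f = sum of laws` (`law_spanI`), apply `Psi` (linear): `f` is a combination of
elements of `Bas2`. Conversely `Bas_id2` and `tIdeal_le`. `Id F f`: zero for all homomorphisms to `Oc F`, that is for all `v`.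
-/

set_option autoImplicit false
set_option linter.unusedSectionVars false

namespace Pool.Agent.OT

open FreeNonUnitalNonAssocAlgebra Pool.Agent.H.MP_41922c_al Pool.Agent.Smt Pool.Agent.OB Pool.Agent.OBX

variable {F : Type*} [Field F]

theorem Fin2_vl [Infinite F] [CharP F 2] {f : FreeNonUnitalNonAssocAlgebra F (ℕ ⊕ ℕ)}
    (hf : IsLaw F f) (v : ℕ → Oc F) : vl v (Psi F f) = 0 := by
  refine Cmp_inf (f := Psi F f) ?_ v
  have h1 := Psi_mem f
  have h2 : (fun v : ℕ → Oc F => vl v (Psi F f)) =
      -(fun v : ℕ → Oc F => lift F (Sum.elim v (fun i => tt (v i) • (1 : Oc F))) f -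
        vl v (Psi F f)) := by
    funext v
    have h3 : lift F (Sum.elim v (fun i => tt (v i) • (1 : Oc F))) f = 0 := law_zero hf v
    rw [Pi.neg_apply, h3, zero_sub, neg_neg]
  rw [h2]
  exact Submodule.neg_mem _ h1

theorem Bas_id2 [Infinite F] [CharP F 2] {f : FreeNonUnitalNonAssocAlgebra F (ℕ ⊕ ℕ)} (hf : IsLaw F f) :
    Id F (Psi F f) := by
  intro φ
  have h1 : φ = lift F (fun i => φ (of F i)) := by
    apply FreeNonUnitalNonAssocAlgebra.hom_ext
    intro i
    rw [lift_of_apply]
  rw [h1]
  exact Fin2_vl hf _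

theorem Fin2_law {g : FB F} (h : IsLawT F g) : IsLaw F g := by
  induction h with
  | altLd u v => exact IsLaw.altL u v
  | altRd u v => exact IsLaw.altR u v
  | altL u v w => exact IsLaw.altL' u v w
  | altR u v w => exact IsLaw.altR' u v w
  | trC u v => exact IsLaw.trC u v
  | trA u v w => exact IsLaw.trA u v w
  | nmC u v => exact IsLaw.nC u v
  | nmA u v w => exact IsLaw.nA u v w
  | left u f _ ih => exact IsLaw.left u f ih
  | right u f _ ih => exact IsLaw.right u f ih

theorem main2 [Infinite F] [CharP F 2] (f : FA F) : Id F f ↔ f ∈ tIdeal F (Bas2 F) := by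
  constructor
  · intro h
    have h1 : emb F f ∈ Submodule.span F {g | IsLawT F g} := law_span2 ((id_iff_ev f).1 h)
    have h2 : Psi F (emb F f) = f := Psi_inj f
    have h3 : ∀ g ∈ Submodule.span F {g | IsLawT F g}, Psi F g ∈ tIdeal F (Bas2 F) := by
      intro g hg
      induction hg using Submodule.span_induction with
      | mem x hx => exact subset_tIdeal _ ⟨x, Fin2_law hx, rfl⟩
      | zero =>
        rw [map_zero]
        exact zero_mem _
      | add x y _ _ hx hy =>
        rw [map_add]
        exact add_mem hx hy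
      | smul c x _ hx =>
        rw [map_smul]
        exact Submodule.smul_mem _ _ hx
    rw [← h2]
    exact h3 _ h1
  · intro h
    refine tIdeal_le (isTIdeal_identities (Oc F)) ?_ h
    rintro _ ⟨g, hg, rfl⟩
    exact Bas_id2 hg

end Pool.Agent.OT
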