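import Pool.Agent.OT.Sor
import Pool.Agent.OT.Eqc

/-!
# Equal letters, the canonical form  (module Sor2)

`eqT_v`: `p = k :: p'`: `ex_v` (exchange of `k` with the first `x`) and then
`eq_v` at the place `p' ++ [k]`. `dup_v`: induction on `s`; if the sorted list has no equal neighbours, `dup` is 0 and the list is strictly sorted.
`one_S`: by `sSo_v` (`p = []`) and `dup_v` (`p = []`) `oneS b g k l` has the value `T(k :: l) - T(sorted)` and `T(sorted)` is a complement function (`IsC.s`) if it
is strictly sorted (`Fits b l` says that `b = decide (Odd l.length)` and `2 ≤ l.length`); otherwise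
`T(sorted)` is the value of `dup`.
-/

set_option autoImplicit false
set_option linter.unusedSectionVars false

namespace Pool.Agent.OT

open FreeNonUnitalNonAssocAlgebra Pool.Agent.H.MP_41922c_al Pool.Agent.Smt Pool.Agent.OB Pool.Agent.OBX

variable {F : Type*} [Field F] [CharP F 2]

theorem Sor2_add (v : ℕ → Oc F) (f g : FA F) : vl v (f + g) = vl v f + vl v g := map_add (lift F v) f g

theorem Sor2_zero (v : ℕ → Oc F) {f : FA F} (h : f = 0) : vl v f = 0 := by
  rw [h]
  exact map_zero (lift F v)

theorem Sor2_fits {b : Bool} {l l' : List ℕ} (e : l.length = l'.length) (h : Fits b l) : Fits b l' := by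
  unfold Fits at h ⊢
  rw [← e]
  exact h

theorem Sor2_fits_b {b : Bool} {l : List ℕ} (h : Fits b l) : b = decide (Odd l.length) ∧ 2 ≤ l.length := by
  unfold Fits at h
  cases b with
  | false =>
    rw [if_neg (by simp)] at h
    refine ⟨?_, h.1⟩
    have : ¬ Odd l.length := by rw [Nat.not_odd_iff_even]; exact h.2
    simp [this]
  | true =>
    rw [if_pos rfl] at h
    refine ⟨?_, by omega⟩
    simp [h.2]

theorem eqT_v (v : ℕ → Oc F) (b : Bool) (g p : List ℕ) (x : ℕ) (q : List ℕ)
    (h : Fits b ((p ++ x :: x :: q).tail)) :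
    Tv v b g (p ++ x :: x :: q) = vl v (eqT b g p x q) := by
  cases p with
  | nil =>
    have h1 : Fits b ([] ++ x :: q) := h
    exact eq_v v b g x [] q h1
  | cons k p =>
    have h1 : Fits b (p ++ x :: x :: q) := h
    have h2 : Fits b ((p ++ [k]) ++ x :: q) := Sor2_fits (by simp) h1
    have e1 := ex_v v b g k p x (x :: q) h1
    have e2 := eq_v v b g x (p ++ [k]) q h2
    have e3 : p ++ k :: x :: q = (p ++ [k]) ++ x :: q := by simp
    rw [e3, e2] at e1
    change Tv v b g (k :: (p ++ x :: x :: q)) =
      vl v (ex b g k p x (x :: q) + if b then eqd g x (p ++ [k]) q else eqc g x (p ++ [k]) q)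
    rw [e1, Sor2_add, add_comm]

theorem dup_v (b : Bool) (g p s : List ℕ) (hs : s.Pairwise (· ≤ ·)) (h : Fits b ((p ++ s).tail)) :
    (s.Pairwise (· < ·) ∧ ∀ v : ℕ → Oc F, vl v (dup b g p s) = 0) ∨
      ∀ v : ℕ → Oc F, Tv v b g (p ++ s) = vl v (dup b g p s) := by
  induction s generalizing p with
  | nil =>
    left
    exact ⟨List.Pairwise.nil, fun v => Sor2_zero v (by simp [dup])⟩
  | cons x s ih =>
    cases s with
    | nil =>
      left
      exact ⟨List.pairwise_singleton _ _, fun v => Sor2_zero v (by simp [dup])⟩
    | cons y s =>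
      by_cases hxy : x = y
      · subst hxy
        right
        intro v
        rw [dup, if_pos rfl]
        exact eqT_v v b g p x s h
      · have e : p ++ x :: y :: s = (p ++ [x]) ++ y :: s := by simp
        have h1 : Fits b (((p ++ [x]) ++ y :: s).tail) := by rw [← e]; exact h
        have hs1 := List.pairwise_cons.1 hs
        rcases ih (p ++ [x]) hs1.2 h1 with ⟨hl, hd⟩ | hr
        · left
          refine ⟨List.pairwise_cons.2 ⟨?_, hl⟩, fun v => ?_⟩
          · intro z hz
            have hxy' : x < y := lt_of_le_of_ne (hs1.1 y List.mem_cons_self) hxy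
            rcases List.mem_cons.1 hz with hz | hz
            · rw [hz]; exact hxy'
            · exact lt_trans hxy' ((List.pairwise_cons.1 hl).1 z hz)
          · rw [dup, if_neg hxy]
            exact hd v
        · right
          intro v
          rw [dup, if_neg hxy, e]
          exact hr v

theorem one_S (b : Bool) (g : List ℕ) (hg : g.Pairwise (· ≤ ·)) (k : ℕ) (l : List ℕ) (h : Fits b l) :
    (fun v : ℕ → Oc F => Tv v b g (k :: l) - vl v (oneS b g k l)) ∈ Cmp F := by
  have hlen : ((k :: l).insertionSort (· ≤ ·)).length = (k :: l).length :=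
    List.length_insertionSort _ _
  have hso : ((k :: l).insertionSort (· ≤ ·)).Pairwise (· ≤ ·) :=
    List.pairwise_insertionSort _ _
  have e0 : ∀ v : ℕ → Oc F, Tv v b g (k :: l) =
      Tv v b g ((k :: l).insertionSort (· ≤ ·)) + vl v (sSo b g [] (k :: l)) :=
    fun v => sSo_v v b g [] (k :: l) h
  have e1 : (fun v : ℕ → Oc F => Tv v b g (k :: l) - vl v (oneS b g k l)) =
      fun v => Tv v b g ((k :: l).insertionSort (· ≤ ·)) -
        vl v (dup b g [] ((k :: l).insertionSort (· ≤ ·))) := by
    funext v
    rw [e0 v, oneS, Sor2_add]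
    abel
  rw [e1]
  have hF : Fits b (([] ++ (k :: l).insertionSort (· ≤ ·)).tail) := by
    refine Sor2_fits ?_ h
    rw [List.nil_append, List.length_tail, hlen]
    rfl
  rcases dup_v (F := F) b g [] _ hso hF with ⟨hl, hd⟩ | hr
  · rw [List.nil_append] at hF
    generalize (k :: l).insertionSort (· ≤ ·) = w at *
    cases w with
    | nil => simp at hlen
    | cons k' l' =>
      have hF' : Fits b l' := hF
      have hb := Sor2_fits_b hF'
      have e2 : (fun v : ℕ → Oc F => Tv v b g (k' :: l') - vl v (dup b g [] (k' :: l'))) =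
          fun v => tt (v k') • Pv v (fac F (cns (decide (Odd l'.length)) l') g) := by
        funext v
        rw [hd v, sub_zero, ← hb.1]
        rfl
      rw [e2]
      exact Submodule.subset_span (IsC.s k' l' g hl hb.2 hg)
  · have e2 : (fun v : ℕ → Oc F => Tv v b g ((k :: l).insertionSort (· ≤ ·)) -
        vl v (dup b g [] ((k :: l).insertionSort (· ≤ ·)))) = 0 := by
      funext v
      have := hr v
      rw [List.nil_append] at this
      rw [this, sub_self]
      rfl
    rw [e2]
    exact Submodule.zero_mem _

end Pool.Agent.OT
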