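import Pool.Agent.OT.Mov
import Pool.Agent.OT.Sor2
import Pool.Agent.OT.DD2

/-!
# One trace  (module One)

The three cases of `one`: `List.takeWhile_append_dropWhile`; all the elements of `takeWhile Cen.isC` are commutators, and
`cns b l = ` the list of the factors, if `l` is the list of their variables: `prs (us.flatMap Cen.vars) = us` for a list `us` of commutators. `mv_rp` with `K = [k]`. At most
one associator: `one_S`. Two associators: `dd2_v`.
-/

set_option autoImplicit false
set_option linter.unusedSectionVars false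

namespace Pool.Agent.OT

open FreeNonUnitalNonAssocAlgebra Pool.Agent.H.MP_41922c_al Pool.Agent.Smt Pool.Agent.OB Pool.Agent.OBX

variable {F : Type*} [Field F] [CharP F 2]

theorem One_prs : ∀ us : List Cen, (∀ u ∈ us, u.isC = true) → prs (us.flatMap Cen.vars) = us
  | [], _ => rfl
  | .c i j :: us, h => by
      have h1 := One_prs us (fun u hu => h u (List.mem_cons_of_mem _ hu))
      simp only [List.flatMap_cons, Cen.vars, List.cons_append, List.nil_append, prs, h1]
  | .d i j k :: us, h => by
      have := h _ List.mem_cons_self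
      simp [Cen.isC] at this

theorem One_len : ∀ us : List Cen, (∀ u ∈ us, u.isC = true) → (us.flatMap Cen.vars).length = 2 * us.length
  | [], _ => rfl
  | .c i j :: us, h => by
      have h1 := One_len us (fun u hu => h u (List.mem_cons_of_mem _ hu))
      simp only [List.flatMap_cons, Cen.vars, List.cons_append, List.nil_append, List.length_cons, h1]
      omega
  | .d i j k :: us, h => by
      have := h _ List.mem_cons_self
      simp [Cen.isC] at this

/-- the two cases -/
theorem One_split (vs : List Cen) :
    ((∀ u ∈ vs, u.isC = true) ∧ vs.dropWhile Cen.isC = []) ∨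
      ∃ a b c ws, vs.dropWhile Cen.isC = .d a b c :: ws ∧ vs = vs.takeWhile Cen.isC ++ .d a b c :: ws := by
  have h0 := List.takeWhile_append_dropWhile (p := Cen.isC) (l := vs)
  rcases hd : vs.dropWhile Cen.isC with _ | ⟨w, ws⟩
  · left
    refine ⟨?_, rfl⟩
    exact List.dropWhile_eq_nil_iff.1 hd
  · right
    have hw : Cen.isC w = false := by
      have h1 := List.head_dropWhile_not Cen.isC (l := vs) (by rw [hd]; simp)
      simpa [hd] using h1
    rcases w with ⟨i, j⟩ | ⟨a, b, c⟩
    · simp [Cen.isC] at hw
    · refine ⟨a, b, c, ws, rfl, ?_⟩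
      rw [hd] at h0
      exact h0.symm

theorem One_mv (v : ℕ → Oc F) (k : ℕ) (us : List Cen) (d : Cen) (R : List (FA F)) :
    tt (v k) • Pv v (us.map (cv F) ++ cv F d :: R) =
      tt (v k) • Pv v (cv F d :: (us.map (cv F) ++ R)) + vl v (mv (us.map (cv F)) (cv F d) R [k]) := by
  have h := mv_rp (us.map (cv F)) (fun v : ℕ → Oc F => vl_cv v d) R v [k]
  rw [tK_cons, tK_nil, mul_one, smul_sub] at h
  rw [h]
  abel

theorem One_add (v : ℕ → Oc F) (f g : FA F) : vl v (f + g) = vl v f + vl v g := map_add _ _ _

theorem One_all {k : ℕ} {vs : List Cen} (hvs : vs ≠ []) (hc : ∀ u ∈ vs, u.isC = true) {g : List ℕ}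
    (hg : g.Pairwise (· ≤ ·)) :
    (fun v : ℕ → Oc F => tt (v k) • Pv v (fac F vs g) - vl v (oneS false g k (vs.flatMap Cen.vars))) ∈ Cmp F := by
  have hl := One_len vs hc
  have h1 : 1 ≤ vs.length := List.length_pos_iff.2 hvs
  have h := one_S (F := F) false g hg k (vs.flatMap Cen.vars)
    (by simp only [Fits, Bool.false_eq_true, if_false]; rw [hl]; exact ⟨by omega, even_two_mul _⟩)
  have e : cns false (vs.flatMap Cen.vars) = vs := by
    simp only [cns]
    exact One_prs vs hc
  simpa only [Tv, e] using h

theorem One_d {k a b c : ℕ} {us : List Cen} (hc : ∀ u ∈ us, u.isC = true) {g : List ℕ}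
    (hg : g.Pairwise (· ≤ ·)) :
    (fun v : ℕ → Oc F => tt (v k) • Pv v (fac F (.d a b c :: us) g) -
      vl v (oneS true g k (a :: b :: c :: us.flatMap Cen.vars))) ∈ Cmp F := by
  have hl := One_len us hc
  have h := one_S (F := F) true g hg k (a :: b :: c :: us.flatMap Cen.vars)
    (by
      simp only [Fits, if_true, List.length_cons]
      rw [hl]
      refine ⟨by omega, ⟨us.length + 1, by ring⟩⟩)
  have e : cns true (a :: b :: c :: us.flatMap Cen.vars) = .d a b c :: us := by
    simp only [cns]
    rw [One_prs us hc]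
  simpa only [Tv, e] using h

theorem One_eq {h l : (ℕ → Oc F) → Oc F} (hl : l ∈ Cmp F) (e : ∀ v, h v = l v) : h ∈ Cmp F := by
  have : h = l := funext e
  rw [this]
  exact hl

theorem one_mem (k : ℕ) {vs : List Cen} (hvs : vs ≠ []) {g : List ℕ} (hg : g.Pairwise (· ≤ ·)) :
    (fun v : ℕ → Oc F => tt (v k) • Pv v (fac F vs g) - vl v (one k vs g)) ∈ Cmp F := by
  rcases One_split vs with ⟨hc, hd⟩ | ⟨a, b, c, ws, hd, hv⟩
  · have e : one (F := F) k vs g = oneS false g k (vs.flatMap Cen.vars) := by
      rw [one, hd]
    rw [e]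
    exact One_all hvs hc hg
  · -- one associator moved to the left
    have e0 : ∀ v : ℕ → Oc F, tt (v k) • Pv v (fac F vs g) =
        tt (v k) • Pv v (fac F (.d a b c :: (vs.takeWhile Cen.isC ++ ws)) g) +
          vl v (mv ((vs.takeWhile Cen.isC).map (cv F)) (cv F (.d a b c)) (fac F ws g) [k]) := by
      intro v
      have h := One_mv v k (vs.takeWhile Cen.isC) (.d a b c) (fac F ws g)
      have e1 : fac F vs g = (vs.takeWhile Cen.isC).map (cv F) ++ cv F (.d a b c) :: fac F ws g := by
        conv_lhs => rw [hv]
        simp [fac]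
      have e2 : fac F (.d a b c :: (vs.takeWhile Cen.isC ++ ws)) g =
          cv F (.d a b c) :: ((vs.takeWhile Cen.isC).map (cv F) ++ fac F ws g) := by
        simp [fac]
      rw [e1, e2]
      exact h
    rcases One_split (vs.takeWhile Cen.isC ++ ws) with ⟨hc, hd'⟩ | ⟨e, f, h, ws', hd', hv'⟩
    · have e : one (F := F) k vs g =
          mv ((vs.takeWhile Cen.isC).map (cv F)) (cv F (.d a b c)) (fac F ws g) [k] +
            oneS true g k (a :: b :: c :: (vs.takeWhile Cen.isC ++ ws).flatMap Cen.vars) := by
        rw [one, hd]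
        simp only
        rw [hd']
      rw [e]
      refine One_eq (One_d (k := k) (a := a) (b := b) (c := c) hc hg) (fun v => ?_)
      rw [e0, One_add]
      abel
    · have eq2 : one (F := F) k vs g =
          mv ((vs.takeWhile Cen.isC).map (cv F)) (cv F (.d a b c)) (fac F ws g) [k] +
            (cv F (.d a b c) * mv (((vs.takeWhile Cen.isC ++ ws).takeWhile Cen.isC).map (cv F)) (cv F (.d e f h))
                (fac F ws' g) [k] +
              dd2 (of F k) (of F a) (of F b) (of F c) (of F e) (of F f) (of F h)
                (fac F ((vs.takeWhile Cen.isC ++ ws).takeWhile Cen.isC ++ ws') g)) := by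
        rw [one, hd]
        simp only
        rw [hd']
      rw [eq2]
      refine One_eq (Submodule.zero_mem _) (fun v => ?_)
      rw [e0, One_add, One_add, vl_mul]
      have h1 := One_mv v k ((vs.takeWhile Cen.isC ++ ws).takeWhile Cen.isC) (.d e f h) (fac F ws' g)
      have e1 : fac F (.d a b c :: (vs.takeWhile Cen.isC ++ ws)) g =
          cv F (.d a b c) :: (((vs.takeWhile Cen.isC ++ ws).takeWhile Cen.isC).map (cv F) ++
            cv F (.d e f h) :: fac F ws' g) := by
        conv_lhs => rw [hv']
        simp [fac]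
      have e2 : Pv v (cv F (.d e f h) :: (((vs.takeWhile Cen.isC ++ ws).takeWhile Cen.isC).map (cv F) ++
          fac F ws' g)) = associator (vl v (of F e)) (vl v (of F f)) (vl v (of F h)) *
            Pv v (fac F ((vs.takeWhile Cen.isC ++ ws).takeWhile Cen.isC ++ ws') g) := by
        rw [Pv_cons]
        simp only [cv, vl_ass, fac, List.map_append, List.append_assoc]
      have h2 := dd2_v v (of F k) (of F a) (of F b) (of F c) (of F e) (of F f) (of F h)
        (fac F ((vs.takeWhile Cen.isC ++ ws).takeWhile Cen.isC ++ ws') g)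
      rw [e1, Pv_cons, ← mul_smul_comm, h1, e2, mul_add, mul_smul_comm, ← h2, vl_of v k]
      have e3 : vl v (cv F (.d a b c)) = associator (vl v (of F a)) (vl v (of F b)) (vl v (of F c)) := by
        simp only [cv, vl_ass]
      rw [e3]
      simp only [Pi.zero_apply]
      abel

end Pool.Agent.OT
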