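import Pool.Agent.OT.CAB
import Pool.Agent.OT.One

/-!
# Products of traces  (module Hub)

`hub_nil`: `vl_pr`. `hub_mem`: induction on the length of `K` (all `vs`): `vs = []`: `IsC.t`; `K = [k]`: `one_mem`;
`K = x :: y :: K'`: `cA_rp` or `cB_rp` times `Pv v (fac F vs g)`, `(com x y * u) r = com x y * (u r) + associator (com x y) u r`, `adK_ass`, `ass_pr`; for `K' = []` the first
term of `hub` is `hub_nil`.
-/

set_option autoImplicit false
set_option linter.unusedSectionVars false

namespace Pool.Agent.OT

open FreeNonUnitalNonAssocAlgebra Pool.Agent.H.MP_41922c_al Pool.Agent.Smt Pool.Agent.OB Pool.Agent.OBX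

variable {F : Type*} [Field F] [CharP F 2]

theorem hub_nil (v : ℕ → Oc F) {vs : List Cen} {g : List ℕ} (h : vs ≠ [] ∨ g ≠ []) :
    vl v (hub g [] vs) = Pv v (fac F vs g) := by
  rw [hub]
  rcases vs with _ | ⟨c, vs⟩
  · rcases g with _ | ⟨i, g⟩
    · simp at h
    · simp only [fac, List.map_nil, List.nil_append, List.map_cons]
      exact vl_pr v _ _
  · simp only [fac, List.map_cons, List.cons_append]
    exact vl_pr v _ _

/-- the values of the factors -/
theorem Hub_Pv_cons (v : ℕ → Oc F) (c : Cen) (vs : List Cen) (g : List ℕ) :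
    Pv v (fac F (c :: vs) g) = vl v (cv F c) * Pv v (fac F vs g) := by
  simp only [fac, List.map_cons, List.cons_append]
  exact Pv_cons v _ _

theorem Hub_vl_c (v : ℕ → Oc F) (i j : ℕ) : vl v (cv F (.c i j)) = com (v i) (v j) := by
  simp only [cv]
  rw [vl_com, vl_of, vl_of]

theorem Hub_vl_d (v : ℕ → Oc F) (i j k : ℕ) : vl v (cv F (.d i j k)) = associator (v i) (v j) (v k) := by
  simp only [cv]
  rw [vl_ass, vl_of, vl_of, vl_of]

/-- the case of a commutator -/
theorem Hub_c (v : ℕ → Oc F) (x y z w : ℕ) (K : List ℕ) (vs : List Cen) (g : List ℕ) :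
    tK v (x :: y :: K) • Pv v (fac F (.c z w :: vs) g) - vl v (hub g (x :: y :: K) (.c z w :: vs)) =
      (tK v K • Pv v (fac F (.c x y :: .c z w :: vs) g) - vl v (hub g K (.c x y :: .c z w :: vs))) +
      (tK v (z :: K) • Pv v (fac F (.d x y w :: vs) g) - vl v (hub g (z :: K) (.d x y w :: vs))) := by
  have hA : associator (vl v (adK K (com (of F x) (of F y)))) (vl v (cv F (.c z w))) (vl v (pr (fac F vs g))) =
      tK v K • associator (com (v x) (v y)) (com (v z) (v w)) (Pv v (fac F vs g)) := by
    rw [ass_pr, adK_ass (f := com (of F x) (of F y)) (vl_cv v (.c x y)), vl_com, vl_of, vl_of, Hub_vl_c]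
  have hB : vl v (pr (cA (of F x) (of F y) (of F z) (of F w) K :: fac F vs g)) =
      (tK v K • ((tt (v x) * tt (v y)) • com (v z) (v w) - com (v x) (v y) * com (v z) (v w)
        - tt (v z) • associator (v x) (v y) (v w))) * Pv v (fac F vs g) := by
    rw [vl_pr, Pv_cons, cA_rp (of F x) (of F y) (of F z) (of F w) v K]
    simp only [vl_of]
  have hH : vl v (hub g (x :: y :: K) (.c z w :: vs)) =
      vl v (hub g K (.c x y :: .c z w :: vs)) + vl v (hub g (z :: K) (.d x y w :: vs)) +
      tK v K • associator (com (v x) (v y)) (com (v z) (v w)) (Pv v (fac F vs g)) +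
      (tK v K • ((tt (v x) * tt (v y)) • com (v z) (v w) - com (v x) (v y) * com (v z) (v w)
        - tt (v z) • associator (v x) (v y) (v w))) * Pv v (fac F vs g) := by
    rw [← hB, ← hA, ← vl_ass]
    rw [hub]
    simp only [map_add]
  rw [hH]
  simp only [Hub_Pv_cons, Hub_vl_c, Hub_vl_d, tK_cons, associator_apply]
  generalize Pv v (fac F vs g) = R
  generalize vl v (hub g K (.c x y :: .c z w :: vs)) = H1
  generalize vl v (hub g (z :: K) (.d x y w :: vs)) = H2
  generalize com (v x) (v y) = p
  generalize com (v z) (v w) = q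
  generalize (v x * v y * v w - v x * (v y * v w)) = r
  simp only [smul_mul_assoc, sub_mul, smul_sub, smul_smul]
  have e : tt (v x) * (tt (v y) * tK v K) = tK v K * (tt (v x) * tt (v y)) := by ring
  rw [e, mul_comm (tt (v z)) (tK v K)]
  abel

/-- the case of an associator -/
theorem Hub_d (v : ℕ → Oc F) (x y z w u : ℕ) (K : List ℕ) (vs : List Cen) (g : List ℕ) :
    tK v (x :: y :: K) • Pv v (fac F (.d z w u :: vs) g) - vl v (hub g (x :: y :: K) (.d z w u :: vs)) =
      tK v K • Pv v (fac F (.c x y :: .d z w u :: vs) g) - vl v (hub g K (.c x y :: .d z w u :: vs)) := by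
  have hA : associator (vl v (adK K (com (of F x) (of F y)))) (vl v (cv F (.d z w u))) (vl v (pr (fac F vs g))) =
      tK v K • associator (com (v x) (v y)) (associator (v z) (v w) (v u)) (Pv v (fac F vs g)) := by
    rw [ass_pr, adK_ass (f := com (of F x) (of F y)) (vl_cv v (.c x y)), vl_com, vl_of, vl_of, Hub_vl_d]
  have hB : vl v (pr (cB (of F x) (of F y) (of F z) (of F w) (of F u) K :: fac F vs g)) =
      (tK v K • ((tt (v x) * tt (v y)) • associator (v z) (v w) (v u)
        - com (v x) (v y) * associator (v z) (v w) (v u))) * Pv v (fac F vs g) := by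
    rw [vl_pr, Pv_cons, cB_rp (of F x) (of F y) (of F z) (of F w) (of F u) v K]
    simp only [vl_of]
  have hH : vl v (hub g (x :: y :: K) (.d z w u :: vs)) =
      vl v (hub g K (.c x y :: .d z w u :: vs)) +
      tK v K • associator (com (v x) (v y)) (associator (v z) (v w) (v u)) (Pv v (fac F vs g)) +
      (tK v K • ((tt (v x) * tt (v y)) • associator (v z) (v w) (v u)
        - com (v x) (v y) * associator (v z) (v w) (v u))) * Pv v (fac F vs g) := by
    rw [← hB, ← hA, ← vl_ass]
    rw [hub]
    simp only [map_add]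
  rw [hH]
  simp only [Hub_Pv_cons, Hub_vl_c, Hub_vl_d, tK_cons]
  generalize Pv v (fac F vs g) = R
  generalize vl v (hub g K (.c x y :: .d z w u :: vs)) = H1
  generalize com (v x) (v y) = p
  generalize associator (v z) (v w) (v u) = q
  simp only [associator_apply, smul_mul_assoc, sub_mul, smul_sub, smul_smul]
  have e : tt (v x) * (tt (v y) * tK v K) = tK v K * (tt (v x) * tt (v y)) := by ring
  rw [e]
  abel

theorem Hub_ind {g : List ℕ} (hg : g.Pairwise (· ≤ ·)) (n : ℕ) : ∀ K : List ℕ, K.length ≤ n → K ≠ [] →
    ∀ vs : List Cen, (fun v : ℕ → Oc F => tK v K • Pv v (fac F vs g) - vl v (hub g K vs)) ∈ Cmp F := by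
  induction n with
  | zero =>
    intro K hn hK
    exact absurd (List.length_eq_zero_iff.mp (Nat.le_zero.mp hn)) hK
  | succ n ih =>
    intro K hn hK vs
    have ih' : ∀ K : List ℕ, K.length ≤ n → ∀ (c : Cen) (vs : List Cen),
        (fun v : ℕ → Oc F => tK v K • Pv v (fac F (c :: vs) g) - vl v (hub g K (c :: vs))) ∈ Cmp F := by
      intro K hn c vs
      by_cases hK : K = []
      · subst hK
        have e : (fun v : ℕ → Oc F => tK v [] • Pv v (fac F (c :: vs) g) - vl v (hub g [] (c :: vs))) = 0 := by
          funext v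
          rw [hub_nil v (Or.inl (List.cons_ne_nil _ _)), tK_nil, one_smul, sub_self]
          rfl
        rw [e]
        exact Submodule.zero_mem _
      · exact ih K hn hK _
    rcases vs with _ | ⟨c, vs⟩
    · have e : (fun v : ℕ → Oc F => tK v K • Pv v (fac F [] g) - vl v (hub g K [])) =
          fun v => tK v K • Pv v (g.map (of F)) := by
        funext v
        have h0 : hub g K [] = (0 : FA F) := by
          rcases K with _ | ⟨k, K⟩
          · exact absurd rfl hK
          · rw [hub]
        rw [h0]
        simp only [fac, List.map_nil, List.nil_append, vl, map_zero, sub_zero]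
      rw [e]
      exact Submodule.subset_span (IsC.t K g hK hg)
    · rcases K with _ | ⟨x, _ | ⟨y, K⟩⟩
      · exact absurd rfl hK
      · have e : (fun v : ℕ → Oc F => tK v [x] • Pv v (fac F (c :: vs) g) - vl v (hub g [x] (c :: vs))) =
            fun v => tt (v x) • Pv v (fac F (c :: vs) g) - vl v (one x (c :: vs) g) := by
          funext v
          rw [tK_cons, tK_nil, mul_one, hub]
        rw [e]
        exact one_mem x (List.cons_ne_nil _ _) hg
      · have hn' : K.length + 2 ≤ n + 1 := by simpa using hn
        rcases c with ⟨z, w⟩ | ⟨z, w, u⟩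
        · have e : (fun v : ℕ → Oc F => tK v (x :: y :: K) • Pv v (fac F (.c z w :: vs) g)
              - vl v (hub g (x :: y :: K) (.c z w :: vs))) =
              (fun v => tK v K • Pv v (fac F (.c x y :: .c z w :: vs) g)
                - vl v (hub g K (.c x y :: .c z w :: vs))) +
              (fun v => tK v (z :: K) • Pv v (fac F (.d x y w :: vs) g)
                - vl v (hub g (z :: K) (.d x y w :: vs))) := by
            funext v
            exact Hub_c v x y z w K vs g
          rw [e]
          refine Submodule.add_mem _ (ih' K (by omega) _ _) (ih' (z :: K) ?_ _ _)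
          simp only [List.length_cons]
          omega
        · have e : (fun v : ℕ → Oc F => tK v (x :: y :: K) • Pv v (fac F (.d z w u :: vs) g)
              - vl v (hub g (x :: y :: K) (.d z w u :: vs))) =
              (fun v => tK v K • Pv v (fac F (.c x y :: .d z w u :: vs) g)
                - vl v (hub g K (.c x y :: .d z w u :: vs))) := by
            funext v
            exact Hub_d v x y z w u K vs g
          rw [e]
          exact ih' K (by omega) _ _

theorem hub_mem {g : List ℕ} (hg : g.Pairwise (· ≤ ·)) {K : List ℕ} (hK : K ≠ []) (vs : List Cen) :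
    (fun v : ℕ → Oc F => tK v K • Pv v (fac F vs g) - vl v (hub g K vs)) ∈ Cmp F :=
  Hub_ind hg K.length K le_rfl hK vs

end Pool.Agent.OT
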