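import Pool.Agent.OT.Mov

/-!
# Insertion of a letter  (module Ins)

`ins_rp`: induction on `g` (all `l`): `i ≤ h`: both sides equal (difference 0); otherwise
`.. x_i (x_h G) = x_h (x_i G) + com x_i x_h * G` in the context `fac F vs l`, and `mv_rp` moves the commutator to the front. `ins_ok`: the new
lists are sorted and not empty.
-/

set_option autoImplicit false
set_option linter.unusedSectionVars false

namespace Pool.Agent.OT

open FreeNonUnitalNonAssocAlgebra Pool.Agent.H.MP_41922c_al Pool.Agent.Smt Pool.Agent.OB Pool.Agent.OBX

variable {F : Type*} [Field F] [CharP F 2]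

omit [CharP F 2] in
theorem Ins_fac_append (vs : List Cen) (l l' : List ℕ) : fac F vs (l ++ l') = fac F vs l ++ l'.map (of F) := by
  simp [fac]

theorem Ins_step (v : ℕ → Oc F) (L G : List (FA F)) (i h : ℕ) :
    Pv v (L ++ of F i :: of F h :: G) = Pv v (L ++ cv F (.c i h) :: G) + Pv v (L ++ of F h :: of F i :: G) := by
  rw [Pv_append, Pv_append, Pv_append, ← Cx_add]
  congr 1
  rw [Pv_cons, Pv_cons, Pv_cons, Pv_cons, Pv_cons]
  have e : vl v (cv F (.c i h)) = com (vl v (of F i)) (vl v (of F h)) := by
    rw [← vl_com]
    rfl
  rw [e, mv_oc, add_comm]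

theorem ins_rp (i : ℕ) (vs : List Cen) (l g : List ℕ) :
    Rp (insR i vs l g) (fun v => Pv v (fac F vs l ++ of F i :: g.map (of F)) -
      ((insS i vs l g).map fun s => Pv v (fac F s.1 s.2)).sum) := by
  induction g generalizing l with
  | nil =>
    refine Rp_zero.congr fun v => ?_
    have e : insS i vs l [] = [(vs, l ++ [i])] := rfl
    rw [e]
    simp only [List.map_cons, List.map_nil, List.sum_cons, List.sum_nil, add_zero]
    rw [Ins_fac_append]
    simp
  | cons h g ih =>
    by_cases hi : i ≤ h
    · have e1 : insR (F := F) i vs l (h :: g) = 0 := by simp [insR, hi]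
      have e2 : insS i vs l (h :: g) = [(vs, l ++ i :: h :: g)] := by simp [insS, hi]
      rw [e1]
      refine Rp_zero.congr fun v => ?_
      rw [e2]
      simp only [List.map_cons, List.map_nil, List.sum_cons, List.sum_nil, add_zero]
      rw [Ins_fac_append]
      simp
    · have e1 : insR (F := F) i vs l (h :: g) =
          mv (fac F vs l) (cv F (.c i h)) (g.map (of F)) + insR i vs (l ++ [h]) g := by simp [insR, hi]
      have e2 : insS i vs l (h :: g) = (.c i h :: vs, l ++ g) :: insS i vs (l ++ [h]) g := by
        simp [insS, hi]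
      rw [e1]
      refine ((mv_rp (fac F vs l) (f := cv F (.c i h)) (fun v => vl_cv v _) (g.map (of F))).add
        (ih (l ++ [h]))).congr fun v => ?_
      rw [e2]
      have e3 : fac F (.c i h :: vs) (l ++ g) = cv F (.c i h) :: (fac F vs l ++ g.map (of F)) := by
        simp [fac]
      have e4 : fac F vs (l ++ [h]) ++ of F i :: g.map (of F) =
          fac F vs l ++ of F h :: of F i :: g.map (of F) := by
        rw [Ins_fac_append]
        simp
      simp only [List.map_cons, List.sum_cons]
      rw [e3, e4, Ins_step v (fac F vs l) (g.map (of F)) i h]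
      abel

theorem ins_ok (i : ℕ) (vs : List Cen) (l g : List ℕ) (h : (l ++ g).Pairwise (· ≤ ·))
    (h' : ∀ a ∈ l, a ≤ i) : ∀ s ∈ insS i vs l g, s.2.Pairwise (· ≤ ·) ∧ (s.1 ≠ [] ∨ s.2 ≠ []) := by
  induction g generalizing l with
  | nil =>
    intro s hs
    have e : insS i vs l [] = [(vs, l ++ [i])] := rfl
    rw [e, List.mem_singleton] at hs
    subst hs
    refine ⟨?_, Or.inr (by simp)⟩
    rw [List.append_nil] at h
    simp only [List.pairwise_append]
    refine ⟨h, by simp, ?_⟩
    intro a ha b hb
    rw [List.mem_singleton] at hb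
    subst hb
    exact h' a ha
  | cons k g ih =>
    intro s hs
    by_cases hi : i ≤ k
    · have e2 : insS i vs l (k :: g) = [(vs, l ++ i :: k :: g)] := by simp [insS, hi]
      rw [e2, List.mem_singleton] at hs
      subst hs
      refine ⟨?_, Or.inr (by simp)⟩
      rw [List.pairwise_append] at h
      obtain ⟨h1, h2, h3⟩ := h
      simp only [List.pairwise_append]
      refine ⟨h1, ?_, ?_⟩
      · rw [List.pairwise_cons]
        refine ⟨?_, h2⟩
        intro b hb
        rcases List.mem_cons.1 hb with rfl | hb
        · exact hi
        · exact hi.trans ((List.pairwise_cons.1 h2).1 b hb)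
      · intro a ha b hb
        rcases List.mem_cons.1 hb with rfl | hb
        · exact h' a ha
        · exact h3 a ha b hb
    · have e2 : insS i vs l (k :: g) = (.c i k :: vs, l ++ g) :: insS i vs (l ++ [k]) g := by
        simp [insS, hi]
      rw [e2, List.mem_cons] at hs
      rcases hs with rfl | hs
      · refine ⟨?_, Or.inl (by simp)⟩
        exact h.sublist ((List.Sublist.refl l).append (List.sublist_cons_self k g))
      · refine ih (l ++ [k]) (by simpa using h) ?_ s hs
        intro a ha
        rw [List.mem_append, List.mem_singleton] at ha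
        rcases ha with ha | rfl
        · exact h' a ha
        · omega

end Pool.Agent.OT
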