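import Pool.Agent.OB.Kill
import Pool.Agent.OB.Act
import Pool.Agent.OB.ActK

/-!
# The identities are spanned by instances of laws with traces  (module Law)

`IsLawT F g`: the polynomial `g` in `x_i` and the letters `t_i` (for the traces) is an instance, for words,
of the alternative laws and of the centrality of the traces and norms (`x_i* = t_i - x_i`, `t_i* = t_i`), or is
obtained from such an instance by multiplications with words. `law_span2`: every identity of the octonions is, as an
element of `F{x, t}`, a linear combination of such elements (any characteristic).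
-/

set_option autoImplicit false
set_option linter.unusedSectionVars false

namespace Pool.Agent.OT

open FreeNonUnitalNonAssocAlgebra Pool.Agent.H.MP_41922c_al Pool.Agent.Smt Pool.Agent.OB

variable {F : Type*} [Field F]

/-- the instances of the laws for words in `x_i`, `t_i` -/
inductive IsLawT (F : Type*) [Field F] : FB F → Prop
  | altLd (u v : FreeMagma (ℕ ⊕ ℕ)) : IsLawT F (associator (mo F u) (mo F u) (mo F v))
  | altRd (u v : FreeMagma (ℕ ⊕ ℕ)) : IsLawT F (associator (mo F v) (mo F u) (mo F u))
  | altL (u v w : FreeMagma (ℕ ⊕ ℕ)) : IsLawT F (associator (mo F u) (mo F v) (mo F w)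
      + associator (mo F v) (mo F u) (mo F w))
  | altR (u v w : FreeMagma (ℕ ⊕ ℕ)) : IsLawT F (associator (mo F w) (mo F u) (mo F v)
      + associator (mo F w) (mo F v) (mo F u))
  | trC (u v : FreeMagma (ℕ ⊕ ℕ)) : IsLawT F (com (mo F u + invT (mo F u)) (mo F v))
  | trA (u v w : FreeMagma (ℕ ⊕ ℕ)) :
      IsLawT F (associator (mo F u + invT (mo F u)) (mo F v) (mo F w))
  | nmC (u v : FreeMagma (ℕ ⊕ ℕ)) : IsLawT F (com (mo F u * invT (mo F u)) (mo F v))
  | nmA (u v w : FreeMagma (ℕ ⊕ ℕ)) :
      IsLawT F (associator (mo F u * invT (mo F u)) (mo F v) (mo F w))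
  | left (u : FreeMagma (ℕ ⊕ ℕ)) (f : FB F) : IsLawT F f → IsLawT F (mo F u * f)
  | right (u : FreeMagma (ℕ ⊕ ℕ)) (f : FB F) : IsLawT F f → IsLawT F (f * mo F u)

variable (F) in
/-- the span of the instances -/
noncomputable def LawK : Submodule F (FB F) := Submodule.span F {g | IsLawT F g}

theorem Law_mem {g : FB F} (h : IsLawT F g) : g ∈ LawK F := Submodule.subset_span h

theorem Law_lin {K : Submodule F (FB F)} (φ : FB F → FB F)
    (ha : ∀ x y, φ (x + y) = φ x + φ y) (hs : ∀ (k : F) x, φ (k • x) = k • φ x)
    (hw : ∀ w, φ (mo F w) ∈ K) (x : FB F) : φ x ∈ K := by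
  refine Words_ind (F := F) (α := ℕ ⊕ ℕ) (p := fun x => φ x ∈ K) ?_ ?_ ?_ hw x
  · have h := hs 0 0
    rw [zero_smul, zero_smul] at h
    rw [h]
    exact zero_mem _
  · intro f g hf hg
    rw [ha]
    exact add_mem hf hg
  · intro k f hf
    rw [hs]
    exact Submodule.smul_mem _ _ hf

theorem Law_left (a f : FB F) (hf : f ∈ LawK F) : a * f ∈ LawK F := by
  refine Law_lin (fun a => a * f) (fun x y => add_mul x y f) (fun k x => smul_mul_assoc k x f)
    (fun w => ?_) a
  unfold LawK at hf
  induction hf using Submodule.span_induction with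
  | mem x hx => exact Law_mem (IsLawT.left w x hx)
  | zero =>
    rw [mul_zero]
    exact zero_mem _
  | add x y _ _ hx hy =>
    rw [mul_add]
    exact add_mem hx hy
  | smul c x _ hx =>
    rw [mul_smul_comm]
    exact Submodule.smul_mem _ _ hx

theorem Law_right (a f : FB F) (hf : f ∈ LawK F) : f * a ∈ LawK F := by
  refine Law_lin (fun a => f * a) (fun x y => mul_add f x y) (fun k x => mul_smul_comm k f x)
    (fun w => ?_) a
  unfold LawK at hf
  induction hf using Submodule.span_induction with
  | mem x hx => exact Law_mem (IsLawT.right w x hx)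
  | zero =>
    rw [zero_mul]
    exact zero_mem _
  | add x y _ _ hx hy =>
    rw [add_mul]
    exact add_mem hx hy
  | smul c x _ hx =>
    rw [smul_mul_assoc]
    exact Submodule.smul_mem _ _ hx

theorem Law_altL (u v : FB F) : associator u u v ∈ LawK F := by
  refine Law_lin (fun v => associator u u v) (fun x y => ?_) (fun k x => ?_) (fun w => ?_) v
  · simp only [associator, mul_add]
    abel
  · simp only [associator, mul_smul_comm, smul_sub]
  refine ActK_quad (K := LawK F) (Q := fun a b => associator a b (mo F w)) ?_ ?_ ?_ ?_ ?_ ?_ u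
  · intro f f' g
    simp only [associator, add_mul]
    abel
  · intro k f g
    simp only [associator, smul_mul_assoc, smul_sub]
  · intro f g g'
    simp only [associator, add_mul, mul_add]
    abel
  · intro k f g
    simp only [associator, smul_mul_assoc, mul_smul_comm, smul_sub]
  · intro a
    exact Law_mem (IsLawT.altLd a w)
  · intro a b
    exact Law_mem (IsLawT.altL a b w)

theorem Law_altR (u v : FB F) : associator v u u ∈ LawK F := by
  refine Law_lin (fun v => associator v u u) (fun x y => ?_) (fun k x => ?_) (fun w => ?_) v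
  · simp only [associator, add_mul]
    abel
  · simp only [associator, smul_mul_assoc, smul_sub]
  refine ActK_quad (K := LawK F) (Q := fun a b => associator (mo F w) a b) ?_ ?_ ?_ ?_ ?_ ?_ u
  · intro f f' g
    simp only [associator, add_mul, mul_add]
    abel
  · intro k f g
    simp only [associator, smul_mul_assoc, mul_smul_comm, smul_sub]
  · intro f g g'
    simp only [associator, mul_add]
    abel
  · intro k f g
    simp only [associator, mul_smul_comm, smul_sub]
  · intro a
    exact Law_mem (IsLawT.altRd a w)
  · intro a b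
    exact Law_mem (IsLawT.altR a b w)

theorem Law_trC (u v : FB F) : com (u + invT u) v ∈ LawK F := by
  refine Law_lin (fun u => com (u + invT u) v) (fun x y => ?_) (fun k x => ?_) (fun a => ?_) u
  · simp only [com, invT_add, add_mul, mul_add]
    abel
  · simp only [com, invT_smul, ← smul_add, smul_sub, smul_mul_assoc, mul_smul_comm]
  refine Law_lin (fun v => com (mo F a + invT (mo F a)) v) (fun x y => ?_) (fun k x => ?_)
    (fun w => ?_) v
  · simp only [com, add_mul, mul_add]
    abel
  · simp only [com, smul_sub, smul_mul_assoc, mul_smul_comm]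
  exact Law_mem (IsLawT.trC a w)

theorem Law_trA (u v w : FB F) : associator (u + invT u) v w ∈ LawK F := by
  refine Law_lin (fun u => associator (u + invT u) v w) (fun x y => ?_) (fun k x => ?_)
    (fun a => ?_) u
  · simp only [associator, invT_add, add_mul]
    abel
  · simp only [associator, invT_smul, ← smul_add, smul_sub, smul_mul_assoc]
  refine Law_lin (fun v => associator (mo F a + invT (mo F a)) v w) (fun x y => ?_)
    (fun k x => ?_) (fun b => ?_) v
  · simp only [associator, add_mul, mul_add]
    abel
  · simp only [associator, smul_sub, smul_mul_assoc, mul_smul_comm]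
  refine Law_lin (fun w => associator (mo F a + invT (mo F a)) (mo F b) w) (fun x y => ?_)
    (fun k x => ?_) (fun c => ?_) w
  · simp only [associator, mul_add]
    abel
  · simp only [associator, smul_sub, mul_smul_comm]
  exact Law_mem (IsLawT.trA a b c)

theorem Law_pol (a b : FB F) : a * invT b + b * invT a = a * invT b + invT (a * invT b) := by
  rw [invT_mul, invT_invT]

theorem Law_nmC (u v : FB F) : com (u * invT u) v ∈ LawK F := by
  refine Law_lin (fun v => com (u * invT u) v) (fun x y => ?_) (fun k x => ?_) (fun w => ?_) v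
  · simp only [com, add_mul, mul_add]
    abel
  · simp only [com, smul_sub, smul_mul_assoc, mul_smul_comm]
  refine ActK_quad (K := LawK F) (Q := fun a b => com (a * invT b) (mo F w)) ?_ ?_ ?_ ?_ ?_ ?_ u
  · intro f f' g
    simp only [com, add_mul, mul_add]
    abel
  · intro k f g
    simp only [com, smul_mul_assoc, mul_smul_comm, smul_sub]
  · intro f g g'
    simp only [com, invT_add, add_mul, mul_add]
    abel
  · intro k f g
    simp only [com, invT_smul, smul_mul_assoc, mul_smul_comm, smul_sub]
  · intro a
    exact Law_mem (IsLawT.nmC a w)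
  · intro a b
    have h := Law_trC (mo F a * invT (mo F b)) (mo F w)
    rw [← Law_pol] at h
    have e : com (mo F a * invT (mo F b)) (mo F w) + com (mo F b * invT (mo F a)) (mo F w) =
        com (mo F a * invT (mo F b) + mo F b * invT (mo F a)) (mo F w) := by
      simp only [com, add_mul, mul_add]
      abel
    show com (mo F a * invT (mo F b)) (mo F w) + com (mo F b * invT (mo F a)) (mo F w) ∈ LawK F
    rw [e]
    exact h

theorem Law_nmA (u v w : FB F) : associator (u * invT u) v w ∈ LawK F := by
  refine Law_lin (fun v => associator (u * invT u) v w) (fun x y => ?_) (fun k x => ?_)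
    (fun b => ?_) v
  · simp only [associator, add_mul, mul_add]
    abel
  · simp only [associator, smul_sub, smul_mul_assoc, mul_smul_comm]
  refine Law_lin (fun w => associator (u * invT u) (mo F b) w) (fun x y => ?_)
    (fun k x => ?_) (fun c => ?_) w
  · simp only [associator, mul_add]
    abel
  · simp only [associator, smul_sub, mul_smul_comm]
  refine ActK_quad (K := LawK F) (Q := fun a a' => associator (a * invT a') (mo F b) (mo F c))
    ?_ ?_ ?_ ?_ ?_ ?_ u
  · intro f f' g
    simp only [associator, add_mul]
    abel
  · intro k f g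
    simp only [associator, smul_mul_assoc, smul_sub]
  · intro f g g'
    simp only [associator, invT_add, add_mul, mul_add]
    abel
  · intro k f g
    simp only [associator, invT_smul, smul_mul_assoc, mul_smul_comm, smul_sub]
  · intro a
    exact Law_mem (IsLawT.nmA a b c)
  · intro a a'
    have h := Law_trA (mo F a * invT (mo F a')) (mo F b) (mo F c)
    rw [← Law_pol] at h
    have e : associator (mo F a * invT (mo F a')) (mo F b) (mo F c) +
        associator (mo F a' * invT (mo F a)) (mo F b) (mo F c) =
        associator (mo F a * invT (mo F a') + mo F a' * invT (mo F a)) (mo F b) (mo F c) := by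
      simp only [associator, add_mul]
      abel
    show associator (mo F a * invT (mo F a')) (mo F b) (mo F c) +
        associator (mo F a' * invT (mo F a)) (mo F b) (mo F c) ∈ LawK F
    rw [e]
    exact h

theorem Law_laws : Laws (LawK F) invT where
  left := Law_left
  right := Law_right
  altL := Law_altL
  altR := Law_altR
  trC := Law_trC
  trA := Law_trA
  nmC := Law_nmC
  nmA := Law_nmA

/-- every element of `F{x, t}` with real value `0` is a combination of instances of the laws -/
theorem law_spanT [Infinite F] {f : FB F} (hf : evt F f = 0) :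
    f ∈ Submodule.span F {g | IsLawT F g} := killT Law_laws hf

/-! ### real values -/

theorem Law_oc (x : Oc F) : x * star x = (x * star x).m₁ • (1 : Oc F) := by
  ext <;> simp <;> ring

theorem Law_isSc (a : Fn F) : IsSc (a * star a) :=
  ⟨fun v => (a v * star (a v)).m₁, fun v => Law_oc (a v)⟩

/-- the real values of the instances are `0` -/
theorem law_evt {g : FB F} (h : IsLawT F g) : evt F g = 0 := by
  induction h with
  | altLd u v =>
    rw [ActK_evt_asc]
    funext x
    show associator (evt F (mo F u) x) (evt F (mo F u) x) (evt F (mo F v) x) = 0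
    rw [associator, (Oc.qa F).alt_left, sub_self]
  | altRd u v =>
    rw [ActK_evt_asc]
    funext x
    show associator (evt F (mo F v) x) (evt F (mo F u) x) (evt F (mo F u) x) = 0
    rw [associator, (Oc.qa F).alt_right, sub_self]
  | altL u v w =>
    rw [map_add, ActK_evt_asc, ActK_evt_asc, ActK_fn12]
  | altR u v w =>
    rw [map_add, ActK_evt_asc, ActK_evt_asc, ActK_fn23]
  | trC u v =>
    rw [ActK_evt_com, map_add, evt_invT]
    exact ActK_sc_com (isSc_trf _) _
  | trA u v w =>
    rw [ActK_evt_asc, map_add, evt_invT]
    exact ActK_sc_asc (isSc_trf _) _ _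
  | nmC u v =>
    rw [ActK_evt_com, map_mul, evt_invT]
    exact ActK_sc_com (Law_isSc _) _
  | nmA u v w =>
    rw [ActK_evt_asc, map_mul, evt_invT]
    exact ActK_sc_asc (Law_isSc _) _ _
  | left u f _ ih => rw [map_mul, ih, mul_zero]
  | right u f _ ih => rw [map_mul, ih, zero_mul]

/-- the identities of the octonions, as elements of `F{x, t}`, are combinations of instances of the laws -/
theorem law_span2 [Infinite F] {f : FA F} (hf : ev F f = 0) :
    emb F f ∈ Submodule.span F {g | IsLawT F g} := by
  refine law_spanT ?_
  rw [evt_emb, hf]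

/-! ### the instances are homogeneous -/

theorem Law_PPc {s₁ s₂ : Multiset ℕ} {a b : FB F} (ha : a ∈ PP F ix s₁)
    (hb : b ∈ PP F ix s₂) : com a b ∈ PP F ix (s₁ + s₂) := ActK_com_mem ha hb

/-- the instances are homogeneous in the multidegree in the indices -/
theorem law_hom {g : FB F} (h : IsLawT F g) : ∃ m : Multiset ℕ, g ∈ PP F ix m := by
  have k : ∀ u : FreeMagma (ℕ ⊕ ℕ), mo F u ∈ PP F ix (lets ix u) := mo_mem ix
  induction h with
  | altLd u v => exact ⟨_, ActK_asc_mem (k u) (k u) (k v)⟩
  | altRd u v => exact ⟨_, ActK_asc_mem (k v) (k u) (k u)⟩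
  | altL u v w =>
    have h1 := ActK_asc_mem (k u) (k v) (k w)
    have h2 := ActK_asc_mem (k v) (k u) (k w)
    rw [add_comm (lets ix v) (lets ix u)] at h2
    exact ⟨_, add_mem h1 h2⟩
  | altR u v w =>
    have h1 := ActK_asc_mem (k w) (k u) (k v)
    have h2 := ActK_asc_mem (k w) (k v) (k u)
    rw [add_assoc, add_comm (lets ix v) (lets ix u), ← add_assoc] at h2
    exact ⟨_, add_mem h1 h2⟩
  | trC u v =>
    exact ⟨_, ActK_com_mem (Submodule.add_mem _ (k u) (invT_mem (k u))) (k v)⟩
  | trA u v w =>
    exact ⟨_, ActK_asc_mem (Submodule.add_mem _ (k u) (invT_mem (k u))) (k v) (k w)⟩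
  | nmC u v => exact ⟨_, ActK_com_mem (PP_mul ix (k u) (invT_mem (k u))) (k v)⟩
  | nmA u v w => exact ⟨_, ActK_asc_mem (PP_mul ix (k u) (invT_mem (k u))) (k v) (k w)⟩
  | left u f _ ih =>
    obtain ⟨m, hm⟩ := ih
    exact ⟨_, PP_mul ix (k u) hm⟩
  | right u f _ ih =>
    obtain ⟨m, hm⟩ := ih
    exact ⟨_, PP_mul ix hm (k u)⟩

end Pool.Agent.OT
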