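import Pool.Agent.OT.O2

/-!
# The Kleinfeld identities in characteristic 2  (module O3)

`a3_oc` comes from the char-free identity `(a b, c, d) = b (a, c, d) + (b, c, d) a + ([a, b], c, d) + ([c, d], a, b)` of alternative algebras
(Kleinfeld's function `f(a, b, c, d) = (a b, c, d) - b (a, c, d) - (b, c, d) a` is alternating and `f = ([a, b], c, d) + ([c, d], a, b)`): here
`(b, c, d) a = a (b, c, d) + com a (b, c, d)`. Proof by the Teichmueller identity
`(w x, y, z) - (w, x y, z) + (w, x, y z) = w (x, y, z) + (w, x, y) z` (true in every ring) and `as12`, `as23`.
`b4_oc`: the same identity with `(s, a, b) r = r (s, a, b) + com r (s, a, b)`, `(r, a, b) s = s (r, a, b) + com s (r, a, b)`.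
-/

set_option autoImplicit false
set_option linter.unusedSectionVars false

namespace Pool.Agent.OT

open FreeNonUnitalNonAssocAlgebra Pool.Agent.H.MP_41922c_al Pool.Agent.Smt Pool.Agent.OB Pool.Agent.OBX

variable {F : Type*} [Field F] [CharP F 2]

/-- the Teichmueller identity -/
theorem O3_T (w x y z : Oc F) : associator (w * x) y z + associator w (x * y) z +
    associator w x (y * z) = w * associator x y z + associator w x y * z := by
  have h := associator_cocycle w x y z
  linear_combination (norm := module) -h + two0 (associator w (x * y) z)

theorem O3_G (a b c d : Oc F) : associator (b * a) c d + associator (c * d) a b +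
    associator (d * c) a b = b * associator a c d + associator b c d * a := by
  have h1 := O3_T a b c d
  have h2 := O3_T a b d c
  have h3 := O3_T b a c d
  have h4 := O3_T b c d a
  have h5 := O3_T b d a c
  rw [as12 a (b * c) d, as23 a b (c * d), as12 a (c * d) b] at h1
  rw [as23 (a * b) d c, as12 a (b * d) c, as23 a b (d * c), as12 a (d * c) b, as23 b d c] at h2
  rw [as12 b (a * c) d, as23 b a (c * d), as12 b (c * d) a, as23 (c * d) b a, as12 b a c] at h3
  rw [as23 (b * c) d a, as12 b (c * d) a, as23 (c * d) b a, as23 b c (d * a), as12 b (d * a) c,
    as23 c d a, as12 c a d] at h4
  rw [as12 b (d * a) c, as23 b d (a * c), as12 b (a * c) d, as12 d a c, as23 a d c, as23 b d a,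
    as12 b a d] at h5
  linear_combination (norm := module) h1 + h2 + h3 + h4 + h5 - two0 (associator (a * b) c d)
    - two0 (associator (b * c) a d) - two0 (associator (c * d) a b) - two0 (associator (b * d) a c)
    - two0 (associator (a * c) b d) - two0 (associator (d * a) b c) + two0 (a * associator b c d)
    + two0 (associator a b c * d) + two0 (associator a b d * c) + two0 (b * associator a c d)

theorem O3_sub (x y a b : Oc F) : associator (x - y) a b = associator x a b - associator y a b := by
  unfold associator
  rw [sub_mul, sub_mul, sub_mul]
  abel

theorem a3_oc (a b c r : Oc F) : associator (a * b) c r = a * associator b c r + b * associator a c r +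
    (com a (associator b c r) + associator (com a b) c r + associator (com c r) a b) := by
  have h := O3_G a b c r
  unfold com
  rw [O3_sub, O3_sub]
  linear_combination (norm := module) h - two0 (a * associator b c r)
    + two0 (associator b c r * a) - two0 (associator (c * r) a b)

theorem b4_oc (a b s r : Oc F) : associator (s * r) a b = s * associator r a b + associator s a b * r +
    (associator (com s r) a b + associator (com a b) s r + com s (associator r a b) + com r (associator s a b)) := by
  have h := a3_oc s r a b
  have e : com r (associator s a b) = r * associator s a b - associator s a b * r := rfl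
  rw [e]
  linear_combination (norm := module) h

end Pool.Agent.OT
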