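import Pool.Agent.OT.RpC
import Pool.Agent.OT.O3

/-!
# Moving factors  (module Mov)

`mv_rp`: induction on `l`: `a (l (f R)) = a (f (l R)) + a * (..)`, and `a (f r) = f (a r) + com a f * r` (`mv_oc`) with
`r = Pv v (l ++ R)`; the first term of `mv` is `Rp.inpr []` of `Rp_com`. `mi_rp`: induction on `vs`: `x (w r) = w (x r) + com x w * r`.
`a3_rp`: `a3_oc`, `Rp_com`, `Rp_ass` (the middle elements are commutators or associators, of trace 0).
-/

set_option autoImplicit false
set_option linter.unusedSectionVars false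

namespace Pool.Agent.OT

open FreeNonUnitalNonAssocAlgebra Pool.Agent.H.MP_41922c_al Pool.Agent.Smt Pool.Agent.OB Pool.Agent.OBX

variable {F : Type*} [Field F] [CharP F 2]

theorem mv_rp (l : List (FA F)) {f : FA F} (hf : ∀ v : ℕ → Oc F, tt (vl v f) = 0) (R : List (FA F)) :
    Rp (mv l f R) (fun v => Pv v (l ++ f :: R) - Pv v (f :: (l ++ R))) := by
  induction l with
  | nil =>
    refine Rp_zero.congr fun v => ?_
    rw [List.nil_append, List.nil_append, sub_self]
  | cons a l ih =>
    have h1 := Rp.inpr [] (Rp_com a hf) (l ++ R)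
    have h2 := Rp.lmul a ih
    refine (h1.add h2).congr fun v => ?_
    change com (vl v a) (vl v f) * Pv v (l ++ R) + vl v a * (Pv v (l ++ f :: R) - Pv v (f :: (l ++ R))) = _
    rw [List.cons_append, List.cons_append, Pv_cons v a, Pv_cons v f (l ++ R), Pv_cons v f (a :: (l ++ R)),
      Pv_cons v a, mul_sub, mv_oc (vl v a) (vl v f) (Pv v (l ++ R))]
    abel

theorem mi_rp (x : FA F) (vs : List Cen) (R : List (FA F)) :
    Rp (mi x vs R) (fun v => vl v x * Pv v (vs.map (cv F) ++ R) - Pv v (vs.map (cv F) ++ x :: R)) := by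
  induction vs with
  | nil =>
    refine Rp_zero.congr fun v => ?_
    rw [List.map_nil, List.nil_append, List.nil_append, Pv_cons, sub_self]
  | cons w vs ih =>
    have h1 := Rp.inpr [] (Rp_com x (f := cv F w) fun v => vl_cv v w) (vs.map (cv F) ++ R)
    have h2 := Rp.lmul (cv F w) ih
    refine (h1.add h2).congr fun v => ?_
    change com (vl v x) (vl v (cv F w)) * Pv v (vs.map (cv F) ++ R) + vl v (cv F w) *
      (vl v x * Pv v (vs.map (cv F) ++ R) - Pv v (vs.map (cv F) ++ x :: R)) = _
    rw [List.map_cons, List.cons_append, List.cons_append, Pv_cons, Pv_cons, mul_sub,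
      mv_oc (vl v x) (vl v (cv F w)) (Pv v (vs.map (cv F) ++ R))]
    abel

theorem a3_rp (a b c R : FA F) : Rp (a3 a b c R) (fun v => associator (vl v a * vl v b) (vl v c) (vl v R)
    - vl v a * associator (vl v b) (vl v c) (vl v R) - vl v b * associator (vl v a) (vl v c) (vl v R)) := by
  have h1 := Rp_com a (f := associator b c R) fun v => by rw [vl_ass, tt_associator]
  have h2 := Rp_ass c R (f := com a b) fun v => by rw [vl_com, tt_com]
  have h3 := Rp_ass a b (f := com c R) fun v => by rw [vl_com, tt_com]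
  refine ((h1.add h2).add h3).congr fun v => ?_
  simp only [vl_ass, vl_com]
  rw [a3_oc (vl v a) (vl v b) (vl v c) (vl v R)]
  abel

end Pool.Agent.OT
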