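import Pool.Agent.OT.Red
import Pool.Agent.OB.Words

/-!
# `Psi` has the right value up to the complement  (module Psm)

`psi_mem`: the value of the word `w` is `tK v (tl w) • vl v (mo F u)` if `xl w = some u`, and `tK v (tl w) • 1` if `xl w = none` (induction on `w`; the letters `t_i`
have scalar values); then `N0_rp` with `us = []`, and `IsC.t` for `none` (`tl w` is not empty then). `Psi_mem`: every polynomial is a combination of the words `mo F w`
(see `linMo` in OB/BasD and its lemmas in OB, e.g. `linMo_mo`; prove what is missing here).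
-/

set_option autoImplicit false
set_option linter.unusedSectionVars false

namespace Pool.Agent.OT

open FreeNonUnitalNonAssocAlgebra Pool.Agent.H.MP_41922c_al Pool.Agent.Smt Pool.Agent.OB Pool.Agent.OBX

variable {F : Type*} [Field F] [CharP F 2]

/-- the value of the word without the letters `t_i` -/
private noncomputable def Psm_o (v : ℕ → Oc F) : Option (FreeMagma ℕ) → Oc F
  | none => 1
  | some u => vl v (mo F u)

private theorem Psm_tK_append (v : ℕ → Oc F) (K L : List ℕ) : tK v (K ++ L) = tK v K * tK v L := by
  unfold tK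
  rw [List.map_append, List.prod_append]

private theorem Psm_tl_ne : ∀ w : FreeMagma (ℕ ⊕ ℕ), xl w = none → tl w ≠ []
  | .of (.inl i), h => by
      simp [xl] at h
  | .of (.inr i), _ => by
      simp [tl]
  | .mul u w, h => by
      have h1 : tl (FreeMagma.mul u w) = tl u ++ tl w := rfl
      have h2 : xl (FreeMagma.mul u w) = (match xl u, xl w with
        | none, b => b
        | some a, none => some a
        | some a, some b => some (.mul a b)) := rfl
      rw [h2] at h
      rw [h1]
      cases hu : xl u with
      | none =>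
        have := Psm_tl_ne u hu
        intro h3
        exact this (List.append_eq_nil_iff.1 h3).1
      | some a =>
        rw [hu] at h
        cases hw : xl w with
        | none => rw [hw] at h; simp at h
        | some b => rw [hw] at h; simp at h

private theorem Psm_val (v : ℕ → Oc F) : ∀ w : FreeMagma (ℕ ⊕ ℕ),
    lift F (Sum.elim v (fun i => tt (v i) • (1 : Oc F))) (mo F w) = tK v (tl w) • Psm_o v (xl w)
  | .of (.inl i) => by
      have h1 : mo F (FreeMagma.of (Sum.inl i) : FreeMagma (ℕ ⊕ ℕ)) = of F (Sum.inl i) := rfl
      have h2 : tl (FreeMagma.of (Sum.inl i) : FreeMagma (ℕ ⊕ ℕ)) = [] := rfl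
      have h3 : xl (FreeMagma.of (Sum.inl i) : FreeMagma (ℕ ⊕ ℕ)) = some (.of i) := rfl
      have h4 : Psm_o v (some (.of i)) = lift F v (of F i) := rfl
      rw [h1, h2, h3, h4, lift_of_apply, lift_of_apply]
      simp [tK]
  | .of (.inr i) => by
      have h1 : mo F (FreeMagma.of (Sum.inr i) : FreeMagma (ℕ ⊕ ℕ)) = of F (Sum.inr i) := rfl
      have h2 : tl (FreeMagma.of (Sum.inr i) : FreeMagma (ℕ ⊕ ℕ)) = [i] := rfl
      have h3 : xl (FreeMagma.of (Sum.inr i) : FreeMagma (ℕ ⊕ ℕ)) = none := rfl
      have h4 : Psm_o v none = 1 := rfl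
      rw [h1, h2, h3, h4, lift_of_apply]
      simp [tK]
  | .mul u w => by
      have h1 : mo F (FreeMagma.mul u w) = mo F u * mo F w := rfl
      have h2 : tl (FreeMagma.mul u w) = tl u ++ tl w := rfl
      have h3 : xl (FreeMagma.mul u w) = (match xl u, xl w with
        | none, b => b
        | some a, none => some a
        | some a, some b => some (.mul a b)) := rfl
      rw [h1, h2, h3, map_mul, Psm_val v u, Psm_val v w, Psm_tK_append, smul_mul_assoc,
        mul_smul_comm, smul_smul]
      congr 1
      cases xl u with
      | none =>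
        change 1 * Psm_o v (xl w) = Psm_o v (xl w)
        rw [one_mul]
      | some a =>
        cases xl w with
        | none =>
          change Psm_o v (some a) * 1 = Psm_o v (some a)
          rw [mul_one]
        | some b =>
          change vl v (mo F a) * vl v (mo F b) = vl v (mo F a * mo F b)
          exact (map_mul (lift F v) _ _).symm

/-- every word: `Psi` has the value of the word up to the complement -/
theorem psi_mem (w : FreeMagma (ℕ ⊕ ℕ)) :
    (fun v : ℕ → Oc F => lift F (Sum.elim v (fun i => tt (v i) • (1 : Oc F))) (mo F w) - vl v (psiW F w)) ∈ Cmp F := by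
  have h0 : (fun v : ℕ → Oc F => lift F (Sum.elim v (fun i => tt (v i) • (1 : Oc F))) (mo F w)
      - vl v (psiW F w)) = fun v => tK v (tl w) • Psm_o v (xl w) - vl v (psiW F w) := by
    funext v
    rw [Psm_val]
  rw [h0]
  cases hx : xl w with
  | none =>
    have h1 : psiW F w = 0 := by
      unfold psiW
      rw [hx]
    have h2 : (fun v : ℕ → Oc F => tK v (tl w) • Psm_o v none - vl v (psiW F w)) =
        fun v => tK v (tl w) • Pv v (([] : List ℕ).map (of F)) := by
      funext v
      have hz : vl v (0 : FA F) = 0 := map_zero (lift F v)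
      rw [h1, hz, sub_zero]
      rfl
    rw [h2]
    exact Submodule.subset_span (IsC.t (tl w) [] (Psm_tl_ne w hx) List.Pairwise.nil)
  | some u =>
    cases ht : tl w with
    | nil =>
      have h1 : psiW F w = mo F u := by
        unfold psiW
        rw [hx, ht]
      have h2 : (fun v : ℕ → Oc F => tK v [] • Psm_o v (some u) - vl v (psiW F w)) = 0 := by
        funext v
        rw [h1]
        change tK v [] • vl v (mo F u) - vl v (mo F u) = 0
        simp [tK]
      rw [h2]
      exact Submodule.zero_mem _
    | cons k K =>
      have h1 : psiW F w = N0 [] u (k :: K) := by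
        unfold psiW
        rw [hx, ht]
      rw [h1]
      exact (N0_rp (F := F) [] u).2 (k :: K) (List.cons_ne_nil _ _)

theorem Psi_mem (f : FreeNonUnitalNonAssocAlgebra F (ℕ ⊕ ℕ)) :
    (fun v : ℕ → Oc F => lift F (Sum.elim v (fun i => tt (v i) • (1 : Oc F))) f - vl v (Psi F f)) ∈ Cmp F := by
  refine Words_ind (F := F) (α := ℕ ⊕ ℕ) (p := fun f => (fun v : ℕ → Oc F =>
    lift F (Sum.elim v (fun i => tt (v i) • (1 : Oc F))) f - vl v (Psi F f)) ∈ Cmp F)
    ?_ ?_ ?_ ?_ f
  · have h : (fun v : ℕ → Oc F => lift F (Sum.elim v (fun i => tt (v i) • (1 : Oc F)))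
        (0 : FreeNonUnitalNonAssocAlgebra F (ℕ ⊕ ℕ)) - vl v (Psi F 0)) = 0 := by
      funext v
      have hz : vl v (0 : FA F) = 0 := map_zero (lift F v)
      rw [map_zero, map_zero, hz, sub_zero]
      rfl
    rw [h]
    exact Submodule.zero_mem _
  · intro f g hf hg
    have h : (fun v : ℕ → Oc F => lift F (Sum.elim v (fun i => tt (v i) • (1 : Oc F)))
        (f + g) - vl v (Psi F (f + g))) =
        (fun v : ℕ → Oc F => lift F (Sum.elim v (fun i => tt (v i) • (1 : Oc F))) f
          - vl v (Psi F f)) +
        (fun v : ℕ → Oc F => lift F (Sum.elim v (fun i => tt (v i) • (1 : Oc F))) g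
          - vl v (Psi F g)) := by
      funext v
      have hz : vl v (Psi F f + Psi F g) = vl v (Psi F f) + vl v (Psi F g) :=
        map_add (lift F v) _ _
      rw [Pi.add_apply, map_add, map_add, hz]
      abel
    rw [h]
    exact Submodule.add_mem _ hf hg
  · intro k f hf
    have h : (fun v : ℕ → Oc F => lift F (Sum.elim v (fun i => tt (v i) • (1 : Oc F)))
        (k • f) - vl v (Psi F (k • f))) =
        k • (fun v : ℕ → Oc F => lift F (Sum.elim v (fun i => tt (v i) • (1 : Oc F))) f
          - vl v (Psi F f)) := by
      funext v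
      have hz : vl v (k • Psi F f) = k • vl v (Psi F f) := map_smul (lift F v) _ _
      rw [Pi.smul_apply, map_smul, map_smul, hz, smul_sub]
    rw [h]
    exact Submodule.smul_mem _ _ hf
  · intro w
    have h : Psi F (mo F w) = psiW F w := linMo_mo _ w
    rw [h]
    exact psi_mem w

end Pool.Agent.OT
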