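import Pool.Agent.OT.Ins
import Pool.Agent.OT.Bas
import Pool.Agent.OT.Hub

set_option autoImplicit false
set_option linter.unusedSectionVars false

namespace Pool.Agent.OT

open FreeNonUnitalNonAssocAlgebra Pool.Agent.H.MP_41922c_al Pool.Agent.Smt Pool.Agent.OB Pool.Agent.OBX

variable {F : Type*} [Field F] [CharP F 2]

/-- `u_n (.. (u_1 z))` -/
noncomputable def Wx (v : ℕ → Oc F) (us : List (FreeMagma ℕ)) (z : Oc F) : Oc F :=
  us.foldl (fun r u => vl v (mo F u) * r) z

theorem Wx_cons (v : ℕ → Oc F) (u : FreeMagma ℕ) (us : List (FreeMagma ℕ)) (z : Oc F) :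
    Wx v (u :: us) z = Wx v us (vl v (mo F u) * z) := rfl

theorem Wx_add (v : ℕ → Oc F) (us : List (FreeMagma ℕ)) (z z' : Oc F) :
    Wx v us (z + z') = Wx v us z + Wx v us z' := by
  induction us generalizing z z' with
  | nil => rfl
  | cons u us ih => rw [Wx_cons, Wx_cons, Wx_cons, mul_add, ih]

theorem Wx_zero (v : ℕ → Oc F) (us : List (FreeMagma ℕ)) : Wx v us 0 = 0 := by
  induction us with
  | nil => rfl
  | cons u us ih => rw [Wx_cons, mul_zero, ih]

theorem Wx_sum (v : ℕ → Oc F) (us : List (FreeMagma ℕ)) {ι : Type*} (l : List ι) (f : ι → Oc F) :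
    Wx v us ((l.map f).sum) = (l.map fun s => Wx v us (f s)).sum := by
  induction l with
  | nil => exact Wx_zero v us
  | cons a l ih => rw [List.map_cons, List.map_cons, List.sum_cons, List.sum_cons, Wx_add, ih]

theorem RpM.congr {g : Rep F} {l l' : (ℕ → Oc F) → Oc F} (h : RpM g l) (e : ∀ v, l v = l' v) : RpM g l' := by
  have : l = l' := funext e
  rwa [← this]

theorem RpM.add {g g' : Rep F} {l l' : (ℕ → Oc F) → Oc F} (h : RpM g l) (h' : RpM g' l') :
    RpM (g + g') (fun v => l v + l' v) := by
  refine ⟨fun v => ?_, fun K hK => ?_⟩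
  · show vl v ((g + g') []) = l v + l' v
    rw [← h.1 v, ← h'.1 v]
    exact map_add (lift F v) _ _
  · have e : (fun v => tK v K • (l v + l' v) - vl v ((g + g') K))
        = (fun v => tK v K • l v - vl v (g K)) + (fun v => tK v K • l' v - vl v (g' K)) := by
      funext v
      have e2 : vl v ((g + g') K) = vl v (g K) + vl v (g' K) := map_add (lift F v) _ _
      show tK v K • (l v + l' v) - vl v ((g + g') K) = (tK v K • l v - vl v (g K)) + (tK v K • l' v - vl v (g' K))
      rw [e2, smul_add]
      abel
    rw [e]
    exact (Cmp F).add_mem (h.2 K hK) (h'.2 K hK)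

theorem Rp.toM {g : Rep F} {l : (ℕ → Oc F) → Oc F} (h : Rp g l) : RpM g l := by
  refine ⟨fun v => ?_, fun K hK => ?_⟩
  · rw [h v [], tK_nil, one_smul]
  · have e : (fun v => tK v K • l v - vl v (g K)) = 0 := by
      funext v
      show tK v K • l v - vl v (g K) = 0
      rw [h v K, sub_self]
    rw [e]
    exact (Cmp F).zero_mem

theorem RpM_zero : RpM (0 : Rep F) (fun _ => 0) := Rp_zero.toM

theorem RpM_sum {ι : Type*} (l : List ι) (g : ι → Rep F) (f : ι → (ℕ → Oc F) → Oc F)
    (h : ∀ s ∈ l, RpM (g s) (f s)) : RpM ((l.map g).sum) (fun v => (l.map fun s => f s v).sum) := by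
  induction l with
  | nil => exact RpM_zero
  | cons a l ih =>
    rw [List.map_cons, List.sum_cons]
    exact ((h a (by simp)).add (ih fun s hs => h s (by simp [hs]))).congr fun v => by
      rw [List.map_cons, List.sum_cons]

theorem ctx_rp (us : List (FreeMagma ℕ)) {g : Rep F} {l : (ℕ → Oc F) → Oc F} (h : Rp g l) :
    Rp (ctx us g) (fun v => Wx v us (l v)) := by
  induction us generalizing g l with
  | nil => exact h
  | cons u us ih => exact ih (h.lmul (mo F u))

theorem Red_fac_ne {vs : List Cen} {g : List ℕ} (h : vs ≠ [] ∨ g ≠ []) : fac F vs g ≠ [] := by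
  intro h2
  rw [fac, List.append_eq_nil_iff, List.map_eq_nil_iff, List.map_eq_nil_iff] at h2
  tauto

theorem vl_prf {vs : List Cen} {g : List ℕ} (h : vs ≠ [] ∨ g ≠ []) (v : ℕ → Oc F) :
    vl v (pr (fac F vs g)) = Pv v (fac F vs g) := by
  rcases h2 : fac F vs g with _ | ⟨a, l⟩
  · exact absurd h2 (Red_fac_ne h)
  · exact vl_pr v a l

theorem N12 (n : ℕ) :
    (∀ us vs g, wt us ≤ n → g.Pairwise (· ≤ ·) → (vs ≠ [] ∨ g ≠ []) →
      RpM (N1 (F := F) us vs g) (fun v => Wx v us (Pv v (fac F vs g)))) ∧
    ∀ us a b vs g, wt us + (2 * a.length - 1) + (2 * b.length - 1) ≤ n → g.Pairwise (· ≤ ·) →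
      (vs ≠ [] ∨ g ≠ []) →
      RpM (N2 (F := F) us a b vs g)
        (fun v => Wx v us (associator (vl v (mo F a)) (vl v (mo F b)) (Pv v (fac F vs g)))) := by
  induction n using Nat.strong_induction_on with
  | _ n ih =>
  constructor
  · intro us vs g hn hg hne
    rcases us with _ | ⟨u, us⟩
    · rw [N1]
      refine ⟨fun v => hub_nil v hne, fun K hK => hub_mem hg hK vs⟩
    · cases u with
      | of i =>
        rw [N1]
        have hw : wt us < n := by
          simp only [wt, List.map_cons, List.sum_cons, FreeMagma.length] at hn ⊢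
          omega
        have h1 := RpM_sum (insS i vs [] g) (fun s => N1 (F := F) us s.1 s.2)
          (fun s v => Wx v us (Pv v (fac F s.1 s.2))) (fun s hs =>
            (ih (wt us) hw).1 us s.1 s.2 le_rfl (ins_ok i vs [] g (by simpa using hg) (by simp) s hs).1
              (ins_ok i vs [] g (by simpa using hg) (by simp) s hs).2)
        have h2 := (ctx_rp us ((mi_rp (of F i) vs (g.map (of F))).add (ins_rp i vs [] g))).toM
        refine (h1.add h2).congr fun v => ?_
        rw [← Wx_sum, ← Wx_add, Wx_cons]
        congr 1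
        have e1 : fac F vs ([] : List ℕ) = vs.map (cv F) := by simp [fac]
        have e2 : fac F vs g = vs.map (cv F) ++ g.map (of F) := rfl
        rw [e1, e2]
        show _ = vl v (mo F (FreeMagma.of i)) * _
        have e3 : mo F (FreeMagma.of i) = of F i := rfl
        rw [e3]
        abel
      | mul a b =>
        rw [N1]
        have ha := FreeMagma.length_pos a
        have hb := FreeMagma.length_pos b
        have hw : wt (b :: a :: us) < n := by
          simp only [wt, List.map_cons, List.sum_cons, FreeMagma.length] at hn ⊢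
          omega
        have hw2 : wt us + (2 * a.length - 1) + (2 * b.length - 1) < n := by
          simp only [wt, List.map_cons, List.sum_cons, FreeMagma.length] at hn ⊢
          omega
        have h1 := (ih _ hw).1 (b :: a :: us) vs g le_rfl hg hne
        have h2 := (ih _ hw2).2 us a b vs g le_rfl hg hne
        refine (h1.add h2).congr fun v => ?_
        rw [Wx_cons, Wx_cons, Wx_cons, ← Wx_add]
        congr 1
        have e3 : vl v (mo F (FreeMagma.mul a b)) = vl v (mo F a) * vl v (mo F b) := by
          show vl v (mo F a * mo F b) = _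
          rw [vl_mul]
        rw [e3, associator]
        abel
  · intro us a b vs g hn hg hne
    cases a with
    | mul a1 a2 =>
      rw [N2]
      have ha := FreeMagma.length_pos a1
      have hb := FreeMagma.length_pos a2
      have hc := FreeMagma.length_pos b
      have hw : wt (a1 :: us) + (2 * a2.length - 1) + (2 * b.length - 1) < n := by
        simp only [wt, List.map_cons, List.sum_cons, FreeMagma.length] at hn ⊢
        omega
      have hw2 : wt (a2 :: us) + (2 * a1.length - 1) + (2 * b.length - 1) < n := by
        simp only [wt, List.map_cons, List.sum_cons, FreeMagma.length] at hn ⊢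
        omega
      have h1 := (ih _ hw).2 (a1 :: us) a2 b vs g le_rfl hg hne
      have h2 := (ih _ hw2).2 (a2 :: us) a1 b vs g le_rfl hg hne
      have h3 := (ctx_rp us (a3_rp (mo F a1) (mo F a2) (mo F b) (pr (fac F vs g)))).toM
      refine ((h1.add h2).add h3).congr fun v => ?_
      rw [Wx_cons, Wx_cons, ← Wx_add, ← Wx_add]
      congr 1
      have e3 : vl v (mo F (FreeMagma.mul a1 a2)) = vl v (mo F a1) * vl v (mo F a2) := by
        show vl v (mo F a1 * mo F a2) = _
        rw [vl_mul]
      rw [e3, vl_prf hne]
      abel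
    | of i =>
      cases b with
      | mul b c =>
        rw [N2]
        have hb := FreeMagma.length_pos b
        have hc := FreeMagma.length_pos c
        have hw : wt (b :: us) + (2 * (FreeMagma.of i).length - 1) + (2 * c.length - 1) < n := by
          simp only [wt, List.map_cons, List.sum_cons, FreeMagma.length] at hn ⊢
          omega
        have hw2 : wt (c :: us) + (2 * (FreeMagma.of i).length - 1) + (2 * b.length - 1) < n := by
          simp only [wt, List.map_cons, List.sum_cons, FreeMagma.length] at hn ⊢
          omega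
        have h1 := (ih _ hw).2 (b :: us) (.of i) c vs g le_rfl hg hne
        have h2 := (ih _ hw2).2 (c :: us) (.of i) b vs g le_rfl hg hne
        have h3 := (ctx_rp us (a3_rp (mo F b) (mo F c) (of F i) (pr (fac F vs g)))).toM
        refine ((h1.add h2).add h3).congr fun v => ?_
        rw [Wx_cons, Wx_cons, ← Wx_add, ← Wx_add]
        congr 1
        have e3 : vl v (mo F (FreeMagma.mul b c)) = vl v (mo F b) * vl v (mo F c) := by
          show vl v (mo F b * mo F c) = _
          rw [vl_mul]
        have e4 : mo F (FreeMagma.of i) = of F i := rfl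
        rw [e3, vl_prf hne, e4, as12 (vl v (of F i)) (vl v (mo F c)), as12 (vl v (of F i)) (vl v (mo F b)),
          as12 (vl v (of F i)) (vl v (mo F b) * vl v (mo F c))]
        abel
      | of j =>
        rw [N2]
        have hw : wt us < n := by
          simp only [FreeMagma.length] at hn ⊢
          omega
        have h1 := RpM_sum (basS i j vs [] g) (fun s => N1 (F := F) us s.1 s.2)
          (fun s v => Wx v us (Pv v (fac F s.1 s.2))) (fun s hs =>
            (ih (wt us) hw).1 us s.1 s.2 le_rfl (bas_ok i j vs [] g (by simpa using hg) s hs).1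
              (bas_ok i j vs [] g (by simpa using hg) s hs).2)
        have h2 := (ctx_rp us (bas_rp (F := F) i j vs g)).toM
        refine (h1.add h2).congr fun v => ?_
        rw [← Wx_sum, ← Wx_add]
        congr 1
        have e4 : ∀ i : ℕ, vl v (mo F (FreeMagma.of i)) = v i := fun i => vl_of v i
        rw [e4, e4]
        abel

theorem N0_rp (us : List (FreeMagma ℕ)) (w : FreeMagma ℕ) :
    RpM (N0 (F := F) us w) (fun v => Wx v us (vl v (mo F w))) := by
  induction w generalizing us with
  | ih1 i =>
    show RpM (N0 (F := F) us (.of i)) (fun v => Wx v us (vl v (mo F (.of i))))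
    rw [N0]
    refine ((N12 (wt us)).1 us [] [i] le_rfl (by simp) (Or.inr (by simp))).congr fun v => ?_
    congr 1
    show vl v (of F i) * 1 = _
    rw [mul_one]
    rfl
  | ih2 a b iha ihb =>
    show RpM (N0 (F := F) us (.mul a b)) (fun v => Wx v us (vl v (mo F (.mul a b))))
    rw [N0]
    refine (ihb (a :: us)).congr fun v => ?_
    rw [Wx_cons]
    congr 1
    show _ = vl v (mo F a * mo F b)
    rw [vl_mul]

end Pool.Agent.OT
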