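import Pool.Agent.OT.O2

/-!
# Representations  (module RpB)

`vl v (adK K f)` is the iterated commutator, and for `tt (vl v f) = 0` (then `tt` of all the iterated commutators is 0, `tt_com`)
`com a (vl v (adK K f)) = tK v K • com a (vl v f)` by induction on `K` (all `f`; `adK (k :: K) f = com x_k (adK K f)`; use
`tr_com` with `w = vl v (adK K f)`), and similarly for `associator` by `tr_ass`.
-/

set_option autoImplicit false
set_option linter.unusedSectionVars false

namespace Pool.Agent.OT

open FreeNonUnitalNonAssocAlgebra Pool.Agent.H.MP_41922c_al Pool.Agent.Smt Pool.Agent.OB Pool.Agent.OBX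

variable {F : Type*} [Field F]

theorem vl_of (v : ℕ → Oc F) (i : ℕ) : vl v (of F i) = v i := by
  exact lift_of_apply F v i

theorem vl_mul (v : ℕ → Oc F) (f g : FA F) : vl v (f * g) = vl v f * vl v g := by
  exact map_mul _ f g

theorem vl_com (v : ℕ → Oc F) (f g : FA F) : vl v (com f g) = com (vl v f) (vl v g) := by
  have h : vl v (f * g - g * f) = vl v (f * g) - vl v (g * f) := map_sub (lift F v) _ _
  unfold com
  rw [h, vl_mul, vl_mul]

theorem vl_ass (v : ℕ → Oc F) (f g h : FA F) : vl v (associator f g h) =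
    associator (vl v f) (vl v g) (vl v h) := by
  have e : vl v (f * g * h - f * (g * h)) = vl v (f * g * h) - vl v (f * (g * h)) :=
    map_sub (lift F v) _ _
  unfold associator
  rw [e, vl_mul, vl_mul, vl_mul, vl_mul]

theorem vl_cv (v : ℕ → Oc F) (c : Cen) : tt (vl v (cv F c)) = 0 := by
  cases c with
  | c i j => exact (congrArg tt (vl_com v _ _)).trans (tt_com _ _)
  | d i j k => exact (congrArg tt (vl_ass v _ _ _)).trans (tt_associator _ _ _)

theorem tK_nil (v : ℕ → Oc F) : tK v [] = 1 := by
  rfl

theorem tK_cons (v : ℕ → Oc F) (i : ℕ) (K : List ℕ) : tK v (i :: K) = tt (v i) * tK v K := by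
  exact List.prod_cons

theorem Cx_append (v : ℕ → Oc F) (l l' : List (FA F)) (z : Oc F) : Cx v (l ++ l') z = Cx v l (Cx v l' z) := by
  exact List.foldr_append

theorem Cx_add (v : ℕ → Oc F) (l : List (FA F)) (z z' : Oc F) : Cx v l (z + z') = Cx v l z + Cx v l z' := by
  induction l with
  | nil => rfl
  | cons a l ih =>
    change vl v a * Cx v l (z + z') = vl v a * Cx v l z + vl v a * Cx v l z'
    rw [ih, mul_add]

theorem Cx_smul (v : ℕ → Oc F) (l : List (FA F)) (c : F) (z : Oc F) : Cx v l (c • z) = c • Cx v l z := by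
  induction l with
  | nil => rfl
  | cons a l ih =>
    change vl v a * Cx v l (c • z) = c • (vl v a * Cx v l z)
    rw [ih, mul_smul_comm]

theorem Pv_nil (v : ℕ → Oc F) : Pv v [] = 1 := by
  rfl

theorem Pv_cons (v : ℕ → Oc F) (a : FA F) (l : List (FA F)) : Pv v (a :: l) = vl v a * Pv v l := by
  rfl

theorem Pv_append (v : ℕ → Oc F) (l l' : List (FA F)) : Pv v (l ++ l') = Cx v l (Pv v l') := by
  exact Cx_append v l l' 1

theorem vl_pr (v : ℕ → Oc F) (a : FA F) (l : List (FA F)) : vl v (pr (a :: l)) = Pv v (a :: l) := by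
  induction l generalizing a with
  | nil =>
    rw [Pv_cons, Pv_nil, mul_one]
    rfl
  | cons b l ih =>
    rw [Pv_cons, ← ih b]
    exact vl_mul v a (pr (b :: l))

theorem vl_pr_append (v : ℕ → Oc F) (l : List (FA F)) (a : FA F) (l' : List (FA F)) :
    vl v (pr (l ++ a :: l')) = Cx v l (vl v a * Pv v l') := by
  rw [← Pv_cons, ← Pv_append]
  cases l with
  | nil => exact vl_pr v a l'
  | cons b l => exact vl_pr v b (l ++ a :: l')

/-- `pr` and `Pv` agree up to the empty list, where all the commutators and associators vanish -/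
theorem com_pr (v : ℕ → Oc F) (a : Oc F) (l : List (FA F)) : com a (vl v (pr l)) = com a (Pv v l) := by
  cases l with
  | nil =>
    have h : vl v (pr ([] : List (FA F))) = 0 := map_zero _
    rw [h, Pv_nil, com_one]
    unfold com
    rw [mul_zero, zero_mul, sub_zero]
  | cons b l => rw [vl_pr]

theorem ass_pr (v : ℕ → Oc F) (a b : Oc F) (l : List (FA F)) :
    associator a b (vl v (pr l)) = associator a b (Pv v l) := by
  cases l with
  | nil =>
    have h : vl v (pr ([] : List (FA F))) = 0 := map_zero _
    rw [h, Pv_nil]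
    unfold associator
    rw [mul_zero, mul_zero, mul_zero, mul_one, mul_one, sub_zero, sub_self]
  | cons c l => rw [vl_pr]

theorem ass_pr' (v : ℕ → Oc F) (a b : Oc F) (l : List (FA F)) :
    associator (vl v (pr l)) a b = associator (Pv v l) a b := by
  cases l with
  | nil =>
    have h : vl v (pr ([] : List (FA F))) = 0 := map_zero _
    rw [h, Pv_nil]
    unfold associator
    rw [zero_mul, zero_mul, zero_mul, one_mul, one_mul, sub_zero, sub_self]
  | cons c l => rw [vl_pr]

theorem Rp.add {g g' : Rep F} {l l' : (ℕ → Oc F) → Oc F} (h : Rp g l) (h' : Rp g' l') :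
    Rp (g + g') (fun v => l v + l' v) := by
  intro v K
  have e : vl v ((g + g') K) = vl v (g K) + vl v (g' K) := map_add _ _ _
  rw [e, h v K, h' v K, smul_add]

theorem Rp_zero : Rp (0 : Rep F) (fun _ => 0) := by
  intro v K
  have e : vl v ((0 : Rep F) K) = 0 := map_zero _
  rw [e, smul_zero]

theorem Rp.congr {g : Rep F} {l l' : (ℕ → Oc F) → Oc F} (h : Rp g l) (e : ∀ v, l v = l' v) : Rp g l' := by
  intro v K
  rw [h v K, e v]

theorem Rp.lmul (f : FA F) {g : Rep F} {l : (ℕ → Oc F) → Oc F} (h : Rp g l) :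
    Rp (fun K => f * g K) (fun v => vl v f * l v) := by
  intro v K
  change vl v (f * g K) = _
  rw [vl_mul, h v K, mul_smul_comm]

theorem Rp.rmul (f : FA F) {g : Rep F} {l : (ℕ → Oc F) → Oc F} (h : Rp g l) :
    Rp (fun K => g K * f) (fun v => l v * vl v f) := by
  intro v K
  change vl v (g K * f) = _
  rw [vl_mul, h v K, smul_mul_assoc]

/-- `g` in a product -/
theorem Rp.inpr (l : List (FA F)) {g : Rep F} {m : (ℕ → Oc F) → Oc F} (h : Rp g m) (l' : List (FA F)) :
    Rp (fun K => pr (l ++ g K :: l')) (fun v => Cx v l (m v * Pv v l')) := by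
  intro v K
  change vl v (pr (l ++ g K :: l')) = _
  rw [vl_pr_append, h v K, smul_mul_assoc, Cx_smul]

theorem RpB_tt {v : ℕ → Oc F} {f : FA F} (hf : tt (vl v f) = 0) (K : List ℕ) :
    tt (vl v (adK K f)) = 0 := by
  cases K with
  | nil => exact hf
  | cons k K => exact (congrArg tt (vl_com v (of F k) (adK K f))).trans (tt_com _ _)

variable [CharP F 2]

theorem adK_com {v : ℕ → Oc F} {f : FA F} (hf : tt (vl v f) = 0) (K : List ℕ) (a : Oc F) :
    com a (vl v (adK K f)) = tK v K • com a (vl v f) := by
  induction K generalizing a with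
  | nil =>
    rw [tK_nil, one_smul]
    rfl
  | cons k K ih =>
    have e : vl v (adK (k :: K) f) = com (v k) (vl v (adK K f)) := by
      have h := vl_com v (of F k) (adK K f)
      rw [vl_of] at h
      exact h
    rw [e, ← tr_com _ _ _ (RpB_tt hf K), ih, smul_smul, tK_cons]

theorem adK_ass {v : ℕ → Oc F} {f : FA F} (hf : tt (vl v f) = 0) (K : List ℕ) (a b : Oc F) :
    associator (vl v (adK K f)) a b = tK v K • associator (vl v f) a b := by
  induction K generalizing a b with
  | nil =>
    rw [tK_nil, one_smul]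
    rfl
  | cons k K ih =>
    have e : vl v (adK (k :: K) f) = com (v k) (vl v (adK K f)) := by
      have h := vl_com v (of F k) (adK K f)
      rw [vl_of] at h
      exact h
    rw [e, ← tr_ass _ _ _ _ (RpB_tt hf K), ih, smul_smul, tK_cons]

theorem Rp_com (a : FA F) {f : FA F} (hf : ∀ v : ℕ → Oc F, tt (vl v f) = 0) :
    Rp (fun K => com a (adK K f)) (fun v => com (vl v a) (vl v f)) := by
  intro v K
  change vl v (com a (adK K f)) = _
  rw [vl_com, adK_com (hf v)]

theorem Rp_ass (a b : FA F) {f : FA F} (hf : ∀ v : ℕ → Oc F, tt (vl v f) = 0) :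
    Rp (fun K => associator (adK K f) a b) (fun v => associator (vl v f) (vl v a) (vl v b)) := by
  intro v K
  change vl v (associator (adK K f) a b) = _
  rw [vl_ass, adK_ass (hf v)]

end Pool.Agent.OT
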