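import Pool.Agent.OT.RpB
import Pool.Agent.OT.O2

/-!
# Representations of commutators and associators  (module RpC)

`adK_com`, `adK_ass`, `Rp_com`, `Rp_ass` are proved in the module RpB.
-/
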