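import Pool.Agent.OT.Exc

/-!
# Sorting with the hub letter  (module Sor)

`swp_v`: `p = []`: `ex_v` with `p = []`; `p = k :: p'`: three times `ex_v`:
`T(k :: p' ++ x :: y :: q) -> T(x :: p' ++ k :: y :: q) -> T(y :: p' ++ k :: x :: q) -> T(k :: p' ++ y :: x :: q)`. `Fits` depends only on the length.
`sIn_v`, `sSo_v`: inductions which follow `List.orderedInsert`, `List.insertionSort`.
-/

set_option autoImplicit false
set_option linter.unusedSectionVars false

namespace Pool.Agent.OT

open FreeNonUnitalNonAssocAlgebra Pool.Agent.H.MP_41922c_al Pool.Agent.Smt Pool.Agent.OB Pool.Agent.OBX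

variable {F : Type*} [Field F] [CharP F 2]

theorem Sor_fits {b : Bool} {l l' : List ℕ} (h : Fits b l) (e : l.length = l'.length) :
    Fits b l' := by
  unfold Fits at h ⊢
  rwa [← e]

theorem Sor_vl_add (v : ℕ → Oc F) (f g : FA F) : vl v (f + g) = vl v f + vl v g :=
  map_add _ f g

theorem Sor_vl_zero (v : ℕ → Oc F) : vl v (0 : FA F) = 0 :=
  map_zero _

theorem swp_v (v : ℕ → Oc F) (b : Bool) (g p : List ℕ) (x y : ℕ) (q : List ℕ)
    (h : Fits b ((p ++ x :: y :: q).tail)) :
    Tv v b g (p ++ x :: y :: q) = Tv v b g (p ++ y :: x :: q) + vl v (swp b g p x y q) := by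
  cases p with
  | nil => exact ex_v v b g x [] y q h
  | cons k p =>
    have h0 : Fits b (p ++ x :: y :: q) := h
    have h1 := ex_v v b g k p x (y :: q) h0
    have h2 := ex_v v b g x (p ++ [k]) y q (Sor_fits h0 (by simp))
    have h3 := ex_v v b g y p k (x :: q) (Sor_fits h0 (by simp))
    have e1 : (p ++ [k]) ++ y :: q = p ++ k :: y :: q := by simp
    have e2 : (p ++ [k]) ++ x :: q = p ++ k :: x :: q := by simp
    rw [e1, e2] at h2
    have hs : swp b g (k :: p) x y q =
        (ex b g k p x (y :: q) + ex b g x (p ++ [k]) y q + ex b g y p k (x :: q) : FA F) := rfl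
    rw [hs, Sor_vl_add, Sor_vl_add]
    show Tv v b g (k :: (p ++ x :: y :: q)) = Tv v b g (k :: (p ++ y :: x :: q)) + _
    rw [h1, h2, h3]
    abel

theorem sIn_v (v : ℕ → Oc F) (b : Bool) (g p : List ℕ) (x : ℕ) (q : List ℕ)
    (h : Fits b ((p ++ x :: q).tail)) :
    Tv v b g (p ++ x :: q) = Tv v b g (p ++ q.orderedInsert (· ≤ ·) x) + vl v (sIn b g p x q) := by
  induction q generalizing p with
  | nil =>
    have e : (sIn b g p x [] : FA F) = 0 := rfl
    rw [e, Sor_vl_zero, add_zero]
    rfl
  | cons y q ih =>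
    by_cases hxy : x ≤ y
    · have e : (sIn b g p x (y :: q) : FA F) = 0 := by
        simp only [sIn, if_pos hxy]
      have e' : (y :: q).orderedInsert (· ≤ ·) x = x :: y :: q := by
        simp only [List.orderedInsert, if_pos hxy]
      rw [e, e', Sor_vl_zero, add_zero]
    · have e : (sIn b g p x (y :: q) : FA F) = swp b g p x y q + sIn b g (p ++ [y]) x q := by
        simp only [sIn, if_neg hxy]
      have e' : (y :: q).orderedInsert (· ≤ ·) x = y :: q.orderedInsert (· ≤ ·) x := by
        simp only [List.orderedInsert, if_neg hxy]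
      have h1 := ih (p ++ [y]) (Sor_fits h (by simp))
      have e1 : (p ++ [y]) ++ x :: q = p ++ y :: x :: q := by simp
      have e2 : (p ++ [y]) ++ q.orderedInsert (· ≤ ·) x =
          p ++ y :: q.orderedInsert (· ≤ ·) x := by simp
      rw [e1, e2] at h1
      rw [swp_v v b g p x y q h, h1, e, e', Sor_vl_add]
      abel

theorem sSo_v (v : ℕ → Oc F) (b : Bool) (g p s : List ℕ) (h : Fits b ((p ++ s).tail)) :
    Tv v b g (p ++ s) = Tv v b g (p ++ s.insertionSort (· ≤ ·)) + vl v (sSo b g p s) := by
  induction s generalizing p with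
  | nil =>
    have e : (sSo b g p [] : FA F) = 0 := by simp only [sSo]
    rw [e, Sor_vl_zero, add_zero]
    rfl
  | cons x s ih =>
    have e : (sSo b g p (x :: s) : FA F) =
        sSo b g (p ++ [x]) s + sIn b g p x (s.insertionSort (· ≤ ·)) := by
      simp only [sSo]
    have e' : (x :: s).insertionSort (· ≤ ·) =
        (s.insertionSort (· ≤ ·)).orderedInsert (· ≤ ·) x := rfl
    have h1 := ih (p ++ [x]) (Sor_fits h (by simp))
    have e1 : (p ++ [x]) ++ s = p ++ x :: s := by simp
    have e2 : (p ++ [x]) ++ s.insertionSort (· ≤ ·) =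
        p ++ x :: s.insertionSort (· ≤ ·) := by simp
    rw [e1, e2] at h1
    have h2 := sIn_v v b g p x (s.insertionSort (· ≤ ·)) (Sor_fits h (by simp))
    rw [h1, h2, e, e', Sor_vl_add]
    abel

end Pool.Agent.OT
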