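import Pool.Agent.OT.Def
import Pool.Agent.OB.Oct

/-!
# Values at octonions, the complement (definitions)
-/

set_option autoImplicit false
set_option linter.unusedSectionVars false

namespace Pool.Agent.OT

open FreeNonUnitalNonAssocAlgebra Pool.Agent.H.MP_41922c_al Pool.Agent.Smt Pool.Agent.OB Pool.Agent.OBX

variable {F : Type*} [Field F]

/-- the value of a polynomial -/
noncomputable abbrev vl (v : ℕ → Oc F) (f : FA F) : Oc F := lift F v f

/-- the product of the traces -/
def tK (v : ℕ → Oc F) (K : List ℕ) : F := (K.map fun i => tt (v i)).prod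

/-- `a_1 (.. (a_n z))` -/
noncomputable def Cx (v : ℕ → Oc F) (l : List (FA F)) (z : Oc F) : Oc F :=
  l.foldr (fun a r => vl v a * r) z

/-- `a_1 (.. a_n)`, and `1` for the empty list -/
noncomputable def Pv (v : ℕ → Oc F) (l : List (FA F)) : Oc F := Cx v l 1

/-- `g` represents `l` -/
def Rp (g : Rep F) (l : (ℕ → Oc F) → Oc F) : Prop := ∀ v K, vl v (g K) = tK v K • l v

/-- the functions which span the complement -/
inductive IsC : ((ℕ → Oc F) → Oc F) → Prop
  | t (K g : List ℕ) (hK : K ≠ []) (hg : g.Pairwise (· ≤ ·)) :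
      IsC (fun v => tK v K • Pv v (g.map (of F)))
  | s (k : ℕ) (l g : List ℕ) (hl : (k :: l).Pairwise (· < ·)) (h2 : 2 ≤ l.length)
      (hg : g.Pairwise (· ≤ ·)) :
      IsC (fun v => tt (v k) • Pv v (fac F (cns (decide (Odd l.length)) l) g))

variable (F) in
/-- the complement -/
def Cmp : Submodule F ((ℕ → Oc F) → Oc F) := Submodule.span F {l | IsC l}

/-- `g` represents `l` modulo the complement -/
def RpM (g : Rep F) (l : (ℕ → Oc F) → Oc F) : Prop :=
  (∀ v, vl v (g []) = l v) ∧ ∀ K, K ≠ [] → (fun v => tK v K • l v - vl v (g K)) ∈ Cmp F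

/-- the value of `T(s) = t_k P(l)`, `s = k :: l` -/
noncomputable def Tv (v : ℕ → Oc F) (b : Bool) (g : List ℕ) : List ℕ → Oc F
  | [] => 0
  | k :: l => tt (v k) • Pv v (fac F (cns b l) g)

/-- the shape of `l` fits to `b` -/
def Fits (b : Bool) (l : List ℕ) : Prop := if b then 3 ≤ l.length ∧ Odd l.length else 2 ≤ l.length ∧ Even l.length

end Pool.Agent.OT
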